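import Pool.Agent.KS6_47.SJ.JC.Stmts

/-! Names for the values of terms. -/

set_option autoImplicit false

open FirstOrder FirstOrder.Language Pool.Agent.KS6_47.SJ.H227.EN

namespace Pool.Agent.KS6_47.SJ.JC

open Pool.Agent.KS6_47.SJ.H578.JD Pool.Agent.KS6_47.SJ.H578.JD.Oracle Pool.Agent.KS6_47.SJ.H578.JD.Defs

section

variable {M : Type} [CommSemiring M] [LinearOrder M] [LA.Structure M]

theorem names_ltD (hM : Compat M) (g : ℕ → M) (i j : ℕ) :
    Dg g (Nat.pair 2 (Nat.pair i (Nat.pair j 0))) = true ↔ g i < g j := by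
  rw [← hM.lt]
  simp [Dg]

theorem names_addD (hM : Compat M) (g : ℕ → M) (i j l : ℕ) :
    Dg g (Nat.pair 0 (Nat.pair i (Nat.pair j l))) = true ↔ g i + g j = g l := by
  rw [← hM.add]
  simp [Dg]

theorem names_mulD (hM : Compat M) (g : ℕ → M) (i j l : ℕ) :
    Dg g (Nat.pair 1 (Nat.pair i (Nat.pair j l))) = true ↔ g i * g j = g l := by
  rw [← hM.mul]
  simp [Dg]

variable {C : ℕ → M} {A : Set ℕ}

theorem names_lt (hM : Compat M) (hA : DecIn A fun p => Dg C p = true) :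
    DecIn A fun p : ℕ × ℕ => C p.1 < C p.2 :=
  (DecIn.comp (f := fun p : ℕ × ℕ => Nat.pair 2 (Nat.pair p.1 (Nat.pair p.2 0))) hA
    (by fun_prop)).of_eq fun p => names_ltD hM C p.1 p.2

theorem names_eq (hM : Compat M) (hA : DecIn A fun p => Dg C p = true) :
    DecIn A fun p : ℕ × ℕ => C p.1 = C p.2 := by
  have h1 := names_lt hM hA
  have h2 : DecIn A fun p : ℕ × ℕ => C p.2 < C p.1 :=
    DecIn.comp (f := fun p : ℕ × ℕ => (p.2, p.1)) h1 (by fun_prop)
  refine (h1.not.and h2.not).of_eq fun p => ?_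
  rw [not_lt, not_lt]
  constructor
  · rintro ⟨h3, h4⟩; exact le_antisymm h4 h3
  · intro h; rw [h]; exact ⟨le_rfl, le_rfl⟩

theorem names_add (hM : Compat M) (hC : Function.Surjective C)
    (hA : DecIn A fun p => Dg C p = true) :
    ∃ f : ℕ × ℕ → ℕ, CompIn A f ∧ ∀ p, C (f p) = C p.1 + C p.2 := by
  obtain ⟨f, hf, h1⟩ := CompIn.find (A := A) (α := ℕ × ℕ)
    (P := fun p n => Dg C (Nat.pair 0 (Nat.pair p.1 (Nat.pair p.2 n))) = true)
    (DecIn.comp (f := fun x : (ℕ × ℕ) × ℕ => Nat.pair 0 (Nat.pair x.1.1 (Nat.pair x.1.2 x.2))) hA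
      (by fun_prop)) (fun p => by
        obtain ⟨n, hn⟩ := hC (C p.1 + C p.2)
        exact ⟨n, (names_addD hM C _ _ _).2 hn.symm⟩)
  exact ⟨f, hf, fun p => ((names_addD hM C _ _ _).1 (h1 p).1).symm⟩

theorem names_mul (hM : Compat M) (hC : Function.Surjective C)
    (hA : DecIn A fun p => Dg C p = true) :
    ∃ f : ℕ × ℕ → ℕ, CompIn A f ∧ ∀ p, C (f p) = C p.1 * C p.2 := by
  obtain ⟨f, hf, h1⟩ := CompIn.find (A := A) (α := ℕ × ℕ)
    (P := fun p n => Dg C (Nat.pair 1 (Nat.pair p.1 (Nat.pair p.2 n))) = true)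
    (DecIn.comp (f := fun x : (ℕ × ℕ) × ℕ => Nat.pair 1 (Nat.pair x.1.1 (Nat.pair x.1.2 x.2))) hA
      (by fun_prop)) (fun p => by
        obtain ⟨n, hn⟩ := hC (C p.1 * C p.2)
        exact ⟨n, (names_mulD hM C _ _ _).2 hn.symm⟩)
  exact ⟨f, hf, fun p => ((names_mulD hM C _ _ _).1 (h1 p).1).symm⟩

theorem names_num (hM : Compat M) (hC : Function.Surjective C)
    (hA : DecIn A fun p => Dg C p = true) :
    ∃ f : ℕ → ℕ, CompIn A f ∧ ∀ n : ℕ, C (f n) = (n : M) := by
  obtain ⟨ad, had, had1⟩ := names_add hM hC hA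
  obtain ⟨z, hz⟩ := hC 0
  obtain ⟨o, ho⟩ := hC 1
  let h : ℕ → ℕ := fun n => Nat.rec z (fun _ ih => ad (ih, o)) n
  have hc : CompIn A h := by
    have h1 := CompIn.iterate (A := A) (α := Unit) (β := ℕ) (f := fun _ => z)
      (g := fun p => ad (p.2.2, o)) (by fun_prop) (had.comp (by fun_prop))
    exact CompIn.comp (g := fun n : ℕ => ((), n)) h1 (by fun_prop)
  refine ⟨h, hc, fun n => ?_⟩
  induction n with
  | zero => rw [Nat.cast_zero]; exact hz
  | succ n ih =>
    show C (ad (h n, o)) = _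
    rw [had1, ih, ho, Nat.cast_succ]

theorem names_bt (hM : Compat M) (hC : Function.Surjective C)
    (hA : DecIn A fun p => Dg C p = true)
    (hb : ∀ (a c : M) (i : ℕ) (v : M), Beta a c (i : M) v ↔ v = bt a c i) :
    ∃ f : ℕ × (ℕ × ℕ) → ℕ, CompIn A f ∧ ∀ p, C (f p) = bt (C p.1) (C p.2.1) p.2.2 := by
  obtain ⟨ad, had, had1⟩ := names_add hM hC hA
  obtain ⟨ml, hml, hml1⟩ := names_mul hM hC hA
  obtain ⟨nu, hnu, hnu1⟩ := names_num hM hC hA
  obtain ⟨o, ho⟩ := hC 1
  have hE := names_eq hM hA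
  have hL := names_lt hM hA
  -- the modulus
  let md : ℕ × (ℕ × ℕ) → ℕ := fun p => ad (o, ml (ad (nu p.2.2, o), p.2.1))
  have hmd : CompIn A md := by
    refine had.comp (CompIn.pair (by fun_prop) (hml.comp (CompIn.pair (had.comp (CompIn.pair
      (hnu.comp (by fun_prop)) (by fun_prop))) (by fun_prop))))
  have hmd1 : ∀ p, C (md p) = 1 + ((p.2.2 : M) + 1) * C p.2.1 := by
    intro p
    simp only [md, had1, hml1, hnu1, ho]
  obtain ⟨f, hf, h1⟩ := CompIn.find (A := A) (α := ℕ × (ℕ × ℕ))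
    (P := fun p w => C w.unpair.1 < C (md p) ∧
      C p.1 = C (ad (ml (w.unpair.2, md p), w.unpair.1))) (by
        have e1 : CompIn A fun x : (ℕ × (ℕ × ℕ)) × ℕ => md x.1 := hmd.comp (by fun_prop)
        refine DecIn.and ?_ ?_
        · exact DecIn.comp (f := fun x : (ℕ × (ℕ × ℕ)) × ℕ => (x.2.unpair.1, md x.1)) hL
            (CompIn.pair (by fun_prop) e1)
        · exact DecIn.comp (f := fun x : (ℕ × (ℕ × ℕ)) × ℕ =>
            (x.1.1, ad (ml (x.2.unpair.2, md x.1), x.2.unpair.1))) hE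
            (CompIn.pair (by fun_prop) (had.comp (CompIn.pair
              (hml.comp (CompIn.pair (by fun_prop) e1)) (by fun_prop))))) (fun p => by
        obtain ⟨h2, q, h3⟩ := (hb (C p.1) (C p.2.1) p.2.2 _).2 rfl
        obtain ⟨v, hv⟩ := hC (bt (C p.1) (C p.2.1) p.2.2)
        obtain ⟨q', hq'⟩ := hC q
        refine ⟨Nat.pair v q', ?_, ?_⟩
        · rw [Nat.unpair_pair, hmd1, hv]; exact h2
        · rw [had1, hml1, hmd1, Nat.unpair_pair, hv, hq']; exact h3)
  refine ⟨fun p => (f p).unpair.1, by fun_prop, fun p => ?_⟩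
  obtain ⟨⟨h2, h3⟩, -⟩ := h1 p
  rw [hmd1] at h2
  rw [had1, hml1, hmd1] at h3
  exact (hb _ _ _ _).1 ⟨h2, _, h3⟩

/-- course of values recursion -/
theorem names_rec {s : ℕ × List ℕ → ℕ} (hs : CompIn A s) :
    ∃ nm : ℕ → ℕ, CompIn A nm ∧ ∀ j, ∃ l : List ℕ, (∀ i < j, l.getD i 0 = nm i) ∧
      nm j = s (j, l) := by
  let L : ℕ → List ℕ := fun n => Nat.rec [] (fun m ih => ih ++ [s (m, ih)]) n
  have hL : CompIn A L := by
    have h1 := CompIn.iterate (A := A) (α := Unit) (β := List ℕ) (f := fun _ => [])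
      (g := fun p => p.2.2 ++ [s (p.2.1, p.2.2)]) (by fun_prop) (by
        have : CompIn A fun p : Unit × (ℕ × List ℕ) => s (p.2.1, p.2.2) := hs.comp (by fun_prop)
        fun_prop)
    exact CompIn.comp (g := fun n : ℕ => ((), n)) h1 (by fun_prop)
  have hS : ∀ m, L (m + 1) = L m ++ [s (m, L m)] := fun m => rfl
  have hlen : ∀ m, (L m).length = m := by
    intro m
    induction m with
    | zero => rfl
    | succ m ih => rw [hS, List.length_append, ih]; rfl
  have hget : ∀ m, ∀ i < m, (L m).getD i 0 = s (i, L i) := by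
    intro m
    induction m with
    | zero => intro i hi; omega
    | succ m ih =>
      intro i hi
      rw [hS]
      by_cases h : i < m
      · rw [List.getD_append _ _ _ _ (by rw [hlen]; exact h)]
        exact ih i h
      · have : i = m := by omega
        subst this
        rw [List.getD_append_right _ _ _ _ (by rw [hlen]), hlen, Nat.sub_self]
        rfl
  refine ⟨fun j => s (j, L j), hs.comp (CompIn.pair (by fun_prop) hL), fun j => ⟨L j, ?_, rfl⟩⟩
  exact hget j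

end

theorem prf_names : S_names := by
  intro M _ _ _ _ _ hM hbt C hC A hA
  refine ⟨names_eq hM.compat hA, ?_⟩
  have hb := hbt M hM
  obtain ⟨b, hbc, hb1⟩ := names_bt hM.compat hC hA hb
  obtain ⟨nm, hnm, h1⟩ := names_rec (A := A) (s := fun p : ℕ × List ℕ =>
    if p.1 % 2 = 0 then p.1 / 2 else
      b (p.2.getD (p.1 / 2).unpair.1 0, (p.2.getD (p.1 / 2).unpair.2.unpair.1 0,
        (p.1 / 2).unpair.2.unpair.2))) (by
    have e1 : CompIn A fun p : ℕ × List ℕ => p.1 % 2 :=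
      CompIn.comp_of (f := fun n : ℕ => n % 2)
        (Primrec.nat_mod.comp Primrec.id (Primrec.const 2)).to_comp (by fun_prop)
    have e2 : CompIn A fun p : ℕ × List ℕ => p.1 / 2 :=
      CompIn.comp_of (f := fun n : ℕ => n / 2)
        (Primrec.nat_div.comp Primrec.id (Primrec.const 2)).to_comp (by fun_prop)
    have e3 : ∀ {f : ℕ × List ℕ → ℕ}, CompIn A f →
        CompIn A fun p : ℕ × List ℕ => p.2.getD (f p) 0 := fun {f} hf =>
      CompIn.comp₂ (f := fun (l : List ℕ) (i : ℕ) => l.getD i 0) (g := fun p : ℕ × List ℕ => p.2)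
        (h := f) (Primrec.list_getD 0).to_comp (by fun_prop) hf
    have e4 : CompIn A fun p : ℕ × List ℕ => (p.1 / 2).unpair.1 := ci_fst (ci_unpair e2)
    have e5 : CompIn A fun p : ℕ × List ℕ => (p.1 / 2).unpair.2 := ci_snd (ci_unpair e2)
    have e6 : CompIn A fun p : ℕ × List ℕ => (p.1 / 2).unpair.2.unpair.1 := ci_fst (ci_unpair e5)
    have e7 : CompIn A fun p : ℕ × List ℕ => (p.1 / 2).unpair.2.unpair.2 := ci_snd (ci_unpair e5)
    refine CompIn.of_eq (CompIn.ite (DecIn.eq (β := ℕ) (g := fun _ => 0) e1 (ci_const 0)) e2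
      (hbc.comp (CompIn.pair (e3 e4) (CompIn.pair (e3 e6) e7)))) fun p => ?_
    by_cases h : p.1 % 2 = 0
    · rw [if_pos h, if_pos h]
    · rw [if_neg h, if_neg h])
  refine ⟨nm, hnm, fun j => ?_⟩
  induction j using Nat.strong_induction_on with
  | _ j ih =>
    obtain ⟨l, hl, hj⟩ := h1 j
    by_cases h : j % 2 = 0
    · rw [if_pos h] at hj
      have e : j = 2 * (j / 2) := by omega
      rw [hj]
      conv_rhs => rw [e, hat_var]
    · rw [if_neg h] at hj
      rw [hj, hb1]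
      have e : j = bterm (j / 2).unpair.1 (j / 2).unpair.2.unpair.1 (j / 2).unpair.2.unpair.2 := by
        unfold bterm
        rw [Nat.pair_unpair, Nat.pair_unpair]
        omega
      simp only
      rw [hl _ (tc_lt1 h), hl _ (tc_lt2 h), ih _ (tc_lt1 h), ih _ (tc_lt2 h)]
      conv_rhs => rw [e, hat_bterm]

end Pool.Agent.KS6_47.SJ.JC
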