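import Pool.Agent.KS6_47.SJ.JC.Stmts

/-!
The level `n` type of an enumeration is computable in the `n`-th jump.
-/

set_option autoImplicit false

open FirstOrder FirstOrder.Language Pool.Agent.KS6_47.SJ.H227.EN

namespace Pool.Agent.KS6_47.SJ.JC

open Pool.Agent.KS6_47.SJ.H578.JD Pool.Agent.KS6_47.SJ.H578.JD.Oracle Pool.Agent.KS6_47.SJ.H578.JD.Defs

/-- renaming in a code of an atomic fact -/
def tyj_rn (w : List ℕ) (p : ℕ) : ℕ :=
  Nat.pair p.unpair.1 (Nat.pair (w.getD p.unpair.2.unpair.1 0)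
    (Nat.pair (w.getD p.unpair.2.unpair.2.unpair.1 0) (w.getD p.unpair.2.unpair.2.unpair.2 0)))

theorem tyj_getD : Primrec₂ fun (w : List ℕ) (i : ℕ) => w.getD i 0 := Primrec.list_getD 0

@[fun_prop] theorem tyj_cgetD {α : Type} [Primcodable α] {f : α → List ℕ} {g : α → ℕ}
    (hf : Computable f) (hg : Computable g) : Computable fun a => (f a).getD (g a) 0 :=
  tyj_getD.to_comp.comp hf hg

@[fun_prop] theorem tyj_cigetD {α : Type} [Primcodable α] {A : Set ℕ} {f : α → List ℕ} {g : α → ℕ}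
    (hf : CompIn A f) (hg : CompIn A g) : CompIn A fun a => (f a).getD (g a) 0 :=
  CompIn.comp₂ (f := fun (w : List ℕ) (i : ℕ) => w.getD i 0) tyj_getD.to_comp hf hg

theorem tyj_rn_comp : Computable fun x : List ℕ × ℕ => tyj_rn x.1 x.2 := by
  unfold tyj_rn
  fun_prop

@[fun_prop] theorem tyj_cilst (hprim : S_prim) {α : Type} [Primcodable α] {A : Set ℕ} {f : α → ℕ}
    (hf : CompIn A f) : CompIn A fun a => lst (f a) :=
  CompIn.comp_of (f := lst) hprim.1.to_comp hf

theorem tyj_half : Computable fun n : ℕ => n / 2 :=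
  (Primrec.nat_div.comp Primrec.id (Primrec.const 2)).to_comp

theorem tyj_mod : Computable fun n : ℕ => n % 2 :=
  (Primrec.nat_mod.comp Primrec.id (Primrec.const 2)).to_comp

section
variable {M : Type} [CommSemiring M] [LinearOrder M] [LA.Structure M]

omit [CommSemiring M] [LinearOrder M] in
theorem tyj_Dg_eq {b b' : ℕ → M} {z z' : ℕ} (h0 : z.unpair.1 = z'.unpair.1)
    (h1 : b z.unpair.2.unpair.1 = b' z'.unpair.2.unpair.1)
    (h2 : b z.unpair.2.unpair.2.unpair.1 = b' z'.unpair.2.unpair.2.unpair.1)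
    (h3 : b z.unpair.2.unpair.2.unpair.2 = b' z'.unpair.2.unpair.2.unpair.2) :
    Dg b z = Dg b' z' := by
  simp only [Dg]
  rw [h0, h1, h2, h3]

theorem tyj_Dg_rn (C : ℕ → M) (w : List ℕ) (p : ℕ) :
    Dg (fun i => C (w.getD i 0)) p = Dg C (tyj_rn w p) := by
  refine tyj_Dg_eq ?_ ?_ ?_ ?_ <;> simp only [tyj_rn, Nat.unpair_pair]

/-- the type of a finite sequence of entries -/
theorem tyj_list (hprim : S_prim) {C : ℕ → M} {O : Set ℕ} {n : ℕ}
    (h : DecIn O fun u => Ty n C u) :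
    DecIn O fun p : List ℕ × ℕ => Ty n (fun i => C (p.1.getD i 0)) p.2 := by
  cases n with
  | zero =>
    have h1 : DecIn O fun p : List ℕ × ℕ => Ty 0 C (tyj_rn p.1 p.2) :=
      h.comp (CompIn.of_comp tyj_rn_comp)
    refine h1.of_eq fun p => ?_
    show (Dg C (tyj_rn p.1 p.2) = true ↔ Dg (fun i => C (p.1.getD i 0)) p.2 = true)
    rw [tyj_Dg_rn]
  | succ m =>
    have h0 : Primrec₂ fun (w : List ℕ) (i : ℕ) => 2 * w.getD i 0 :=
      Primrec.nat_mul.comp (Primrec.const 2) tyj_getD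
    have hsb : Primrec₂ fun (w : List ℕ) (z : ℕ) => sb (fun i => 2 * w.getD i 0) z :=
      (hprim.2.2.2.2.2 (List ℕ) (fun w i => 2 * w.getD i 0) h0).2.1
    have h1 : DecIn O fun p : List ℕ × ℕ =>
        Ty (m + 1) C (sb (fun i => 2 * p.1.getD i 0) p.2) :=
      h.comp (f := fun p : List ℕ × ℕ => sb (fun i => 2 * p.1.getD i 0) p.2)
        (CompIn.of_comp hsb.to_comp)
    refine h1.of_eq fun p => ?_
    rw [← Ty_sb]
    have h2 := hat_names C (fun i => p.1.getD i 0)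
    rw [← h2]

/-- the list `w` of names witnesses the fact `z` of level `n + 1` -/
def TyjW (n : ℕ) (C : ℕ → M) (nm : ℕ → ℕ) (w : List ℕ) (z : ℕ) : Prop :=
  (∀ f ∈ lst z.unpair.1, C (w.getD f.unpair.1 0) = C (nm f.unpair.2)) ∧
    ∀ e ∈ lst z.unpair.2, Lit (Ty n (fun i => C (w.getD i 0))) e

theorem TyjW_dec (hprim : S_prim) {C : ℕ → M} {O : Set ℕ} {n : ℕ} {nm : ℕ → ℕ}
    (h : DecIn O fun u => Ty n C u) (heq : DecIn O fun p : ℕ × ℕ => C p.1 = C p.2)
    (hnm : CompIn O nm) : DecIn O fun p : List ℕ × ℕ => TyjW n C nm p.1 p.2 := by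
  have hlst1 : CompIn O fun p : List ℕ × ℕ => lst p.2.unpair.1 :=
    tyj_cilst hprim (by fun_prop)
  have hlst2 : CompIn O fun p : List ℕ × ℕ => lst p.2.unpair.2 :=
    tyj_cilst hprim (by fun_prop)
  refine DecIn.and ?_ ?_
  · refine DecIn.all_mem (S := fun (p : List ℕ × ℕ) (f : ℕ) =>
      C (p.1.getD f.unpair.1 0) = C (nm f.unpair.2)) ?_ hlst1
    have h2 : CompIn O fun x : (List ℕ × ℕ) × ℕ => nm x.2.unpair.2 :=
      hnm.comp (g := fun x : (List ℕ × ℕ) × ℕ => x.2.unpair.2) (by fun_prop)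
    exact heq.comp (f := fun x : (List ℕ × ℕ) × ℕ => (x.1.1.getD x.2.unpair.1 0,
      nm x.2.unpair.2)) (CompIn.pair (by fun_prop) h2)
  · refine DecIn.all_mem (S := fun (p : List ℕ × ℕ) (e : ℕ) =>
      Lit (Ty n (fun i => C (p.1.getD i 0))) e) ?_ hlst2
    refine DecIn.iff ?_ ?_
    · have h3 : CompIn O fun x : (List ℕ × ℕ) × ℕ => x.2 / 2 :=
        CompIn.comp_of tyj_half (by fun_prop)
      exact (tyj_list hprim h).comp (f := fun x : (List ℕ × ℕ) × ℕ => (x.1.1, x.2 / 2))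
        (CompIn.pair (by fun_prop) h3)
    · have h3 : CompIn O fun x : (List ℕ × ℕ) × ℕ => x.2 % 2 :=
        CompIn.comp_of tyj_mod (by fun_prop)
      exact DecIn.eq h3 (by fun_prop)

/-- soundness of witnesses -/
theorem TyjW_sound {C : ℕ → M} {n : ℕ} {nm : ℕ → ℕ} (hn : ∀ j, C (nm j) = hat C j)
    {w : List ℕ} {z : ℕ} (h : TyjW n C nm w z) : Ty (n + 1) C z := by
  unfold Ty
  refine ⟨fun i => C (w.getD i 0), fun f hf => ?_, h.2⟩
  show C (w.getD f.unpair.1 0) = _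
  rw [h.1 f hf, hn]

/-- completeness: any witness gives a list of names -/
theorem TyjW_of {C : ℕ → M} {n : ℕ} {nm : ℕ → ℕ} (hn : ∀ j, C (nm j) = hat C j)
    {z : ℕ} {y : ℕ → M} (h1 : Con z.unpair.1 y C)
    (h2 : ∀ e ∈ lst z.unpair.2, Lit (Ty n y) e) (ν : ℕ → ℕ) (hν : ∀ t ≤ z, C (ν t) = y t) :
    TyjW n C nm ((List.range (z + 1)).map ν) z := by
  have hget : ∀ t ≤ z, C (((List.range (z + 1)).map ν).getD t 0) = y t := by
    intro t ht
    have : ((List.range (z + 1)).map ν).getD t 0 = ν t := by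
      rw [List.getD_eq_getElem?_getD, List.getElem?_map, List.getElem?_range (by omega)]
      rfl
    rw [this, hν t ht]
  have hz1 := Nat.unpair_left_le z
  have hz2 := Nat.unpair_right_le z
  constructor
  · intro f hf
    have h3 := mem_lst_lt hf
    have h4 := Nat.unpair_left_le f
    rw [hget _ (by omega), hn, h1 f hf]
  · intro e he
    have h3 := mem_lst_lt he
    refine (Lit_congr ?_).1 (h2 e he)
    refine Ty_congr_le fun i hi => ?_
    rw [hget i (by omega)]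

theorem TyjW_complete {C : ℕ → M} (hC : Function.Surjective C) {n : ℕ} {nm : ℕ → ℕ}
    (hn : ∀ j, C (nm j) = hat C j) {z : ℕ} (h : Ty (n + 1) C z) :
    ∃ w, TyjW n C nm w z := by
  unfold Ty at h
  obtain ⟨y, h1, h2⟩ := h
  choose ν hν using fun t => hC (y t)
  exact ⟨_, TyjW_of hn h1 h2 ν fun t _ => hν t⟩

end

theorem prf_tyjump : S_tyjump := by
  intro M _ _ _ _ _ _ hprim C hC A h0 heq hnm n
  obtain ⟨nm, hnm, hn⟩ := hnm
  induction n with
  | zero => exact h0
  | succ n ih =>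
    have hr : Red A (jump^[n] A) := red_self_jump_iter A n
    have h1 : REIn (jump^[n] A) fun z => ∃ w, TyjW n C nm w z := by
      refine REIn.ex (S := fun z w => TyjW n C nm w z) ?_
      exact ((TyjW_dec hprim ih (heq.mono hr) (hnm.mono hr)).comp
        (f := fun x : ℕ × List ℕ => (x.2, x.1)) (by fun_prop)).1
    rw [Function.iterate_succ_apply']
    refine (DecIn.of_re_jump h1).of_eq fun z => ?_
    exact ⟨fun ⟨w, hw⟩ => TyjW_sound hn hw, fun h => TyjW_complete hC hn h⟩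

end Pool.Agent.KS6_47.SJ.JC
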