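import Pool.Agent.KS6_47.SJ.JC.Basic
import Pool.Agent.KS6_47.SJ.JC.P_NAMES
import Pool.Agent.KS6_47.SJ.JC.P_TYJUMP

/-!
The `n`-quantifier diagram of an enumeration of a structure, and its relation to the types `Ty`.
-/

set_option autoImplicit false
set_option linter.unusedSectionVars false

open FirstOrder FirstOrder.Language Pool.Agent.KS6_47.SJ.H227.EN

namespace Pool.Agent.KS6_47.SJ.JC

open Pool.Agent.KS6_47.SJ.H578.JD Pool.Agent.KS6_47.SJ.H578.JD.Oracle
open Pool.Agent.KS6_47.SJ.H578.JD.Defs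

/-- The facts of level `n` about the sequence `x` of elements of a structure of the language of
arithmetic. The facts of level `0` are the atomic facts (`Dg`). A fact of level `n + 1` is coded by
`z = ⟨c, l⟩` for two (coded) lists `c`, `l`; it is true of `x` if there is a sequence `y` of elements
with `y i = x j` for all `⟨i, j⟩` in the list `c`, for which all the literals of level `n` in the
list `l` hold: `2 u + 1` in `l` says that the fact `u` of level `n` is true of `y`, and `2 u` says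
that it is false. -/
def Sg {M : Type} [LA.Structure M] : ℕ → (ℕ → M) → ℕ → Prop
  | 0, x, p => Dg x p = true
  | n + 1, x, z => ∃ y : ℕ → M, (∀ f ∈ lst z.unpair.1, y f.unpair.1 = x f.unpair.2) ∧
      ∀ e ∈ lst z.unpair.2, Lit (Sg n y) e

/-- an atomic fact as a fact of level `n` -/
def La : ℕ → ℕ → ℕ
  | 0, p => p
  | n + 1, p => Nat.pair (cod ((List.range (p + 1)).map fun i => Nat.pair i i))
      (cod [2 * La n p + 1])

section trans
variable {M : Type} [CommSemiring M] [LinearOrder M] [LA.Structure M]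

theorem Sg_La (n p : ℕ) (x : ℕ → M) : Sg n x (La n p) ↔ Dg x p = true := by
  induction n generalizing x with
  | zero => rfl
  | succ n ih =>
    have e1 : (La (n + 1) p).unpair.1 = cod ((List.range (p + 1)).map fun i => Nat.pair i i) := by
      simp [La]
    have e2 : (La (n + 1) p).unpair.2 = cod [2 * La n p + 1] := by
      simp [La]
    unfold Sg
    rw [e1, e2, lst_cod, lst_cod]
    constructor
    · rintro ⟨y, h1, h2⟩
      have h3 := h2 _ (List.mem_singleton_self _)
      rw [Lit_odd, ih] at h3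
      rw [← h3]
      refine Dg_congr fun i hi => ?_
      have h4 := h1 (Nat.pair i i) (List.mem_map.2 ⟨i, List.mem_range.2 (by omega), rfl⟩)
      rw [Nat.unpair_pair] at h4
      exact h4.symm
    · intro h
      refine ⟨x, fun f hf => ?_, fun e he => ?_⟩
      · obtain ⟨i, _, rfl⟩ := List.mem_map.1 hf
        rw [Nat.unpair_pair]
      · rw [List.mem_singleton] at he
        subst he
        rw [Lit_odd, ih]
        exact h

/-! ### from facts to types -/

/-- a fact of level `n` as a code for `Ty` -/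
def Un : ℕ → ℕ → ℕ
  | 0, p => p
  | n + 1, z => Nat.pair (cod ((lst z.unpair.1).map fun f => Nat.pair f.unpair.1 (2 * f.unpair.2)))
      (cod ((lst z.unpair.2).map fun e => 2 * Un n (e / 2) + e % 2))

theorem Lit_mk (P : ℕ → Prop) (u e : ℕ) : Lit P (2 * u + e % 2) ↔ (P u ↔ e % 2 = 1) := by
  unfold Lit
  have h1 : (2 * u + e % 2) / 2 = u := by omega
  have h2 : (2 * u + e % 2) % 2 = e % 2 := by omega
  rw [h1, h2]

theorem Sg_iff_Ty (n z : ℕ) (x : ℕ → M) : Sg n x z ↔ Ty n x (Un n z) := by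
  induction n generalizing x z with
  | zero => rfl
  | succ n ih =>
    have e1 : (Un (n + 1) z).unpair.1 =
        cod ((lst z.unpair.1).map fun f => Nat.pair f.unpair.1 (2 * f.unpair.2)) := by
      simp [Un]
    have e2 : (Un (n + 1) z).unpair.2 =
        cod ((lst z.unpair.2).map fun e => 2 * Un n (e / 2) + e % 2) := by
      simp [Un]
    unfold Sg Ty
    rw [e1, e2, lst_cod]
    refine exists_congr fun y => and_congr ?_ ?_
    · unfold Con
      rw [lst_cod]
      simp only [List.mem_map, forall_exists_index, and_imp, forall_apply_eq_imp_iff₂,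
        Nat.unpair_pair, hat_var]
    · simp only [List.mem_map, forall_exists_index, and_imp, forall_apply_eq_imp_iff₂, Lit_mk]
      refine forall₂_congr fun e he => ?_
      unfold Lit
      rw [ih]

/-! ### from types to facts -/

/-- the defining relations of the values of the terms `j = 2 i + 1`, `i < K`, and of the numerals:
at the place `8 j` the value of the term `j`, at the place `8 i + 1` the number `i`, and at the
places `8 j + 2, ..., 8 j + 5` auxiliary values -/
def dfl (K : ℕ) : List ℕ :=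
  [cd 3 1 0 0, cd 4 9 0 0] ++
  ((List.range K).map fun i => cd 0 (8 * i + 1) 9 (8 * (i + 1) + 1)) ++
  ((List.range K).map fun i => cd 1 (8 * (i.unpair.2.unpair.2 + 1) + 1) (8 * i.unpair.2.unpair.1)
    (8 * (2 * i + 1) + 2)) ++
  ((List.range K).map fun i => cd 0 9 (8 * (2 * i + 1) + 2) (8 * (2 * i + 1) + 3)) ++
  ((List.range K).map fun i => cd 1 (8 * (2 * i + 1) + 4) (8 * (2 * i + 1) + 3)
    (8 * (2 * i + 1) + 5)) ++
  ((List.range K).map fun i => cd 0 (8 * (2 * i + 1) + 5) (8 * (2 * i + 1)) (8 * i.unpair.1)) ++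
  ((List.range K).map fun i => cd 2 (8 * (2 * i + 1)) (8 * (2 * i + 1) + 3) 0)

theorem Dg_add (hM : Compat M) (g : ℕ → M) (i j l : ℕ) :
    Dg g (cd 0 i j l) = true ↔ g i + g j = g l := by
  rw [← hM.add]
  simp [Dg, cd]

theorem Dg_mul (hM : Compat M) (g : ℕ → M) (i j l : ℕ) :
    Dg g (cd 1 i j l) = true ↔ g i * g j = g l := by
  rw [← hM.mul]
  simp [Dg, cd]

theorem Dg_lt (hM : Compat M) (g : ℕ → M) (i j : ℕ) :
    Dg g (cd 2 i j 0) = true ↔ g i < g j := names_ltD hM g i j

theorem Dg_zero (hM : Compat M) (g : ℕ → M) (i j l : ℕ) :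
    Dg g (cd 3 i j l) = true ↔ g i = 0 := by
  rw [← hM.zero]
  simp [Dg, cd, eq_comm]

theorem Dg_one (hM : Compat M) (g : ℕ → M) (i j l : ℕ) :
    Dg g (cd 4 i j l) = true ↔ g i = 1 := by
  rw [← hM.one]
  simp [Dg, cd, eq_comm]

/-- the defining relations hold for `Y` -/
structure Dfr (K : ℕ) (Y : ℕ → M) : Prop where
  zero : Y 1 = 0
  one : Y 9 = 1
  num : ∀ i < K, Y (8 * i + 1) + Y 9 = Y (8 * (i + 1) + 1)
  mul : ∀ i < K, Y (8 * (i.unpair.2.unpair.2 + 1) + 1) * Y (8 * i.unpair.2.unpair.1) =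
    Y (8 * (2 * i + 1) + 2)
  add : ∀ i < K, Y 9 + Y (8 * (2 * i + 1) + 2) = Y (8 * (2 * i + 1) + 3)
  quo : ∀ i < K, Y (8 * (2 * i + 1) + 4) * Y (8 * (2 * i + 1) + 3) = Y (8 * (2 * i + 1) + 5)
  rem : ∀ i < K, Y (8 * (2 * i + 1) + 5) + Y (8 * (2 * i + 1)) = Y (8 * i.unpair.1)
  lt : ∀ i < K, Y (8 * (2 * i + 1)) < Y (8 * (2 * i + 1) + 3)

theorem dfl_iff (hM : Compat M) (K : ℕ) (Y : ℕ → M) :
    (∀ p ∈ dfl K, Dg Y p = true) ↔ Dfr K Y := by
  constructor
  · intro h
    have h' : ∀ p, p ∈ dfl K → Dg Y p = true := h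
    unfold dfl at h'
    simp only [List.mem_append, List.mem_map, List.mem_range, List.mem_cons, List.not_mem_nil,
      or_false] at h'
    refine ⟨?_, ?_, ?_, ?_, ?_, ?_, ?_, ?_⟩
    · exact (Dg_zero hM Y 1 0 0).1 (h' _ (by tauto))
    · exact (Dg_one hM Y 9 0 0).1 (h' _ (by tauto))
    · intro i hi
      exact (Dg_add hM Y _ _ _).1 (h' (cd 0 (8 * i + 1) 9 (8 * (i + 1) + 1))
        (Or.inl (Or.inl (Or.inl (Or.inl (Or.inl (Or.inr ⟨i, hi, rfl⟩)))))))
    · intro i hi
      exact (Dg_mul hM Y _ _ _).1 (h' (cd 1 (8 * (i.unpair.2.unpair.2 + 1) + 1)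
        (8 * i.unpair.2.unpair.1) (8 * (2 * i + 1) + 2))
        (Or.inl (Or.inl (Or.inl (Or.inl (Or.inr ⟨i, hi, rfl⟩))))))
    · intro i hi
      exact (Dg_add hM Y _ _ _).1 (h' (cd 0 9 (8 * (2 * i + 1) + 2) (8 * (2 * i + 1) + 3))
        (Or.inl (Or.inl (Or.inl (Or.inr ⟨i, hi, rfl⟩)))))
    · intro i hi
      exact (Dg_mul hM Y _ _ _).1 (h' (cd 1 (8 * (2 * i + 1) + 4) (8 * (2 * i + 1) + 3)
        (8 * (2 * i + 1) + 5)) (Or.inl (Or.inl (Or.inr ⟨i, hi, rfl⟩))))
    · intro i hi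
      exact (Dg_add hM Y _ _ _).1 (h' (cd 0 (8 * (2 * i + 1) + 5) (8 * (2 * i + 1))
        (8 * i.unpair.1)) (Or.inl (Or.inr ⟨i, hi, rfl⟩)))
    · intro i hi
      exact (Dg_lt hM Y _ _).1 (h' (cd 2 (8 * (2 * i + 1)) (8 * (2 * i + 1) + 3) 0)
        (Or.inr ⟨i, hi, rfl⟩))
  · intro h p hp
    unfold dfl at hp
    simp only [List.mem_append, List.mem_map, List.mem_range, List.mem_cons, List.not_mem_nil,
      or_false] at hp
    rcases hp with ((((((h1 | h1) | ⟨i, hi, rfl⟩) | ⟨i, hi, rfl⟩) | ⟨i, hi, rfl⟩) | ⟨i, hi, rfl⟩) |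
      ⟨i, hi, rfl⟩) | ⟨i, hi, rfl⟩
    · subst h1; exact (Dg_zero hM Y _ _ _).2 h.zero
    · subst h1; exact (Dg_one hM Y _ _ _).2 h.one
    · exact (Dg_add hM Y _ _ _).2 (h.num i hi)
    · exact (Dg_mul hM Y _ _ _).2 (h.mul i hi)
    · exact (Dg_add hM Y _ _ _).2 (h.add i hi)
    · exact (Dg_mul hM Y _ _ _).2 (h.quo i hi)
    · exact (Dg_add hM Y _ _ _).2 (h.rem i hi)
    · exact (Dg_lt hM Y _ _).2 (h.lt i hi)

theorem Dfr.numeral {K : ℕ} {Y : ℕ → M} (h : Dfr K Y) : ∀ i ≤ K, Y (8 * i + 1) = (i : M) := by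
  intro i
  induction i with
  | zero => intro _; rw [Nat.cast_zero]; exact h.zero
  | succ i ih =>
    intro hi
    rw [← h.num i (by omega), ih (by omega), h.one, Nat.cast_succ]

theorem Dfr.hat {K : ℕ} {Y : ℕ → M} (h : Dfr K Y)
    (hb : ∀ (a c : M) (i : ℕ) (v : M), Beta a c (i : M) v ↔ v = bt a c i) :
    ∀ j, j / 2 < K → Y (8 * j) = hat (fun i => Y (8 * (2 * i))) j := by
  intro j
  induction j using Nat.strong_induction_on with
  | _ j ih =>
    intro hj
    by_cases he : j % 2 = 0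
    · have e : j = 2 * (j / 2) := by omega
      conv_rhs => rw [e, hat_var]
      rw [← e]
    · have h1 := ih _ (tc_lt1 he) (by have := tc_lt1 he; omega)
      have h2 := ih _ (tc_lt2 he) (by have := tc_lt2 he; omega)
      have e : j = bterm (j / 2).unpair.1 (j / 2).unpair.2.unpair.1 (j / 2).unpair.2.unpair.2 :=
        exists_bterm he
      have e' : j = 2 * (j / 2) + 1 := by omega
      conv_rhs => rw [e, hat_bterm]
      rw [← h1, ← h2]
      refine (hb _ _ _ _).1 ⟨?_, Y (8 * (2 * (j / 2) + 1) + 4), ?_⟩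
      · have h3 := h.lt (j / 2) hj
        rw [← h.add _ hj, ← h.mul _ hj, h.one, ← e'] at h3
        rw [h.numeral _ (by
          have := Nat.unpair_right_le (j / 2)
          have := Nat.unpair_right_le (j / 2).unpair.2
          omega)] at h3
        rw [Nat.cast_succ] at h3
        exact h3
      · have h3 := h.rem (j / 2) hj
        rw [← h.quo _ hj, ← h.add _ hj, ← h.mul _ hj, h.one] at h3
        rw [h.numeral _ (by
          have := Nat.unpair_right_le (j / 2)
          have := Nat.unpair_right_le (j / 2).unpair.2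
          omega)] at h3
        rw [Nat.cast_succ] at h3
        rw [← h3]
        rw [← e']

/-- the extended sequence -/
noncomputable def ext (y Q : ℕ → M) (t : ℕ) : M :=
  if t % 8 = 0 then hat y (t / 8)
  else if t % 8 = 1 then ((t / 8 : ℕ) : M)
  else if t % 8 = 2 then (((t / 8 / 2).unpair.2.unpair.2 + 1 : ℕ) : M) *
    hat y (t / 8 / 2).unpair.2.unpair.1
  else if t % 8 = 3 then 1 + (((t / 8 / 2).unpair.2.unpair.2 + 1 : ℕ) : M) *
    hat y (t / 8 / 2).unpair.2.unpair.1
  else if t % 8 = 4 then Q (t / 8 / 2)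
  else Q (t / 8 / 2) * (1 + (((t / 8 / 2).unpair.2.unpair.2 + 1 : ℕ) : M) *
    hat y (t / 8 / 2).unpair.2.unpair.1)

theorem ext0 (y Q : ℕ → M) (j : ℕ) : ext y Q (8 * j) = hat y j := by
  unfold ext
  have h1 : 8 * j % 8 = 0 := by omega
  have h2 : 8 * j / 8 = j := by omega
  rw [if_pos h1, h2]

theorem ext1 (y Q : ℕ → M) (j : ℕ) : ext y Q (8 * j + 1) = (j : M) := by
  unfold ext
  have h1 : (8 * j + 1) % 8 = 1 := by omega
  have h2 : (8 * j + 1) / 8 = j := by omega
  rw [h1, h2]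
  simp

theorem ext2 (y Q : ℕ → M) (i : ℕ) : ext y Q (8 * (2 * i + 1) + 2) =
    ((i.unpair.2.unpair.2 + 1 : ℕ) : M) * hat y i.unpair.2.unpair.1 := by
  unfold ext
  have h1 : (8 * (2 * i + 1) + 2) % 8 = 2 := by omega
  have h2 : (8 * (2 * i + 1) + 2) / 8 / 2 = i := by omega
  rw [h1, h2]
  simp

theorem ext3 (y Q : ℕ → M) (i : ℕ) : ext y Q (8 * (2 * i + 1) + 3) =
    1 + ((i.unpair.2.unpair.2 + 1 : ℕ) : M) * hat y i.unpair.2.unpair.1 := by
  unfold ext
  have h1 : (8 * (2 * i + 1) + 3) % 8 = 3 := by omega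
  have h2 : (8 * (2 * i + 1) + 3) / 8 / 2 = i := by omega
  rw [h1, h2]
  simp

theorem ext4 (y Q : ℕ → M) (i : ℕ) : ext y Q (8 * (2 * i + 1) + 4) = Q i := by
  unfold ext
  have h1 : (8 * (2 * i + 1) + 4) % 8 = 4 := by omega
  have h2 : (8 * (2 * i + 1) + 4) / 8 / 2 = i := by omega
  rw [h1, h2]
  simp

theorem ext5 (y Q : ℕ → M) (i : ℕ) : ext y Q (8 * (2 * i + 1) + 5) =
    Q i * (1 + ((i.unpair.2.unpair.2 + 1 : ℕ) : M) * hat y i.unpair.2.unpair.1) := by
  unfold ext
  have h1 : (8 * (2 * i + 1) + 5) % 8 = 5 := by omega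
  have h2 : (8 * (2 * i + 1) + 5) / 8 / 2 = i := by omega
  rw [h1, h2]
  simp

theorem exists_ext (hb : ∀ (a c : M) (i : ℕ) (v : M), Beta a c (i : M) v ↔ v = bt a c i)
    (y : ℕ → M) (K : ℕ) : ∃ Y : ℕ → M, Dfr K Y ∧ ∀ j, Y (8 * j) = hat y j := by
  have h0 : ∀ i : ℕ, ∃ q : M, hat y i.unpair.1 =
      q * (1 + ((i.unpair.2.unpair.2 : M) + 1) * hat y i.unpair.2.unpair.1) + hat y (2 * i + 1) ∧
      hat y (2 * i + 1) < 1 + ((i.unpair.2.unpair.2 : M) + 1) * hat y i.unpair.2.unpair.1 := by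
    intro i
    have e : 2 * i + 1 = bterm i.unpair.1 i.unpair.2.unpair.1 i.unpair.2.unpair.2 := by
      unfold bterm
      rw [Nat.pair_unpair, Nat.pair_unpair]
    obtain ⟨h1, q, h2⟩ := (hb (hat y i.unpair.1) (hat y i.unpair.2.unpair.1)
      i.unpair.2.unpair.2 (hat y (2 * i + 1))).2 (by
        conv_lhs => rw [e, hat_bterm])
    exact ⟨q, h2, h1⟩
  choose Q hQ1 hQ2 using h0
  refine ⟨ext y Q, ⟨?_, ?_, ?_, ?_, ?_, ?_, ?_, ?_⟩, ext0 y Q⟩
  · have := ext1 y Q 0
    rw [Nat.cast_zero] at this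
    exact this
  · have := ext1 y Q 1
    rw [Nat.cast_one] at this
    exact this
  · intro i _
    have h9 : ext y Q 9 = 1 := by
      have := ext1 y Q 1
      rw [Nat.cast_one] at this
      exact this
    rw [ext1, ext1, h9, Nat.cast_succ]
  · intro i _
    rw [ext1, ext0, ext2]
  · intro i _
    have h9 : ext y Q 9 = 1 := by
      have := ext1 y Q 1
      rw [Nat.cast_one] at this
      exact this
    rw [h9, ext2, ext3]
  · intro i _
    rw [ext4, ext3, ext5]
  · intro i _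
    rw [ext5, ext0, ext0, hQ1 i, Nat.cast_succ]
  · intro i _
    rw [ext0, ext3, Nat.cast_succ]
    exact hQ2 i

/-- a fact about the type as a fact about the extended sequence -/
def Tn : ℕ → ℕ → ℕ
  | 0, p => cd p.unpair.1 (8 * (2 * p.unpair.2.unpair.1)) (8 * (2 * p.unpair.2.unpair.2.unpair.1))
      (8 * (2 * p.unpair.2.unpair.2.unpair.2))
  | n + 1, z => Nat.pair
      (cod ((lst z.unpair.1).map fun f => Nat.pair (8 * (2 * f.unpair.1)) (8 * f.unpair.2)))
      (cod (((lst z.unpair.2).map fun e => 2 * Tn n (e / 2) + e % 2) ++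
        (dfl z).map fun p => 2 * La n p + 1))

theorem Tn_spec (hM : Compat M)
    (hb : ∀ (a c : M) (i : ℕ) (v : M), Beta a c (i : M) v ↔ v = bt a c i)
    (n z : ℕ) (x X : ℕ → M) (h : ∀ j ≤ 2 * z, X (8 * j) = hat x j) :
    Sg n X (Tn n z) ↔ Ty n x z := by
  induction n generalizing x X z with
  | zero =>
    have key : Dg X (Tn 0 z) = Dg x z := by
      have h1 := Nat.unpair_right_le z
      have h2 := Nat.unpair_left_le z.unpair.2
      have h3 := Nat.unpair_right_le z.unpair.2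
      have h4 := Nat.unpair_left_le z.unpair.2.unpair.2
      have h5 := Nat.unpair_right_le z.unpair.2.unpair.2
      have e1 := h (2 * z.unpair.2.unpair.1) (by omega)
      have e2 := h (2 * z.unpair.2.unpair.2.unpair.1) (by omega)
      have e3 := h (2 * z.unpair.2.unpair.2.unpair.2) (by omega)
      rw [hat_var] at e1 e2 e3
      refine tyj_Dg_eq ?_ ?_ ?_ ?_ <;> simp only [Tn, cd, Nat.unpair_pair]
      · exact e1
      · exact e2
      · exact e3
    show (Dg X (Tn 0 z) = true ↔ Dg x z = true)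
    rw [key]
  | succ n ih =>
    have e1 : (Tn (n + 1) z).unpair.1 =
        cod ((lst z.unpair.1).map fun f => Nat.pair (8 * (2 * f.unpair.1)) (8 * f.unpair.2)) := by
      simp [Tn]
    have e2 : (Tn (n + 1) z).unpair.2 =
        cod (((lst z.unpair.2).map fun e => 2 * Tn n (e / 2) + e % 2) ++
          (dfl z).map fun p => 2 * La n p + 1) := by
      simp [Tn]
    unfold Sg Ty
    rw [e1, e2, lst_cod, lst_cod]
    simp only [List.mem_map, List.mem_append, forall_exists_index, and_imp,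
      forall_apply_eq_imp_iff₂, Nat.unpair_pair, or_imp, forall_and, Lit_mk, Lit_odd, Sg_La]
    have hz1 := Nat.unpair_left_le z
    have hz2 := Nat.unpair_right_le z
    constructor
    · rintro ⟨Y, h1, h2, h3⟩
      have h4 := (dfl_iff hM z Y).1 h3
      have h5 := h4.hat hb
      refine ⟨fun i => Y (8 * (2 * i)), fun f hf => ?_, fun e he => ?_⟩
      · have h6 := mem_lst_lt hf
        have h7 := Nat.unpair_right_le f
        show Y (8 * (2 * f.unpair.1)) = _
        rw [h1 f hf]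
        exact h _ (by omega)
      · have h6 := mem_lst_lt he
        unfold Lit
        rw [← h2 e he]
        exact (ih (e / 2) _ Y fun j hj => h5 j (by omega)).symm
    · rintro ⟨y, h1, h2⟩
      obtain ⟨Y, h3, h4⟩ := exists_ext hb y z
      refine ⟨Y, fun f hf => ?_, fun e he => ?_, (dfl_iff hM z Y).2 h3⟩
      · have h6 := mem_lst_lt hf
        have h7 := Nat.unpair_right_le f
        rw [h4, hat_var, h1 f hf]
        exact (h _ (by omega)).symm
      · rw [ih (e / 2) y Y fun j _ => h4 j]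
        exact h2 e he

/-- renaming of the parameters of a fact of positive level -/
def rnm (ρ : ℕ → ℕ) (z : ℕ) : ℕ :=
  Nat.pair (cod ((lst z.unpair.1).map fun f => Nat.pair f.unpair.1 (ρ f.unpair.2))) z.unpair.2

theorem Sg_rnm (n z : ℕ) (ρ : ℕ → ℕ) (x : ℕ → M) :
    Sg (n + 1) (fun i => x (ρ i)) z ↔ Sg (n + 1) x (rnm ρ z) := by
  have e1 : (rnm ρ z).unpair.1 =
      cod ((lst z.unpair.1).map fun f => Nat.pair f.unpair.1 (ρ f.unpair.2)) := by
    simp [rnm]
  have e2 : (rnm ρ z).unpair.2 = z.unpair.2 := by simp [rnm]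
  unfold Sg
  rw [e1, e2, lst_cod]
  simp only [List.mem_map, forall_exists_index, and_imp, forall_apply_eq_imp_iff₂, Nat.unpair_pair]

end trans

end Pool.Agent.KS6_47.SJ.JC
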