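import Pool.Agent.KS6_47.SJ.JC.P_STEPN
import Pool.Agent.KS6_47.SJ.JC.P_STEP0

/-!
Assembly of the proof from the parts.
-/

set_option autoImplicit false

open FirstOrder FirstOrder.Language Pool.Agent.KS6_47.SJ.H227.EN

namespace Pool.Agent.KS6_47.SJ.JC

open Pool.Agent.KS6_47.SJ.H578.JD Pool.Agent.KS6_47.SJ.H578.JD.Oracle Pool.Agent.KS6_47.SJ.H578.JD.Defs

/-- the facts about the model -/
theorem pack_of (hbt : S_bt) (hc1 : S_calc1) (hc2 : S_calc2) (hos : S_os) (hhat : S_ddhat)
    (hcon : S_ddcon) (hty : S_ddty) (hcompr : S_compr) (htypes : S_types) (hsat : S_sat)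
    (hskol : S_skol) (hlits : S_ddlits) (hwkl : S_wkl) (hprim : S_prim) (hdecs : S_decs)
    (M : Type) [CommSemiring M] [LinearOrder M] [IsStrictOrderedRing M] [CanonicallyOrderedAdd M]
    [LA.Structure M] (hM : NPA M) : Pack M := by
  have c1 := hc1 M hM
  have c2 := hc2 M hM hbt c1
  have d1 := hhat M hM c1 c2
  have d2 := hcon M hM c1 c2 d1
  have d3 := hty M hM c1 c2 d2
  exact
    { types := htypes M hM hcompr c1 c2 hos d3
      sat := hsat M hM c1 c2 hos d2 d3
      skol := hskol M hM c1 c2 hos d2 d3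
      decs := hdecs M (hwkl M hM c1 c2 hos hlits) hprim }

/-- the main construction -/
theorem main_of (hbt : S_bt) (hprim : S_prim) (hfi : S_fi) (hclits : S_clits) (hnames : S_names)
    (htyj : S_tyjump) (hK : S_stepK) (hinj : S_inj) (hcode : S_code)
    (M : Type) [CommSemiring M] [LinearOrder M] [IsStrictOrderedRing M] [CanonicallyOrderedAdd M]
    [LA.Structure M] (hM : NPA M) (hP : Pack M) (C : ℕ → M) (hC : Function.Surjective C)
    (A B : Set ℕ) (hA : DecIn A fun p => Dg C p = true) (hB : Enum B (SSp M)) (n : ℕ)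
    (h1 : Red B (jump^[n] A)) (h2 : Red (jump^[n + 1] A) (jump^[n + 1] B)) :
    ∃ g : ℕ → M, Function.Bijective g ∧ (DecIn B fun p => Dg g p = true) ∧
      Red B {p | Dg g p = true} := by
  obtain ⟨heq, hnm⟩ := hnames M hM hbt C hC A hA
  have hty := htyj M hM hprim C hC A hA heq hnm n
  obtain ⟨q, hq, hqT⟩ := hK M hM hprim hP C hC A B hB hA heq hnm n hty h1
  have key : ∀ m, m ≤ n → ∃ (C : ℕ → M) (q : ℕ → ℕ), Function.Surjective C ∧
      CompIn (jump^[n - m + 1] B) q ∧ ∀ k, IsT (n - m + 1) k C (Rw B (q k)) := by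
    intro m
    induction m with
    | zero => intro _; exact ⟨C, q, hC, hq.mono h2, hqT⟩
    | succ m ih =>
      intro hm
      have e : n - m = n - (m + 1) + 1 := by omega
      have h3 := ih (by omega)
      rw [e] at h3
      exact StepN.prf_stepN M hM hprim hP hfi hclits B hB (n - (m + 1)) h3
  have h3 := key n le_rfl
  rw [Nat.sub_self] at h3
  exact hcode M hM B (hinj M hM B (Step0.prf_step0 M hM hprim hP hfi hclits B hB h3))

/-- the atomic diagram of a copy is the atomic diagram of the isomorphism -/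
theorem Dg_equiv (M : Type) [LA.Structure M] (A : LA.Structure ℕ)
    (e : @FirstOrder.Language.Equiv LA ℕ M A _) : Dg (fun i => e i) = diag A := by
  funext z
  have hb : ∀ b c : Bool, (b = true ↔ c = true) → b = c := by
    intro b c; cases b <;> cases c <;> simp
  apply hb
  have hinj : Function.Injective fun i : ℕ => e i := e.toEquiv.injective
  have v2 : ∀ i j : ℕ, (fun k => e ((![i, j] : Fin 2 → ℕ) k)) = ![e i, e j] := by
    intro i j; funext k; fin_cases k <;> rfl
  have v0 : (fun k => e ((![] : Fin 0 → ℕ) k)) = ![] := by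
    funext k; exact k.elim0
  have key2 : ∀ (f : LA.Functions 2) (i j l : ℕ),
      Structure.funMap f ![e i, e j] = e l ↔ @Structure.funMap LA ℕ A 2 f ![i, j] = l := by
    intro f i j l
    rw [← v2]
    have := e.map_fun' f ![i, j]
    have h2 : e (@Structure.funMap LA ℕ A 2 f ![i, j]) =
      Structure.funMap f (fun k => e ((![i, j] : Fin 2 → ℕ) k)) := this
    rw [← h2]
    exact hinj.eq_iff
  have key0 : ∀ (f : LA.Functions 0) (l : ℕ),
      Structure.funMap f ![] = e l ↔ @Structure.funMap LA ℕ A 0 f ![] = l := by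
    intro f l
    rw [← v0]
    have := e.map_fun' f ![]
    have h2 : e (@Structure.funMap LA ℕ A 0 f ![]) =
      Structure.funMap f (fun k => e ((![] : Fin 0 → ℕ) k)) := this
    rw [← h2]
    exact hinj.eq_iff
  have keyr : ∀ (f : LA.Relations 2) (i j : ℕ),
      Structure.RelMap f ![e i, e j] ↔ @Structure.RelMap LA ℕ A 2 f ![i, j] := by
    intro f i j
    rw [← v2]
    exact e.map_rel' f ![i, j]
  unfold diag Dg
  simp only [id]
  split_ifs <;> simp only [decide_eq_true_eq]
  · exact key2 _ _ _ _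
  · exact key2 _ _ _ _
  · exact keyr _ _ _
  · exact key0 _ _
  · exact key0 _ _

/-- `d` is the degree of a copy of `M`: some structure with universe `ℕ` isomorphic to `M` has an
atomic diagram of degree `d`. -/
def IsCopyDeg (M : Type) [LA.Structure M] (d : TuringDegree) : Prop :=
  ∃ A : LA.Structure ℕ, Nonempty (@FirstOrder.Language.Equiv LA ℕ M A _) ∧
    deg {p | diag A p = true} = d

/-- `d` is the degree of an enumeration of the standard system of `M`. -/
def IsEnumDeg (M : Type) [LA.Structure M] (d : TuringDegree) : Prop :=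
  ∃ R : Set ℕ, Enum R (SS M) ∧ deg R = d

/-- The `n`-th jumps of the degrees `a` and `b` are equal. -/
def SameJump (n : ℕ) (a b : TuringDegree) : Prop :=
  ∃ A B : Set ℕ, deg A = a ∧ deg B = b ∧ deg (jump^[n] A) = deg (jump^[n] B)

theorem deg_eq {A B : Set ℕ} : deg A = deg B ↔ Red A B ∧ Red B A := by
  unfold deg
  exact Quotient.eq

theorem final_of (hpack : ∀ (M : Type) [CommSemiring M] [LinearOrder M] [IsStrictOrderedRing M]
      [CanonicallyOrderedAdd M] [LA.Structure M], NPA M → Pack M)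
    (hmain : ∀ (M : Type) [CommSemiring M] [LinearOrder M] [IsStrictOrderedRing M]
      [CanonicallyOrderedAdd M]
      [LA.Structure M] (_ : NPA M) (_ : Pack M) (C : ℕ → M) (_ : Function.Surjective C)
      (A B : Set ℕ) (_ : DecIn A fun p => Dg C p = true) (_ : Enum B (SSp M)) (n : ℕ)
      (_ : Red B (jump^[n] A)) (_ : Red (jump^[n + 1] A) (jump^[n + 1] B)),
      ∃ g : ℕ → M, Function.Bijective g ∧ (DecIn B fun p => Dg g p = true) ∧
        Red B {p | Dg g p = true})
    (hstr : S_str) (hnpa : S_npa)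
    (M : Type) [LA.Structure M] (hPA : M ⊨ PA)
    (hns : ¬ Nonempty (@FirstOrder.Language.Equiv LA M ℕ _ stdStr)) (a b : TuringDegree)
    (hb : IsEnumDeg M b) (hc : IsCopyDeg M a) :
    (∀ n, SameJump n a b → IsCopyDeg M b) ∧
    (∀ (n : ℕ) (A B : Set ℕ), deg A = a → deg B = b → Red B (jump^[n] A) →
      Red (jump^[n + 1] A) (jump^[n + 1] B) → IsCopyDeg M b) := by
  have key : ∀ (n : ℕ) (A B : Set ℕ), deg A = a → deg B = b → Red B (jump^[n] A) →
      Red (jump^[n + 1] A) (jump^[n + 1] B) → IsCopyDeg M b := by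
    intro n A B hA hB h1 h2
    obtain ⟨i1, i2, i3, i4, hM, hSS⟩ := hnpa M hPA hns
    obtain ⟨A0, ⟨e⟩, hA0⟩ := hc
    obtain ⟨R, hR, hRb⟩ := hb
    rw [hSS] at hR
    have e1 := deg_eq.1 (hA0.trans hA.symm)
    have e2 := deg_eq.1 (hRb.trans hB.symm)
    have hAD : DecIn A fun p => Dg (fun i => e i) p = true := by
      rw [Dg_equiv M A0 e]
      exact DecIn.of_red e1.1
    obtain ⟨g, hg, hgD, hgR⟩ := hmain M hM (hpack M hM) (fun i => e i) e.toEquiv.surjective A R hAD hR n
      (Red.trans e2.1 h1) (Red.trans h2 (red_jump_iter_mono e2.2 (n + 1)))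
    obtain ⟨A1, hA1, hA1D⟩ := hstr M g hg
    refine ⟨A1, hA1, ?_⟩
    rw [← hRb, deg_eq, hA1D]
    exact ⟨Red_iff.2 hgD, hgR⟩
  refine ⟨fun n hj => ?_, key⟩
  obtain ⟨A, B, hA, hB, hAB⟩ := hj
  obtain ⟨h1, h2⟩ := deg_eq.1 hAB
  refine key n A B hA hB (Red.trans (red_self_jump_iter B n) h2) ?_
  rw [Function.iterate_succ_apply', Function.iterate_succ_apply']
  exact red_jump_mono h1

end Pool.Agent.KS6_47.SJ.JC
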