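import Pool.Agent.KS6_47.SJ.JC.Stmts
import Pool.Agent.KS6_47.SJ.H227.ENJ.P_dfn_beta
import Pool.Agent.KS6_47.SJ.H227.ENJ.P_dfn_ex
import Pool.Agent.KS6_47.SJ.H227.ENJ.P_dfn_subst
import Pool.Agent.KS6_47.SJ.H227.ENJ.P_beta_unique

/-!
# BT: the beta function is total
-/

set_option autoImplicit false

open FirstOrder FirstOrder.Language Pool.Agent.KS6_47.SJ.H227.EN

namespace Pool.Agent.KS6_47.SJ.JC

/-- division with remainder by induction -/
theorem BT_exists (hind : S_ind) (M : Type) [CommSemiring M] [LinearOrder M]
    [IsStrictOrderedRing M] [CanonicallyOrderedAdd M] [LA.Structure M] (hM : NPA M) (a c i : M) :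
    ∃ v, Beta a c i v := by
  have hdisc : ∀ x y : M, x < y → x + 1 ≤ y := by
    intro x y hxy
    obtain ⟨d, rfl⟩ := le_iff_exists_add.mp hxy.le
    have hd1 : 1 ≤ d := by
      by_contra hlt
      push Not at hlt
      have := hM.compat.disc d hlt
      rw [this, add_zero] at hxy
      exact lt_irrefl _ hxy
    exact add_le_add_right hd1 x
  have hD : Dfn (fun x : ℕ → M => ∃ v, Beta (x 0) (x 1) (x 2) v) :=
    dfn_ex (fun x v => Beta (x 0) (x 1) (x 2) v) 3 (fun x y v => by
      rw [Function.update_of_ne (by norm_num), Function.update_of_ne (by norm_num),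
        Function.update_of_ne (by norm_num)]) (dfn_beta hM.compat)
  have h := hind M hM _ hD (fun j => if j = 1 then c else i) 0 ?_ ?_ a
  · have e0 : Function.update (fun j : ℕ => if j = 1 then c else i) 0 a 0 = a :=
      Function.update_self _ _ _
    have e1 : Function.update (fun j : ℕ => if j = 1 then c else i) 0 a 1 = c := by
      rw [Function.update_of_ne (by norm_num)]; rfl
    have e2 : Function.update (fun j : ℕ => if j = 1 then c else i) 0 a 2 = i := by
      rw [Function.update_of_ne (by norm_num)]; rfl
    rw [e0, e1, e2] at h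
    exact h
  · have e1 : Function.update (fun j : ℕ => if j = 1 then c else i) 0 0 1 = c := by
      rw [Function.update_of_ne (by norm_num)]; rfl
    have e2 : Function.update (fun j : ℕ => if j = 1 then c else i) 0 0 2 = i := by
      rw [Function.update_of_ne (by norm_num)]; rfl
    rw [Function.update_self, e1, e2]
    refine ⟨0, ?_, 0, by simp⟩
    have h1 : (0 : M) < 1 := zero_lt_one
    exact lt_of_lt_of_le h1 (le_add_of_nonneg_right zero_le)
  · intro y hy
    have e1 : ∀ y : M, Function.update (fun j : ℕ => if j = 1 then c else i) 0 y 1 = c := by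
      intro y
      rw [Function.update_of_ne (by norm_num)]; rfl
    have e2 : ∀ y : M, Function.update (fun j : ℕ => if j = 1 then c else i) 0 y 2 = i := by
      intro y
      rw [Function.update_of_ne (by norm_num)]; rfl
    rw [Function.update_self, e1, e2] at hy ⊢
    obtain ⟨v, hv, q, hq⟩ := hy
    rcases lt_or_eq_of_le (hdisc _ _ hv) with hlt | heq
    · exact ⟨v + 1, hlt, q, by rw [hq]; ring⟩
    · refine ⟨0, ?_, q + 1, ?_⟩
      · have h1 : (0 : M) < 1 := zero_lt_one
        exact lt_of_lt_of_le h1 (le_add_of_nonneg_right zero_le)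
      · rw [hq, add_assoc, heq]
        ring

theorem prf_bt (hind : S_ind) : S_bt := by
  intro M _ _ _ _ _ hM a c i v
  have hex : ∃ v, Beta a c (i : M) v := BT_exists hind M hM a c i
  unfold bt
  rw [dif_pos hex]
  constructor
  · intro hv
    exact beta_unique hM.compat.disc a c i v _ hv hex.choose_spec
  · rintro rfl
    exact hex.choose_spec

end Pool.Agent.KS6_47.SJ.JC
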