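import Pool.Agent.KS6_47.SJ.JC.MixL
import Pool.Agent.KS6_47.SJ.H227.ENJ.P_dfn_beta
import Pool.Agent.KS6_47.SJ.H227.ENJ.P_beta_exists
import Pool.Agent.KS6_47.SJ.H227.ENJ.P_repF_comp2
import Pool.Agent.KS6_47.SJ.H227.ENJ.P_repF_primrec

/-!
# CALC2: representable functions
-/

set_option autoImplicit false

open FirstOrder FirstOrder.Language Pool.Agent.KS6_47.SJ.H227.EN

namespace Pool.Agent.KS6_47.SJ.JC

/-! ### the sequence of the primes is primitive recursive -/

theorem CALC2_prime : PrimrecPred Nat.Prime := by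
  have h1 : PrimrecRel (fun m n : ℕ => ¬ (2 ≤ m ∧ n % m = 0)) := by
    refine PrimrecPred.not (PrimrecPred.and ?_ ?_)
    · exact Primrec.nat_le.comp (Primrec.const 2) Primrec.fst
    · exact Primrec.eq.comp (Primrec.nat_mod.comp Primrec.snd Primrec.fst) (Primrec.const 0)
  have h2 : PrimrecPred (fun n : ℕ => 2 ≤ n ∧ ∀ m < n, ¬ (2 ≤ m ∧ n % m = 0)) := by
    refine PrimrecPred.and ?_ ?_
    · exact Primrec.nat_le.comp (Primrec.const 2) Primrec.id
    · exact h1.forall_lt.comp Primrec.id Primrec.id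
  refine h2.of_eq fun n => ?_
  rw [Nat.prime_def_lt']
  constructor
  · rintro ⟨h3, h4⟩
    exact ⟨h3, fun m hm hmn hd => h4 m hmn ⟨hm, Nat.mod_eq_zero_of_dvd hd⟩⟩
  · rintro ⟨h3, h4⟩
    exact ⟨h3, fun m hm hd => h4 m hd.1 hm (Nat.dvd_of_mod_eq_zero hd.2)⟩

theorem CALC2_count : Primrec (fun n => Nat.count Nat.Prime n) := by
  have h1 : Primrec₂ (fun (n c : ℕ) => c + if Nat.Prime n then 1 else 0) := by
    refine Primrec.nat_add.comp Primrec.snd ?_
    exact Primrec.ite (CALC2_prime.comp Primrec.fst) (Primrec.const 1) (Primrec.const 0)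
  refine (Primrec.nat_rec₁ 0 h1).of_eq fun n => ?_
  induction n with
  | zero => simp
  | succ n ih =>
    rw [Nat.count_succ, ← ih]

theorem CALC2_nth : Primrec (fun n => Nat.nth Nat.Prime n) := by
  refine Primrec.of_graph ?_ ?_
  · refine ⟨fun n => 2 ^ (n + 1), ?_, fun n => ?_⟩
    · have h1 : Primrec₂ (fun (_ c : ℕ) => 2 * c) :=
        Primrec.nat_mul.comp (Primrec.const 2) Primrec.snd
      refine (Primrec.nat_rec₁ 2 h1).of_eq fun n => ?_
      induction n with
      | zero => simp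
      | succ n ih =>
        show 2 * _ = _
        rw [ih]
        ring
    · show Nat.nth Nat.Prime n ≤ 2 ^ (n + 1)
      induction n with
      | zero => simp [Nat.nth_prime_zero_eq_two]
      | succ n ih =>
        have hp := Nat.prime_nth_prime n
        obtain ⟨p, hp1, hp2, hp3⟩ := Nat.exists_prime_lt_and_le_two_mul (Nat.nth Nat.Prime n)
          hp.ne_zero
        have h1 : Nat.nth Nat.Prime (n + 1) ≤ p := by
          have h2 : Nat.nth Nat.Prime (Nat.count Nat.Prime p) = p := Nat.nth_count hp1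
          rw [← h2]
          rw [Nat.nth_le_nth Nat.infinite_setOfPred_prime]
          have h3 : Nat.count Nat.Prime (Nat.nth Nat.Prime n + 1) ≤ Nat.count Nat.Prime p :=
            Nat.count_monotone _ hp2
          have h4 : Nat.count Nat.Prime (Nat.nth Nat.Prime n + 1) = n + 1 := by
            rw [Nat.count_succ, Nat.count_nth_of_infinite Nat.infinite_setOfPred_prime, if_pos hp]
          omega
        calc Nat.nth Nat.Prime (n + 1) ≤ p := h1
          _ ≤ 2 * Nat.nth Nat.Prime n := hp3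
          _ ≤ 2 * 2 ^ (n + 1) := Nat.mul_le_mul_left 2 ih
          _ = 2 ^ (n + 1 + 1) := by ring
  · have h1 : PrimrecRel (fun a b : ℕ => Nat.Prime b ∧ Nat.count Nat.Prime b = a) := by
      refine PrimrecPred.and (CALC2_prime.comp Primrec.snd) ?_
      exact Primrec.eq.comp (CALC2_count.comp Primrec.snd) Primrec.fst
    refine PrimrecRel.of_eq h1 fun a b => ?_
    constructor
    · rintro ⟨hb, rfl⟩
      exact Nat.nth_count hb
    · rintro rfl
      exact ⟨Nat.prime_nth_prime a, Nat.count_nth_of_infinite Nat.infinite_setOfPred_prime a⟩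

/-! ### definability -/

/-- existential quantifier with a fresh coordinate -/
theorem CALC2_cons {M : Type} [CommSemiring M] [LinearOrder M] [LA.Structure M]
    (hc : Compat M) {W : (ℕ → M) → Prop} (h : Dfn W) :
    Dfn (fun z : ℕ → M => ∃ y, W (fun i => if i = 0 then y else z (i - 1))) := by
  have h1 := mix_dfn_proj hc (mix_dfn_ex h 0) (fun i => i - 1)
  have h2 : (fun z : ℕ → M => ∃ y, W (Function.update (fun i => z (i - 1)) 0 y)) =
      (fun z : ℕ → M => ∃ y, W (fun i => if i = 0 then y else z (i - 1))) := by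
    funext z
    have : ∀ y, Function.update (fun i => z (i - 1)) 0 y =
        (fun i => if i = 0 then y else z (i - 1)) := by
      intro y
      funext i
      by_cases hi : i = 0
      · subst hi
        rw [Function.update_self, if_pos rfl]
      · rw [Function.update_of_ne hi, if_neg hi]
    simp only [this]
  rw [← h2]
  exact h1

theorem CALC2_ex2 {M : Type} [CommSemiring M] [LinearOrder M] [LA.Structure M]
    (hc : Compat M) {R S : (ℕ → M) → Prop} (hR : Dfn R) (hS : Dfn S) (a b : ℕ) :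
    Dfn (fun z : ℕ → M => ∃ y, R (Function.update z a y) ∧ S (Function.update z b y)) := by
  have hR' := mix_dfn_proj hc hR (fun i => if i = a then 0 else i + 1)
  have hS' := mix_dfn_proj hc hS (fun i => if i = b then 0 else i + 1)
  have h := CALC2_cons hc (dfn_bool.2.2.1 _ _ hR' hS')
  have key : ∀ (c : ℕ) (y : M) (z : ℕ → M),
      (fun i => (fun i => if i = 0 then y else z (i - 1)) (if i = c then 0 else i + 1)) =
        Function.update z c y := by
    intro c y z
    funext i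
    by_cases hi : i = c
    · subst hi
      simp
    · rw [Function.update_of_ne hi]
      simp [hi]
  have h2 : (fun z : ℕ → M => ∃ y, R (Function.update z a y) ∧ S (Function.update z b y)) =
      (fun z : ℕ → M => ∃ y,
        R (fun i => (fun i => if i = 0 then y else z (i - 1)) (if i = a then 0 else i + 1)) ∧
        S (fun i => (fun i => if i = 0 then y else z (i - 1)) (if i = b then 0 else i + 1))) := by
    funext z
    simp only [key]
  rw [h2]
  exact h

theorem CALC2_subst {M : Type} [CommSemiring M] [LinearOrder M] [LA.Structure M]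
    (hc : Compat M) (Q : (ℕ → M) → (ℕ → ℕ) → ℕ → Prop) (k : ℕ)
    (hQ : ∀ x ν i v, Q x (Function.update ν k v) i ↔ Q x ν i)
    (h : DD (fun x ν => Q x ν (ν k))) (f : (ℕ → ℕ) → ℕ) (hf : RF M f) :
    DD fun x ν => Q x ν (f ν) := by
  obtain ⟨R, hR, hRQ0⟩ := h
  have hRQ : ∀ x ν, R (mix x ν) ↔ Q x ν (ν k) := hRQ0
  obtain ⟨F, hF, hFf0⟩ := hf
  have hFf : ∀ (x : ℕ → M) ν, F (mix x ν) ↔ x 0 = (f ν : M) := hFf0
  refine ⟨_, CALC2_ex2 hc hF hR 0 (2 * k + 1), fun x ν => ?_⟩
  have e0 : ∀ y : M, F (Function.update (mix x ν) 0 y) ↔ y = (f ν : M) := by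
    intro y
    have := mix_upd_even x ν 0 y
    rw [mul_zero] at this
    rw [this, hFf, Function.update_self]
  constructor
  · rintro ⟨y, hy1, hy2⟩
    rw [e0] at hy1
    subst hy1
    rw [mix_upd_odd, hRQ, hQ, Function.update_self] at hy2
    exact hy2
  · intro hQf
    refine ⟨(f ν : M), (e0 _).2 rfl, ?_⟩
    rw [mix_upd_odd, hRQ, hQ, Function.update_self]
    exact hQf

theorem CALC2_eqN {M : Type} [CommSemiring M] [LinearOrder M] [LA.Structure M]
    (C1 : Calc1 M) (i : ℕ) (f : (ℕ → ℕ) → ℕ) (hf : RF M f) :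
    DD (M := M) fun x ν => x i = (f ν : M) := by
  have h := C1.ren (fun j => if j = 0 then i else j) (fun j => j) hf
  simpa using h

theorem CALC2_prim {M : Type} [CommSemiring M] [LinearOrder M] [IsStrictOrderedRing M]
    [CanonicallyOrderedAdd M] [LA.Structure M] (hc : Compat M) (C1 : Calc1 M) (g : ℕ → ℕ)
    (hg : Primrec g) (f : (ℕ → ℕ) → ℕ) (hf : RF M f) : RF M fun ν => g (f ν) := by
  obtain ⟨G, hG, hGg⟩ := repF_primrec hc g (Primrec.nat_iff.1 hg)
  have hGD : DD (M := M) fun x _ => G (x 1) (x 0) := by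
    refine ⟨_, mix_dfn_proj hc hG (fun i => if i = 0 then 2 else 0), fun x ν => ?_⟩
    show G (mix x ν 2) (mix x ν 0) ↔ _
    have e1 := mix_even x ν 1
    have e0 := mix_even x ν 0
    rw [mul_one] at e1
    rw [mul_zero] at e0
    rw [e1, e0]
  have h1 : DD (M := M) fun x ν => x 1 = (f ν : M) ∧ G (x 1) (x 0) :=
    C1.and (CALC2_eqN C1 1 f hf) hGD
  have h2 := C1.exM (fun x ν y => y = (f ν : M) ∧ G y (x 0)) 1 (fun x ν y v => by
    rw [Function.update_of_ne (by norm_num)]) h1
  unfold RF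
  have h3 : (fun (x : ℕ → M) (ν : ℕ → ℕ) => x 0 = ((g (f ν) : ℕ) : M)) =
      fun x ν => ∃ y, y = (f ν : M) ∧ G y (x 0) := by
    funext x ν
    rw [eq_iff_iff, ← hGg (f ν) (x 0)]
    constructor
    · intro h
      exact ⟨_, rfl, h⟩
    · rintro ⟨y, rfl, h⟩
      exact h
  rw [h3]
  exact h2

theorem CALC2_prim2 {M : Type} [CommSemiring M] [LinearOrder M] [IsStrictOrderedRing M]
    [CanonicallyOrderedAdd M] [LA.Structure M] (hc : Compat M) (C1 : Calc1 M) (g : ℕ → ℕ → ℕ)
    (hg : Primrec₂ g) (f f' : (ℕ → ℕ) → ℕ) (hf : RF M f) (hf' : RF M f') :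
    RF M fun ν => g (f ν) (f' ν) := by
  obtain ⟨G, hG, hGg⟩ := repF_comp2 hc g hg
  have hGD : DD (M := M) fun x _ => G (x 1) (x 2) (x 0) := by
    refine ⟨_, mix_dfn_proj hc hG (fun i => if i = 0 then 2 else if i = 1 then 4 else 0),
      fun x ν => ?_⟩
    show G (mix x ν 2) (mix x ν 4) (mix x ν 0) ↔ _
    have e2 := mix_even x ν 2
    have e1 := mix_even x ν 1
    have e0 := mix_even x ν 0
    norm_num at e0 e1 e2
    rw [e2, e1, e0]
  have h1 : DD (M := M) fun x ν => x 2 = (f' ν : M) ∧ (x 1 = (f ν : M) ∧ G (x 1) (x 2) (x 0)) :=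
    C1.and (CALC2_eqN C1 2 f' hf') (C1.and (CALC2_eqN C1 1 f hf) hGD)
  have h2 := C1.exM (fun x ν y => y = (f' ν : M) ∧ (x 1 = (f ν : M) ∧ G (x 1) y (x 0))) 2
    (fun x ν y v => by
      rw [Function.update_of_ne (by norm_num), Function.update_of_ne (by norm_num)]) h1
  have h3 := C1.exM (fun x ν y' => ∃ y, y = (f' ν : M) ∧ (y' = (f ν : M) ∧ G y' y (x 0))) 1
    (fun x ν y v => by
      rw [Function.update_of_ne (by norm_num)]) h2
  unfold RF
  have h4 : (fun (x : ℕ → M) (ν : ℕ → ℕ) => x 0 = ((g (f ν) (f' ν) : ℕ) : M)) =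
      fun x ν => ∃ y', ∃ y, y = (f' ν : M) ∧ (y' = (f ν : M) ∧ G y' y (x 0)) := by
    funext x ν
    rw [eq_iff_iff, ← hGg (f ν) (f' ν) (x 0)]
    constructor
    · intro h
      exact ⟨_, _, rfl, rfl, h⟩
    · rintro ⟨y', y, rfl, rfl, h⟩
      exact h
  rw [h4]
  exact h3

theorem prf_calc2 : S_calc2 := by
  intro M _ _ _ _ _ hM hbt C1
  have hc := hM.compat
  obtain ⟨tv, tn, ta, tm, te, tl, -⟩ := trm_ops hc
  have hvar : ∀ i, RF M fun ν => ν i := by
    intro i
    refine ⟨fun z => z 0 = z (2 * i + 1), te _ _ (tv _) (tv _), fun x ν => ?_⟩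
    show mix x ν 0 = mix x ν (2 * i + 1) ↔ _
    have e0 := mix_even x ν 0
    rw [mul_zero] at e0
    rw [e0, mix_odd]
  have hconst : ∀ n, RF M fun _ => n := by
    intro n
    refine ⟨fun z => z 0 = (n : M), te _ _ (tv _) (tn n), fun x ν => ?_⟩
    show mix x ν 0 = (n : M) ↔ _
    have e0 := mix_even x ν 0
    rw [mul_zero] at e0
    rw [e0]
  refine
    { var := hvar
      const := hconst
      prim := fun g hg f hf => CALC2_prim hc C1 g hg f hf
      prim2 := fun g hg f f' hf hf' => CALC2_prim2 hc C1 g hg f f' hf hf'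
      eqN := fun i f hf => CALC2_eqN C1 i f hf
      subst := fun Q k hQ h f hf => CALC2_subst hc Q k hQ h f hf
      rel := ?_
      btD := ?_
      dvd := ?_
      beta := fun a c i v => hbt M hM a c i v
      code := ?_ }
  · rintro P ⟨g, hg, hP⟩ f hf
    have hg' : Primrec (fun n => if g n = true then 1 else 0) :=
      Primrec.ite (Primrec.eq.comp hg (Primrec.const true)) (Primrec.const 1) (Primrec.const 0)
    have h1 := CALC2_prim hc C1 _ hg' f hf
    have h2 := C1.exM (fun _ ν y => y = (((if g (f ν) = true then 1 else 0 : ℕ) : ℕ) : M) ∧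
      y = ((1 : ℕ) : M)) 0 (fun x ν y v => Iff.rfl) (C1.and h1 (hconst 1))
    have h3 : (fun (_ : ℕ → M) (ν : ℕ → ℕ) => P (f ν)) = fun _ ν =>
        ∃ y, y = (((if g (f ν) = true then 1 else 0 : ℕ) : ℕ) : M) ∧ y = ((1 : ℕ) : M) := by
      funext x ν
      rw [eq_iff_iff, hP]
      by_cases hgf : g (f ν) = true
      · simp [hgf]
      · simp [hgf]
    rw [h3]
    exact h2
  · refine ⟨_, mix_dfn_proj hc (dfn_beta hc)
      (fun i => if i = 0 then 0 else if i = 1 then 2 else if i = 2 then 1 else 4), fun x ν => ?_⟩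
    show Beta (mix x ν 0) (mix x ν 2) (mix x ν 1) (mix x ν 4) ↔ _
    have e0 := mix_even x ν 0
    have e1 := mix_even x ν 1
    have e2 := mix_even x ν 2
    have e3 := mix_odd x ν 0
    norm_num at e0 e1 e2 e3
    rw [e0, e1, e2, e3]
    exact hbt M hM _ _ _ _
  · have h1 : RF M fun ν => Nat.nth Nat.Prime (ν 0) :=
      CALC2_prim hc C1 _ CALC2_nth _ (hvar 0)
    have hdD : Dfn (fun z : ℕ → M => z 0 = z 2 * z 4) :=
      te _ _ (tv 0) (tm _ _ (tv 2) (tv 4))
    have h2 : DD (M := M) fun x _ => x 0 = x 1 * x 2 := by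
      refine ⟨_, hdD, fun x ν => ?_⟩
      show mix x ν 0 = mix x ν 2 * mix x ν 4 ↔ _
      have e0 := mix_even x ν 0
      have e1 := mix_even x ν 1
      have e2 := mix_even x ν 2
      norm_num at e0 e1 e2
      rw [e0, e1, e2]
    have h3 := C1.exM (fun x _ y => x 0 = x 1 * y) 2 (fun x ν y v => by
      rw [Function.update_of_ne (by norm_num), Function.update_of_ne (by norm_num)]) h2
    have h4 := C1.exM (fun x ν y => y = ((Nat.nth Nat.Prime (ν 0) : ℕ) : M) ∧ ∃ d, x 0 = y * d) 1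
      (fun x ν y v => by rw [Function.update_of_ne (by norm_num)])
      (C1.and (CALC2_eqN C1 1 _ h1) h3)
    have h5 : (fun (x : ℕ → M) (ν : ℕ → ℕ) => ((Nat.nth Nat.Prime (ν 0) : ℕ) : M) ∣ x 0) =
        fun x ν => ∃ y, y = ((Nat.nth Nat.Prime (ν 0) : ℕ) : M) ∧ ∃ d, x 0 = y * d := by
      funext x ν
      rw [eq_iff_iff]
      constructor
      · rintro ⟨d, hd⟩
        exact ⟨_, rfl, d, hd⟩
      · rintro ⟨y, rfl, d, hd⟩
        exact ⟨d, hd⟩
    rw [h5]
    exact h4
  · intro k x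
    obtain ⟨a, c, h⟩ := beta_exists hc.disc k x
    exact ⟨a, c, fun i hi => ((hbt M hM a c i (x i)).1 (h i hi)).symm⟩

end Pool.Agent.KS6_47.SJ.JC
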