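import Pool.Agent.KS6_47.SJ.JC.Stmts

/-!
# IND: induction for definable predicates with parameters
-/

set_option autoImplicit false

open FirstOrder FirstOrder.Language Pool.Agent.KS6_47.SJ.H227.EN

namespace Pool.Agent.KS6_47.SJ.JC

/-- a definable predicate as a formula with one distinguished variable and finitely many
parameters -/
theorem IND_form {M : Type} [LA.Structure M] (R : (ℕ → M) → Prop) (hR : Dfn R) (k : ℕ) :
    ∃ (n : ℕ) (ψ : LA.BoundedFormula (Empty ⊕ Fin n) 1), ∀ (x : ℕ → M) (v : M),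
      ψ.Realize (Sum.elim default (fun i : Fin n => x i)) (fun _ => v) ↔
        R (Function.update x k v) := by
  classical
  obtain ⟨φ, hφ⟩ := hR
  obtain ⟨n, hn⟩ : ∃ n : ℕ, ∀ i ∈ φ.freeVarFinset, i < n := by
    refine ⟨φ.freeVarFinset.sup id + 1, fun i hi => ?_⟩
    have : id i ≤ φ.freeVarFinset.sup id := Finset.le_sup hi
    simp only [id_eq] at this
    omega
  let g : φ.freeVarFinset → (Empty ⊕ Fin n) ⊕ Fin 1 := fun i =>
    if (i : ℕ) = k then Sum.inr 0 else Sum.inl (Sum.inr ⟨i, hn i i.2⟩)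
  let φ' : LA.BoundedFormula ((Empty ⊕ Fin n) ⊕ Fin 1) 0 := BoundedFormula.restrictFreeVar φ g
  let ψ : LA.BoundedFormula (Empty ⊕ Fin n) 1 := BoundedFormula.relabel (n := 1) id φ'
  refine ⟨n, ψ, fun x v => ?_⟩
  have h1 : ψ.Realize (Sum.elim default (fun i : Fin n => x i)) (fun _ => v) ↔
      φ'.Realize (Sum.elim (Sum.elim default (fun i : Fin n => x i)) ((fun _ : Fin (1 + 0) => v) ∘
        Fin.castAdd 0) ∘ id) ((fun _ : Fin (1 + 0) => v) ∘ Fin.natAdd 1) :=
    BoundedFormula.realize_relabel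
  rw [h1]
  have h2 : φ'.Realize (Sum.elim (Sum.elim default (fun i : Fin n => x i))
        ((fun _ : Fin (1 + 0) => v) ∘ Fin.castAdd 0) ∘ id)
        ((fun _ : Fin (1 + 0) => v) ∘ Fin.natAdd 1) ↔
      BoundedFormula.Realize φ (Function.update x k v)
        ((fun _ : Fin (1 + 0) => v) ∘ Fin.natAdd 1) := by
    refine BoundedFormula.realize_restrictFreeVar (Function.update x k v) fun a => ?_
    by_cases ha : (a : ℕ) = k
    · have e : g a = Sum.inr 0 := if_pos ha
      rw [Function.comp_apply, id_eq, e, ha, Function.update_self]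
      rfl
    · have e : g a = Sum.inl (Sum.inr ⟨a, hn a a.2⟩) := if_neg ha
      rw [Function.comp_apply, id_eq, e, Function.update_of_ne ha]
      rfl
  rw [h2, ← hφ]
  unfold Formula.Realize
  have h3 : ((fun _ : Fin (1 + 0) => v) ∘ Fin.natAdd 1 : Fin 0 → M) = default := by
    funext i
    exact i.elim0
  rw [h3]

theorem prf_ind : S_ind := by
  intro M _ _ _ _ _ hM R hR x k h0 hs y
  obtain ⟨n, ψ, hψ⟩ := IND_form R hR k
  have hmem : indAx ψ ∈ PA := Or.inr ⟨n, ψ, rfl⟩
  have hpa := hM.pa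
  have hax : M ⊨ indAx ψ := Theory.realize_sentence_of_mem PA hmem
  have h1 := (realize_indAx ψ (0 : M) 1 hM.compat.zero.symm hM.compat.one.symm).1 hax
    (fun i : Fin n => x i) ((hψ x 0).2 h0) (fun v hv => by
      rw [hM.compat.add]
      exact (hψ x (v + 1)).2 (hs v ((hψ x v).1 hv))) y
  exact (hψ x y).1 h1

end Pool.Agent.KS6_47.SJ.JC
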