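import Pool.Agent.KS6_47.SJ.JC.Stmts
import Pool.Agent.KS6_47.SJ.H227.ENJ.P_std_below

/-!
Task WKL: closed classes with parameters in the standard system.
-/

set_option autoImplicit false

open FirstOrder FirstOrder.Language Pool.Agent.KS6_47.SJ.H227.EN

namespace Pool.Agent.KS6_47.SJ.JC

open Pool.Agent.KS6_47.SJ.H578.JD Pool.Agent.KS6_47.SJ.H578.JD.Oracle Pool.Agent.KS6_47.SJ.H578.JD.Defs

/-- the conditions: `x 0` is the unknown, `x 2` the parameter, `x (3 + l)` the sets -/
def WKL_Q {M : Type} [CommSemiring M] [LinearOrder M] (k s len : ℕ) (h : ℕ → ℕ → ℕ → ℕ)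
    (x : ℕ → M) (ν : ℕ → ℕ) : Prop :=
  ∀ l < len, h l (cod (lits (Xc (x 0)) (ν 0) k)) (cod (lits (Xc (x 2)) (ν 0) s)) ∈ Xc (x (3 + l))

theorem WKL_dd {M : Type} [CommSemiring M] [LinearOrder M] [LA.Structure M]
    (C1 : Calc1 M) (k s len : ℕ) (h : ℕ → ℕ → ℕ → ℕ) (hh : ∀ l, Primrec₂ (h l))
    (hd : ∀ (g : ℕ → ℕ → ℕ), Primrec₂ g →
      DD (M := M) fun x ν => g (cod (lits (Xc (x 0)) (ν 0) k)) (cod (lits (Xc (x 2)) (ν 0) s)) ∈
        Xc (x 3)) :
    DD (M := M) (WKL_Q k s len h) := by
  induction len with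
  | zero =>
    have h1 : (WKL_Q (M := M) k s 0 h) = fun _ _ => True := by
      funext x ν
      simp [WKL_Q]
    rw [h1]
    exact C1.const True
  | succ len ih =>
    have h1 : (WKL_Q (M := M) k s (len + 1) h) = fun x ν => WKL_Q k s len h x ν ∧
        h len (cod (lits (Xc (x 0)) (ν 0) k)) (cod (lits (Xc (x 2)) (ν 0) s)) ∈
          Xc (x (3 + len)) := by
      funext x ν
      apply propext
      constructor
      · intro h2
        exact ⟨fun l hl => h2 l (Nat.lt_succ_of_lt hl), h2 len (Nat.lt_succ_self len)⟩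
      · rintro ⟨h2, h3⟩ l hl
        rcases Nat.lt_succ_iff_lt_or_eq.1 hl with h4 | h4
        · exact h2 l h4
        · subst h4; exact h3
    rw [h1]
    exact C1.and ih (C1.ren (fun i => if i = 3 then 3 + len else i) (fun i => i)
      (hd (h len) (hh len)))

/-- divisibility of standard numbers -/
theorem WKL_dvd {M : Type} [CommSemiring M] [LinearOrder M] [IsStrictOrderedRing M]
    [CanonicallyOrderedAdd M] [LA.Structure M] (hM : NPA M) (a b : ℕ) :
    (a : M) ∣ (b : M) ↔ a ∣ b := by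
  constructor
  · rintro ⟨d, hd⟩
    rcases Nat.eq_zero_or_pos a with h | h
    · subst h
      rw [Nat.cast_zero, zero_mul] at hd
      have : b = 0 := by exact_mod_cast hd
      rw [this]
    · have h1 : (1 : M) ≤ (a : M) := by exact_mod_cast h
      have h2 : d ≤ (b : M) := by
        rw [hd]
        calc d = 1 * d := (one_mul d).symm
          _ ≤ (a : M) * d := mul_le_mul_left h1 d
      obtain ⟨m, _, rfl⟩ := std_below hM.compat b d h2
      refine ⟨m, ?_⟩
      exact_mod_cast hd
  · rintro ⟨d, rfl⟩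
    exact ⟨(d : M), by push_cast; rfl⟩

open Classical in
/-- a standard number coding a finite set -/
theorem WKL_code {M : Type} [CommSemiring M] [LinearOrder M] [IsStrictOrderedRing M]
    [CanonicallyOrderedAdd M] [LA.Structure M] (hM : NPA M) (X : Set ℕ) (N : ℕ) :
    ∃ y : M, ∀ u < N, (u ∈ Xc y ↔ u ∈ X) := by
  refine ⟨((∏ v ∈ (Finset.range N).filter (fun v => v ∈ X), Nat.nth Nat.Prime v : ℕ) : M),
    fun u hu => ?_⟩
  show ((Nat.nth Nat.Prime u : ℕ) : M) ∣ _ ↔ _
  rw [WKL_dvd hM, (Nat.prime_nth_prime u).prime.dvd_finset_prod_iff]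
  constructor
  · rintro ⟨v, hv, hd⟩
    rw [Finset.mem_filter] at hv
    rw [Nat.prime_dvd_prime_iff_eq (Nat.prime_nth_prime u) (Nat.prime_nth_prime v)] at hd
    have := Nat.nth_injective Nat.infinite_setOf_prime hd
    rw [this]; exact hv.2
  · intro h
    exact ⟨u, Finset.mem_filter.2 ⟨Finset.mem_range.2 hu, h⟩, dvd_refl _⟩

theorem prf_wkl : S_wkl := by
  intro M _ _ _ _ _ hM C1 C2 os hd k s len A hA Y hY h hh hfin
  obtain ⟨y, hy⟩ := hY
  choose! a ha using hA
  have hYc : Xc y = Y := by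
    ext u
    exact (hy u).symm
  have hAc : ∀ l < len, Xc (a l) = A l := by
    intro l hl
    ext u
    exact (ha l hl u).symm
  set x0 : ℕ → M := fun i => if i = 2 then y else a (i - 3) with hx0
  have hev : ∀ (z z' : M) (u : ℕ), WKL_Q k s len h
      (Function.update (Function.update x0 0 z) 1 z') (Function.update (fun _ => 0) 0 u) ↔
      ∀ l < len, h l (cod (lits (Xc z) u k)) (cod (lits Y u s)) ∈ A l := by
    intro z z' u
    have e0 : (Function.update (Function.update x0 0 z) 1 z') 0 = z := by simp [Function.update]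
    have e2 : (Function.update (Function.update x0 0 z) 1 z') 2 = y := by
      simp [Function.update, hx0]
    have e3 : ∀ l, (Function.update (Function.update x0 0 z) 1 z') (3 + l) = a l := by
      intro l
      rw [Function.update_of_ne (by omega), Function.update_of_ne (by omega), hx0]
      simp only
      rw [if_neg (by omega)]
      congr 1
      omega
    have f0 : (Function.update (fun _ => 0) 0 u : ℕ → ℕ) 0 = u := by simp
    unfold WKL_Q
    refine forall₂_congr fun l hl => ?_
    rw [e0, e2, e3, f0, hYc, hAc l hl]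
  obtain ⟨z, z', hz⟩ := os M hM (WKL_Q k s len h)
    (WKL_dd C1 k s len h hh fun g hg => hd M hM C1 C2 k s g hg) x0 (fun _ => 0) (by
    intro N
    obtain ⟨X, hX⟩ := hfin N
    obtain ⟨y0, hy0⟩ := WKL_code hM X N
    refine ⟨y0, y0, fun u hu => (hev y0 y0 u).2 fun l hl => ?_⟩
    rw [lits_congr (X := Xc y0) (Y := X) fun v hv => hy0 v (hv.trans hu)]
    exact hX u hu.le l hl)
  refine ⟨Xc z, ⟨z, fun _ => Iff.rfl⟩, fun t l hl => (hev z z' t).1 (hz t) l hl⟩

end Pool.Agent.KS6_47.SJ.JC
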