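import Pool.Agent.KS6_47.SJ.JC.GenK
import Pool.Agent.KS6_47.SJ.JC.Diag
import Pool.Agent.KS6_47.SJ.JC.Main
import Pool.Agent.KS6_47.SJ.JC.P_PRIM
import Pool.Agent.KS6_47.SJ.JC.P_BT
import Pool.Agent.KS6_47.SJ.JC.P_WKL
import Pool.Agent.KS6_47.SJ.JC.P_CALC2
import Pool.Agent.KS6_47.SJ.JC.P_IND

/-!
Computability of the translations between facts and types, enumerations of the standard system, and
the assembly of the characterisation of the degrees of copies.
-/

set_option autoImplicit false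

open FirstOrder FirstOrder.Language Pool.Agent.KS6_47.SJ.H227.EN

namespace Pool.Agent.KS6_47.SJ.JC

open Pool.Agent.KS6_47.SJ.H578.JD Pool.Agent.KS6_47.SJ.H578.JD.Oracle
open Pool.Agent.KS6_47.SJ.H578.JD.Defs

/-! ### computability of the translations -/

section comp
variable {O : Set ℕ} {α : Type} [Primcodable α]

theorem ci_cod {f : α → List ℕ} (hf : CompIn O f) : CompIn O fun a => cod (f a) :=
  CompIn.comp_of (f := cod) prf_prim.2.1.to_comp hf

theorem ci_lst {f : α → ℕ} (hf : CompIn O f) : CompIn O fun a => lst (f a) :=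
  CompIn.comp_of (f := lst) prf_prim.1.to_comp hf

theorem ci_half {f : α → ℕ} (hf : CompIn O f) : CompIn O fun a => f a / 2 :=
  CompIn.comp_of tyj_half hf

theorem ci_mod2 {f : α → ℕ} (hf : CompIn O f) : CompIn O fun a => f a % 2 :=
  CompIn.comp_of tyj_mod hf

theorem La_comp (n : ℕ) : CompIn O (La n) := by
  induction n with
  | zero => exact ci_id
  | succ n ih =>
    have h1 : CompIn O fun p : ℕ => (List.range (p + 1)).map fun i => Nat.pair i i :=
      CompIn.list_map (f := fun x : ℕ × ℕ => Nat.pair x.2 x.2) (l := fun p => List.range (p + 1))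
        (by fun_prop) (ci_range (by fun_prop))
    have h2 : CompIn O fun p : ℕ => [2 * La n p + 1] := by
      have : CompIn O fun p : ℕ => 2 * La n p + 1 := by
        have h3 : CompIn O fun p : ℕ => La n p := ih
        exact ci_add (ci_mul (ci_const 2) h3) (ci_const 1)
      exact ci_cons this (ci_const [])
    exact ci_natpair (ci_cod h1) (ci_cod h2)

theorem Un_comp (n : ℕ) : CompIn O (Un n) := by
  induction n with
  | zero => exact ci_id
  | succ n ih =>
    have h1 : CompIn O fun z : ℕ =>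
        (lst z.unpair.1).map fun f => Nat.pair f.unpair.1 (2 * f.unpair.2) :=
      CompIn.list_map (f := fun x : ℕ × ℕ => Nat.pair x.2.unpair.1 (2 * x.2.unpair.2))
        (l := fun z => lst z.unpair.1) (by fun_prop) (ci_lst (by fun_prop))
    have h2 : CompIn O fun z : ℕ => (lst z.unpair.2).map fun e => 2 * Un n (e / 2) + e % 2 := by
      refine CompIn.list_map (f := fun x : ℕ × ℕ => 2 * Un n (x.2 / 2) + x.2 % 2)
        (l := fun z => lst z.unpair.2) ?_ (ci_lst (by fun_prop))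
      exact ci_add (ci_mul (ci_const 2) (ih.comp (ci_half (by fun_prop)))) (ci_mod2 (by fun_prop))
    exact ci_natpair (ci_cod h1) (ci_cod h2)

theorem dfl_comp : CompIn O dfl := by
  have hr : CompIn O fun K : ℕ => List.range K := ci_range (by fun_prop)
  unfold dfl cd
  refine ci_append (ci_append (ci_append (ci_append (ci_append (ci_append (ci_const _) ?_) ?_)
    ?_) ?_) ?_) ?_
  · exact CompIn.list_map (f := fun x : ℕ × ℕ =>
      Nat.pair 0 (Nat.pair (8 * x.2 + 1) (Nat.pair 9 (8 * (x.2 + 1) + 1)))) (by fun_prop) hr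
  · exact CompIn.list_map (f := fun x : ℕ × ℕ =>
      Nat.pair 1 (Nat.pair (8 * (x.2.unpair.2.unpair.2 + 1) + 1)
        (Nat.pair (8 * x.2.unpair.2.unpair.1) (8 * (2 * x.2 + 1) + 2)))) (by fun_prop) hr
  · exact CompIn.list_map (f := fun x : ℕ × ℕ =>
      Nat.pair 0 (Nat.pair 9 (Nat.pair (8 * (2 * x.2 + 1) + 2) (8 * (2 * x.2 + 1) + 3))))
      (by fun_prop) hr
  · exact CompIn.list_map (f := fun x : ℕ × ℕ =>
      Nat.pair 1 (Nat.pair (8 * (2 * x.2 + 1) + 4) (Nat.pair (8 * (2 * x.2 + 1) + 3)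
        (8 * (2 * x.2 + 1) + 5)))) (by fun_prop) hr
  · exact CompIn.list_map (f := fun x : ℕ × ℕ =>
      Nat.pair 0 (Nat.pair (8 * (2 * x.2 + 1) + 5) (Nat.pair (8 * (2 * x.2 + 1))
        (8 * x.2.unpair.1)))) (by fun_prop) hr
  · exact CompIn.list_map (f := fun x : ℕ × ℕ =>
      Nat.pair 2 (Nat.pair (8 * (2 * x.2 + 1)) (Nat.pair (8 * (2 * x.2 + 1) + 3) 0)))
      (by fun_prop) hr

theorem Tn_comp (n : ℕ) : CompIn O (Tn n) := by
  induction n with
  | zero =>
    show CompIn O fun p : ℕ => Tn 0 p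
    unfold Tn cd
    fun_prop
  | succ n ih =>
    have h1 : CompIn O fun z : ℕ =>
        (lst z.unpair.1).map fun f => Nat.pair (8 * (2 * f.unpair.1)) (8 * f.unpair.2) :=
      CompIn.list_map (f := fun x : ℕ × ℕ => Nat.pair (8 * (2 * x.2.unpair.1)) (8 * x.2.unpair.2))
        (l := fun z => lst z.unpair.1) (by fun_prop) (ci_lst (by fun_prop))
    have h2 : CompIn O fun z : ℕ => (lst z.unpair.2).map fun e => 2 * Tn n (e / 2) + e % 2 := by
      refine CompIn.list_map (f := fun x : ℕ × ℕ => 2 * Tn n (x.2 / 2) + x.2 % 2)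
        (l := fun z => lst z.unpair.2) ?_ (ci_lst (by fun_prop))
      exact ci_add (ci_mul (ci_const 2) (ih.comp (ci_half (by fun_prop)))) (ci_mod2 (by fun_prop))
    have h3 : CompIn O fun z : ℕ => (dfl z).map fun p => 2 * La n p + 1 := by
      refine CompIn.list_map (f := fun x : ℕ × ℕ => 2 * La n x.2 + 1) (l := fun z => dfl z) ?_
        dfl_comp
      exact ci_add (ci_mul (ci_const 2) ((La_comp n).comp (by fun_prop))) (ci_const 1)
    exact ci_natpair (ci_cod h1) (ci_cod (ci_append h2 h3))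

theorem rnm_comp {ρ : ℕ → ℕ} (hρ : CompIn O ρ) : CompIn O (rnm ρ) := by
  have h1 : CompIn O fun z : ℕ =>
      (lst z.unpair.1).map fun f => Nat.pair f.unpair.1 (ρ f.unpair.2) := by
    refine CompIn.list_map (f := fun x : ℕ × ℕ => Nat.pair x.2.unpair.1 (ρ x.2.unpair.2))
      (l := fun z => lst z.unpair.1) ?_ (ci_lst (by fun_prop))
    exact ci_natpair (by fun_prop) (hρ.comp (by fun_prop))
  have h2 : CompIn O fun z : ℕ => z.unpair.2 := by fun_prop
  exact ci_natpair (ci_cod h1) h2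

end comp

section model
variable {M : Type} [CommSemiring M] [LinearOrder M] [IsStrictOrderedRing M]
  [CanonicallyOrderedAdd M] [LA.Structure M]

/-- the level `n` facts of an enumeration compute its types -/
theorem dec_Ty_of_Sg (hM : NPA M) (C : ℕ → M) (hC : Function.Surjective C) (O : Set ℕ) (n : ℕ)
    (h : DecIn O fun z => Sg n C z) :
    (DecIn O fun p => Dg C p = true) ∧ DecIn O fun u => Ty n C u := by
  have hD : DecIn O fun p => Dg C p = true :=
    (h.comp (f := fun p => La n p) (La_comp n)).of_eq fun p => Sg_La n p C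
  refine ⟨hD, ?_⟩
  cases n with
  | zero => exact h.of_eq fun p => Iff.rfl
  | succ n =>
    have hb := prf_bt prf_ind M hM
    obtain ⟨-, nm, hnm, hn⟩ := prf_names M hM (prf_bt prf_ind) C hC O hD
    have h8 : Computable fun t : ℕ => t / 8 :=
      (Primrec.nat_div.comp Primrec.id (Primrec.const 8)).to_comp
    have hρ : CompIn O fun t : ℕ => nm (t / 8) :=
      hnm.comp (g := fun t : ℕ => t / 8) (CompIn.of_comp h8)
    have h1 : DecIn O fun z => Sg (n + 1) C (rnm (fun t => nm (t / 8)) (Tn (n + 1) z)) :=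
      h.comp (f := fun z => rnm (fun t => nm (t / 8)) (Tn (n + 1) z))
        ((rnm_comp hρ).comp (Tn_comp (n + 1)))
    refine h1.of_eq fun z => ?_
    rw [← Sg_rnm]
    refine Tn_spec hM.compat hb (n + 1) z C _ fun j _ => ?_
    show C (nm (8 * j / 8)) = hat C j
    have e : 8 * j / 8 = j := by omega
    rw [e, hn]

/-- the level `n` facts of an enumeration are computable in the `n`-th jump of the atomic diagram -/
theorem dec_Sg (hM : NPA M) (C : ℕ → M) (hC : Function.Surjective C) (A : Set ℕ)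
    (hA : DecIn A fun p => Dg C p = true) (n : ℕ) : DecIn (jump^[n] A) fun z => Sg n C z := by
  obtain ⟨heq, hnm⟩ := prf_names M hM (prf_bt prf_ind) C hC A hA
  have h := prf_tyjump M hM prf_prim C hC A hA heq hnm n
  exact (h.comp (f := fun z => Un n z) (Un_comp n)).of_eq fun z => (Sg_iff_Ty n z C).symm

/-! ### enumerations of the standard system -/

theorem dvd_iff_bt (hM : NPA M) (k : ℕ) (c : M) :
    ((k + 2 : ℕ) : M) ∣ c ↔ bt c 1 k = 0 := by
  have hb := prf_bt prf_ind M hM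
  have e : (1 : M) + ((k : M) + 1) * 1 = ((k + 2 : ℕ) : M) := by
    push_cast
    ring
  constructor
  · rintro ⟨d, hd⟩
    have : Beta c 1 (k : M) 0 := by
      refine ⟨?_, d, ?_⟩
      · rw [e]
        exact_mod_cast Nat.succ_pos (k + 1)
      · rw [e, hd, add_zero, mul_comm]
    exact ((hb _ _ _ _).1 this).symm
  · intro h
    obtain ⟨-, q, hq⟩ := (hb c 1 k (bt c 1 k)).2 rfl
    rw [e, h, add_zero] at hq
    exact ⟨q, by rw [hq, mul_comm]⟩

/-- every oracle computing the atomic diagram of an enumeration of the model computes an enumeration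
of the standard system -/
theorem enum_of_copy (hM : NPA M) (C : ℕ → M) (hC : Function.Surjective C) (B : Set ℕ)
    (hB : DecIn B fun p => Dg C p = true) : ∃ R : Set ℕ, Enum R (SSp M) ∧ Red R B := by
  obtain ⟨f, hf, hf1⟩ := names_bt hM.compat hC hB (prf_bt prf_ind M hM)
  obtain ⟨o, ho⟩ := hC 1
  obtain ⟨z, hz⟩ := hC 0
  have heq := names_eq hM.compat hB
  refine ⟨{v | ((Nat.nth Nat.Prime v.unpair.2 : ℕ) : M) ∣ C v.unpair.1}, ?_, ?_⟩
  · intro X
    constructor
    · rintro ⟨c, hc⟩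
      obtain ⟨i, rfl⟩ := hC c
      refine ⟨i, Set.ext fun n => ?_⟩
      rw [hc n]
      show _ ↔ ((Nat.nth Nat.Prime (Nat.pair i n).unpair.2 : ℕ) : M) ∣ C (Nat.pair i n).unpair.1
      rw [Nat.unpair_pair]
    · rintro ⟨i, rfl⟩
      refine ⟨C i, fun n => ?_⟩
      show ((Nat.nth Nat.Prime (Nat.pair i n).unpair.2 : ℕ) : M) ∣ C (Nat.pair i n).unpair.1 ↔ _
      rw [Nat.unpair_pair]
  · have hp : CompIn B fun v : ℕ => Nat.nth Nat.Prime v.unpair.2 - 2 := by
      have h1 : CompIn B fun v : ℕ => Nat.nth Nat.Prime v.unpair.2 :=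
        CompIn.comp_of (f := fun n => Nat.nth Nat.Prime n) CALC2_nth.to_comp (by fun_prop)
      exact ci_sub h1 (ci_const 2)
    have h2 : DecIn B fun v : ℕ =>
        C (f (v.unpair.1, (o, Nat.nth Nat.Prime v.unpair.2 - 2))) = C z :=
      heq.comp (f := fun v : ℕ => (f (v.unpair.1, (o, Nat.nth Nat.Prime v.unpair.2 - 2)), z))
        (CompIn.pair (hf.comp (CompIn.pair (by fun_prop) (CompIn.pair (by fun_prop) hp)))
          (by fun_prop))
    rw [Red_iff]
    refine h2.of_eq fun v => ?_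
    show _ ↔ ((Nat.nth Nat.Prime v.unpair.2 : ℕ) : M) ∣ C v.unpair.1
    have h3 : 2 ≤ Nat.nth Nat.Prime v.unpair.2 := (Nat.prime_nth_prime _).two_le
    obtain ⟨k, hk⟩ : ∃ k, Nat.nth Nat.Prime v.unpair.2 = k + 2 := ⟨_, (Nat.sub_add_cancel h3).symm⟩
    rw [hf1, hk, dvd_iff_bt hM, ho, hz]
    simp

/-- coding of the set `B` into an enumeration -/
def cup (R B : Set ℕ) : Set ℕ :=
  {v | (v.unpair.1 % 2 = 0 ∧ Nat.pair (v.unpair.1 / 2) v.unpair.2 ∈ R) ∨
    (v.unpair.1 % 2 = 1 ∧ v.unpair.1 / 2 ∈ B ∧ v.unpair.2 = 0)}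

omit [LinearOrder M] [IsStrictOrderedRing M] [CanonicallyOrderedAdd M] [LA.Structure M]
  [CommSemiring M] in
theorem cup_even (R B : Set ℕ) (i : ℕ) : Rw (cup R B) (2 * i) = Rw R i := by
  ext u
  show Nat.pair (2 * i) u ∈ cup R B ↔ Nat.pair i u ∈ R
  unfold cup
  rw [Set.mem_ofPred_eq, Nat.unpair_pair]
  have h1 : 2 * i % 2 = 0 := by omega
  have h2 : 2 * i / 2 = i := by omega
  simp only [h1, h2]
  simp

theorem cup_odd (R B : Set ℕ) (i u : ℕ) : u ∈ Rw (cup R B) (2 * i + 1) ↔ i ∈ B ∧ u = 0 := by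
  show Nat.pair (2 * i + 1) u ∈ cup R B ↔ _
  unfold cup
  rw [Set.mem_ofPred_eq, Nat.unpair_pair]
  have h1 : (2 * i + 1) % 2 = 1 := by omega
  have h2 : (2 * i + 1) / 2 = i := by omega
  simp only [h1, h2]
  simp

theorem cup_spec {R B : Set ℕ} {S : Set (Set ℕ)} (hR : Enum R S) (h0 : (∅ : Set ℕ) ∈ S)
    (h1 : ({0} : Set ℕ) ∈ S) (hRB : Red R B) :
    Enum (cup R B) S ∧ Red (cup R B) B ∧ Red B (cup R B) := by
  refine ⟨fun X => ⟨fun hX => ?_, ?_⟩, ?_, ?_⟩
  · obtain ⟨i, rfl⟩ := (hR X).1 hX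
    exact ⟨2 * i, (cup_even R B i).symm⟩
  · rintro ⟨j, rfl⟩
    by_cases hj : j % 2 = 0
    · have e : j = 2 * (j / 2) := by omega
      rw [e, cup_even]
      exact (hR _).2 ⟨_, rfl⟩
    · have e : j = 2 * (j / 2) + 1 := by omega
      rw [e]
      by_cases hB : j / 2 ∈ B
      · have : Rw (cup R B) (2 * (j / 2) + 1) = {0} := by
          ext u
          rw [cup_odd]
          simp [hB]
        rw [this]; exact h1
      · have : Rw (cup R B) (2 * (j / 2) + 1) = ∅ := by
          ext u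
          rw [cup_odd]
          simp [hB]
        rw [this]; exact h0
  · rw [Red_iff]
    have hm : CompIn B fun v : ℕ => v.unpair.1 % 2 := ci_mod2 (by fun_prop)
    have hh : CompIn B fun v : ℕ => v.unpair.1 / 2 := ci_half (by fun_prop)
    have h2 : DecIn B fun v : ℕ => Nat.pair (v.unpair.1 / 2) v.unpair.2 ∈ R :=
      (DecIn.of_red hRB).comp (f := fun v : ℕ => Nat.pair (v.unpair.1 / 2) v.unpair.2)
        (ci_natpair hh (by fun_prop))
    have h3 : DecIn B fun v : ℕ => v.unpair.1 / 2 ∈ B :=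
      (DecIn.of_red (Red.refl B)).comp (f := fun v : ℕ => v.unpair.1 / 2) hh
    exact DecIn.or (DecIn.and (DecIn.eq hm (ci_const 0)) h2)
      (DecIn.and (DecIn.eq hm (ci_const 1)) (DecIn.and h3 (DecIn.eq (by fun_prop) (ci_const 0))))
  · rw [Red_iff]
    have h2 : DecIn (cup R B) fun v : ℕ => Nat.pair (2 * v + 1) 0 ∈ cup R B :=
      (DecIn.of_red (Red.refl _)).comp (f := fun v : ℕ => Nat.pair (2 * v + 1) 0) (by fun_prop)
    refine h2.of_eq fun v => ?_
    have := cup_odd R B v 0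
    rw [show (Nat.pair (2 * v + 1) 0 ∈ cup R B ↔ v ∈ B ∧ 0 = 0) from this]
    simp

theorem empty_mem_SSp (hM : NPA M) : (∅ : Set ℕ) ∈ SSp M := by
  refine ⟨((1 : ℕ) : M), fun n => ?_⟩
  rw [WKL_dvd hM, Nat.dvd_one]
  have := (Nat.prime_nth_prime n).one_lt
  constructor
  · intro h; exact absurd h (Set.notMem_empty n)
  · intro h; omega

theorem single_mem_SSp (hM : NPA M) : ({0} : Set ℕ) ∈ SSp M := by
  refine ⟨((Nat.nth Nat.Prime 0 : ℕ) : M), fun n => ?_⟩
  rw [WKL_dvd hM, Nat.prime_dvd_prime_iff_eq (Nat.prime_nth_prime n) (Nat.prime_nth_prime 0),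
    Set.mem_singleton_iff]
  exact ⟨fun h => by rw [h], fun h => Nat.nth_injective Nat.infinite_setOfPred_prime h⟩

end model

end Pool.Agent.KS6_47.SJ.JC
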