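import Pool.Agent.KS6_47.SJ.JC.Tool
import Pool.Agent.KS6_47.SJ.H227.ENJ.P_E_agree

/-!
Basic facts on codes and types.
-/

set_option autoImplicit false

open FirstOrder FirstOrder.Language Pool.Agent.KS6_47.SJ.H227.EN

namespace Pool.Agent.KS6_47.SJ.JC

/-! ### lists -/

theorem lst_cod (l : List ℕ) : lst (cod l) = l := Denumerable.ofNat_encode l

theorem cod_lst (c : ℕ) : cod (lst c) = c := Denumerable.encode_ofNat c

theorem mem_lt_cod {e : ℕ} {l : List ℕ} (h : e ∈ l) : e < cod l := by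
  induction l with
  | nil => simp at h
  | cons a l ih =>
    have h0 : cod (a :: l) = Nat.succ (Nat.pair a (cod l)) := rfl
    rw [h0]
    rcases List.mem_cons.1 h with rfl | h
    · have := Nat.left_le_pair e (cod l); omega
    · have := ih h
      have := Nat.right_le_pair a (cod l); omega

theorem mem_lst_lt {e c : ℕ} (h : e ∈ lst c) : e < c := by
  have := mem_lt_cod h
  rwa [cod_lst] at this

theorem lst_zero : lst 0 = [] := by
  have : cod [] = 0 := rfl
  rw [← this, lst_cod]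

/-! ### terms -/

theorem tc_odd (a b n : ℕ) : ¬ bterm a b n % 2 = 0 := by unfold bterm; omega

theorem tc_half (a b n : ℕ) : bterm a b n / 2 = Nat.pair a (Nat.pair b n) := by unfold bterm; omega

theorem exists_bterm {j : ℕ} (h : ¬ j % 2 = 0) :
    j = bterm (j / 2).unpair.1 (j / 2).unpair.2.unpair.1 (j / 2).unpair.2.unpair.2 := by
  unfold bterm
  rw [Nat.pair_unpair, Nat.pair_unpair]
  omega

theorem left_lt_bterm (a b n : ℕ) : a < bterm a b n := by
  unfold bterm
  have := Nat.left_le_pair a (Nat.pair b n)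
  omega

theorem mid_lt_bterm (a b n : ℕ) : b < bterm a b n := by
  unfold bterm
  have := Nat.left_le_pair b n
  have := Nat.right_le_pair a (Nat.pair b n)
  omega

/-- induction on term codes -/
theorem tc_ind {P : ℕ → Prop} (h0 : ∀ i, P (2 * i)) (h1 : ∀ a b n, P a → P b → P (bterm a b n)) :
    ∀ j, P j := by
  intro j
  induction j using Nat.strong_induction_on with
  | _ j ih =>
    by_cases h : j % 2 = 0
    · have : j = 2 * (j / 2) := by omega
      rw [this]; exact h0 _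
    · rw [exists_bterm h]
      exact h1 _ _ _ (ih _ (tc_lt1 h)) (ih _ (tc_lt2 h))

theorem tau_var (w : ℕ → ℕ) (i : ℕ) : tau w (2 * i) = w i := by
  rw [tau]
  simp

theorem tau_bterm (w : ℕ → ℕ) (a b n : ℕ) : tau w (bterm a b n) = bterm (tau w a) (tau w b) n := by
  rw [tau, dif_neg (tc_odd a b n), tc_half]
  simp

theorem mv_var (i : ℕ) : mv (2 * i) = i + 1 := by
  rw [mv]
  simp

theorem mv_bterm (a b n : ℕ) : mv (bterm a b n) = max (mv a) (mv b) := by
  rw [mv, dif_neg (tc_odd a b n), tc_half]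
  simp

theorem mv_le (j : ℕ) : mv j ≤ j + 1 := by
  induction j using tc_ind with
  | h0 i => rw [mv_var]; omega
  | h1 a b n ha hb =>
    rw [mv_bterm]
    have := left_lt_bterm a b n
    have := mid_lt_bterm a b n
    omega

theorem tau_congr {w w' : ℕ → ℕ} {j : ℕ} (h : ∀ i < mv j, w i = w' i) : tau w j = tau w' j := by
  induction j using tc_ind with
  | h0 i => rw [tau_var, tau_var]; exact h i (by rw [mv_var]; omega)
  | h1 a b n ha hb =>
    rw [mv_bterm] at h
    rw [tau_bterm, tau_bterm, ha fun i hi => h i (lt_max_of_lt_left hi),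
      hb fun i hi => h i (lt_max_of_lt_right hi)]

theorem mv_tau_le {w : ℕ → ℕ} {j K : ℕ} (h : ∀ i < mv j, mv (w i) ≤ K) : mv (tau w j) ≤ K := by
  induction j using tc_ind with
  | h0 i => rw [tau_var]; exact h i (by rw [mv_var]; omega)
  | h1 a b n ha hb =>
    rw [mv_bterm] at h
    rw [tau_bterm, mv_bterm]
    exact max_le (ha fun i hi => h i (lt_max_of_lt_left hi)) (hb fun i hi => h i (lt_max_of_lt_right hi))

theorem sup_le {z K : ℕ} : sup z ≤ K ↔ ∀ f ∈ lst z.unpair.1, mv f.unpair.2 ≤ K := by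
  unfold sup
  induction lst z.unpair.1 with
  | nil => simp
  | cons a l ih =>
    rw [List.foldr_cons, max_le_iff, ih]
    simp

theorem mv_le_sup {z f : ℕ} (h : f ∈ lst z.unpair.1) : mv f.unpair.2 ≤ sup z := sup_le.1 le_rfl f h

theorem sup_le_self (z : ℕ) : sup z ≤ z := by
  rw [sup_le]
  intro f hf
  have h1 := mem_lst_lt hf
  have h2 := Nat.unpair_left_le z
  have h3 := mv_le f.unpair.2
  have h4 := Nat.unpair_right_le f
  omega

theorem sup_zero : sup 0 = 0 := by
  have := sup_le_self 0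
  omega

theorem lst_sb (w : ℕ → ℕ) (z : ℕ) : lst (sb w z).unpair.1 =
    (lst z.unpair.1).map fun f => Nat.pair f.unpair.1 (tau w f.unpair.2) := by
  unfold sb
  rw [Nat.unpair_pair, lst_cod]

theorem sb_snd (w : ℕ → ℕ) (z : ℕ) : (sb w z).unpair.2 = z.unpair.2 := by
  unfold sb
  rw [Nat.unpair_pair]

theorem sup_sb_le {w : ℕ → ℕ} {z K : ℕ} (h : ∀ i < sup z, mv (w i) ≤ K) : sup (sb w z) ≤ K := by
  rw [sup_le, lst_sb]
  intro f hf
  obtain ⟨g, hg, rfl⟩ := List.mem_map.1 hf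
  rw [Nat.unpair_pair]
  exact mv_tau_le fun i hi => h i (lt_of_lt_of_le hi (mv_le_sup hg))

theorem lst_con (w : ℕ → ℕ) (m : ℕ) : lst (con w m) = (List.range m).map fun i => Nat.pair i (w i) := by
  unfold con
  rw [lst_cod]

theorem con_congr {w w' : ℕ → ℕ} {m : ℕ} (h : ∀ i < m, w i = w' i) : con w m = con w' m := by
  unfold con
  congr 1
  refine List.map_congr_left fun i hi => ?_
  rw [h i (List.mem_range.1 hi)]

theorem sup_con_le {w : ℕ → ℕ} {m K l : ℕ} (h : ∀ i < m, mv (w i) ≤ K) :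
    sup (Nat.pair (con w m) l) ≤ K := by
  rw [sup_le, Nat.unpair_pair, lst_con]
  intro f hf
  obtain ⟨i, hi, rfl⟩ := List.mem_map.1 hf
  rw [Nat.unpair_pair]
  exact h i (List.mem_range.1 hi)

theorem sup_lft_le (s u : ℕ) : sup (lft s u) ≤ s := by
  unfold lft
  refine sup_con_le fun i hi => ?_
  rw [mv_var]; omega

/-! ### values of terms -/

section
variable {M : Type} [CommSemiring M] [LinearOrder M]

theorem hat_var (x : ℕ → M) (i : ℕ) : hat x (2 * i) = x i := by
  rw [hat]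
  simp

theorem hat_bterm (x : ℕ → M) (a b n : ℕ) : hat x (bterm a b n) = bt (hat x a) (hat x b) n := by
  rw [hat, dif_neg (tc_odd a b n), tc_half]
  simp

theorem hat_tau (x : ℕ → M) (w : ℕ → ℕ) (j : ℕ) : hat (fun i => hat x (w i)) j = hat x (tau w j) := by
  induction j using tc_ind with
  | h0 i => rw [hat_var, tau_var]
  | h1 a b n ha hb => rw [hat_bterm, tau_bterm, hat_bterm, ha, hb]

theorem hat_congr {x y : ℕ → M} {j : ℕ} (h : ∀ i < mv j, x i = y i) : hat x j = hat y j := by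
  induction j using tc_ind with
  | h0 i => rw [hat_var, hat_var]; exact h i (by rw [mv_var]; omega)
  | h1 a b n ha hb =>
    rw [mv_bterm] at h
    rw [hat_bterm, hat_bterm, ha fun i hi => h i (lt_max_of_lt_left hi),
      hb fun i hi => h i (lt_max_of_lt_right hi)]

theorem hat_names (x : ℕ → M) (ρ : ℕ → ℕ) : (fun i => x (ρ i)) = fun i => hat x (2 * ρ i) := by
  funext i
  rw [hat_var]

theorem Con_congr {c : ℕ} {y x x' : ℕ → M} (h : ∀ f ∈ lst c, ∀ i < mv f.unpair.2, x i = x' i) :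
    Con c y x ↔ Con c y x' := by
  unfold Con
  refine forall₂_congr fun f hf => ?_
  rw [hat_congr (h f hf)]

theorem Con_congr_left {c : ℕ} {y y' x : ℕ → M} (h : ∀ f ∈ lst c, y f.unpair.1 = y' f.unpair.1) :
    Con c y x ↔ Con c y' x := by
  unfold Con
  refine forall₂_congr fun f hf => ?_
  rw [h f hf]

theorem Con_con {w : ℕ → ℕ} {m : ℕ} {y x : ℕ → M} :
    Con (con w m) y x ↔ ∀ i < m, y i = hat x (w i) := by
  unfold Con
  rw [lst_con]
  simp only [List.mem_map, List.mem_range, forall_exists_index, and_imp,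
    forall_apply_eq_imp_iff₂, Nat.unpair_pair]

theorem Con_id {m : ℕ} {y x : ℕ → M} :
    Con (con (fun i => 2 * i) m) y x ↔ ∀ i < m, y i = x i := by
  rw [Con_con]
  simp only [hat_var]

variable [LA.Structure M]

theorem Dg_congr {x y : ℕ → M} {p : ℕ} (h : ∀ i ≤ p, x i = y i) : Dg x p = Dg y p :=
  E_agree_Dg y x (p + 1) (fun i hi => h i (Nat.lt_succ_iff.1 hi)) p (Nat.lt_succ_self p)

/-- a fact of positive level depends on the variables in its constraints -/
theorem Ty_congr {n : ℕ} {x y : ℕ → M} {z : ℕ} (h : ∀ i < sup z, x i = y i) :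
    Ty (n + 1) x z ↔ Ty (n + 1) y z := by
  unfold Ty
  refine exists_congr fun y' => and_congr_left fun _ => ?_
  exact Con_congr fun f hf i hi => h i (lt_of_lt_of_le hi (mv_le_sup hf))

theorem Ty_congr_le {n : ℕ} {x y : ℕ → M} {z : ℕ} (h : ∀ i ≤ z, x i = y i) :
    Ty n x z ↔ Ty n y z := by
  cases n with
  | zero => unfold Ty; rw [Dg_congr h]
  | succ n => exact Ty_congr fun i hi => h i ((Nat.le_of_lt hi).trans (sup_le_self z))

theorem Lit_congr {P Q : ℕ → Prop} {e : ℕ} (h : P (e / 2) ↔ Q (e / 2)) : Lit P e ↔ Lit Q e := by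
  unfold Lit
  rw [h]

/-- substitution of terms -/
theorem Ty_sb {n : ℕ} (x : ℕ → M) (w : ℕ → ℕ) (z : ℕ) :
    Ty (n + 1) (fun i => hat x (w i)) z ↔ Ty (n + 1) x (sb w z) := by
  unfold Ty
  rw [sb_snd]
  refine exists_congr fun y => and_congr_left fun _ => ?_
  unfold Con
  rw [lst_sb]
  simp only [List.mem_map, forall_exists_index, and_imp, forall_apply_eq_imp_iff₂, Nat.unpair_pair,
    hat_tau]

theorem Lit_even (P : ℕ → Prop) (u : ℕ) : Lit P (2 * u) ↔ ¬ P u := by
  unfold Lit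
  have h1 : 2 * u / 2 = u := by omega
  have h2 : 2 * u % 2 = 0 := by omega
  rw [h1, h2]
  simp

theorem Lit_odd (P : ℕ → Prop) (u : ℕ) : Lit P (2 * u + 1) ↔ P u := by
  unfold Lit
  have h1 : (2 * u + 1) / 2 = u := by omega
  have h2 : (2 * u + 1) % 2 = 1 := by omega
  rw [h1, h2]
  simp

theorem Ty_succ_iff {n : ℕ} (x : ℕ → M) (c : ℕ) (l : List ℕ) :
    Ty (n + 1) x (Nat.pair c (cod l)) ↔ ∃ y : ℕ → M, Con c y x ∧ ∀ e ∈ l, Lit (Ty n y) e := by
  unfold Ty
  rw [Nat.unpair_pair, lst_cod]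

theorem Ty_lft {n : ℕ} (x : ℕ → M) {s u : ℕ} (h : sup u ≤ s) :
    Ty (n + 1) x u ↔ Ty (n + 2) x (lft s u) := by
  unfold lft
  rw [Ty_succ_iff]
  constructor
  · intro h1
    refine ⟨x, Con_id.2 fun _ _ => rfl, fun e he => ?_⟩
    rw [List.mem_singleton] at he
    subst he
    rw [Lit_odd]; exact h1
  · rintro ⟨y, h1, h2⟩
    have h3 := h2 _ (List.mem_singleton_self _)
    rw [Lit_odd] at h3
    rw [Con_id] at h1
    exact (Ty_congr fun i hi => h1 i (lt_of_lt_of_le hi h)).1 h3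

theorem Ty0_lft (x : ℕ → M) {s p : ℕ} (h : p < s) :
    Ty 0 x p ↔ Ty 1 x (lft s p) := by
  unfold lft
  rw [Ty_succ_iff]
  constructor
  · intro h1
    refine ⟨x, Con_id.2 fun _ _ => rfl, fun e he => ?_⟩
    rw [List.mem_singleton] at he
    subst he
    rw [Lit_odd]; exact h1
  · rintro ⟨y, h1, h2⟩
    have h3 := h2 _ (List.mem_singleton_self _)
    rw [Lit_odd] at h3
    rw [Con_id] at h1
    exact (Ty_congr_le fun i hi => h1 i (lt_of_le_of_lt hi h)).1 h3

theorem Ty_zero_code {n : ℕ} (x : ℕ → M) : Ty (n + 1) x 0 := by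
  unfold Ty
  refine ⟨x, ?_, ?_⟩
  · intro f hf
    rw [Nat.unpair_zero] at hf
    simp [lst_zero] at hf
  · intro e he
    rw [Nat.unpair_zero] at he
    simp [lst_zero] at he

/-! ### literals -/

theorem mem_lits {X : Set ℕ} {t k e : ℕ} : e ∈ lits X t k ↔
    ∃ u < t, (sup u ≤ k ∧ ((u ∈ X ∧ e = 2 * u + 1) ∨ (u ∉ X ∧ e = 2 * u))) ∨ (¬ sup u ≤ k ∧ e = 1) := by
  unfold lits
  simp only [List.mem_map, List.mem_range]
  refine exists_congr fun u => and_congr_right fun _ => ?_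
  by_cases h1 : sup u ≤ k
  · by_cases h2 : u ∈ X
    · simp [h1, h2, eq_comm]
    · simp [h1, h2, eq_comm]
  · simp [h1, eq_comm]

theorem lits_congr {X Y : Set ℕ} {t k : ℕ} (h : ∀ u < t, (u ∈ X ↔ u ∈ Y)) :
    lits X t k = lits Y t k := by
  unfold lits
  refine List.map_congr_left fun u hu => ?_
  have := h u (List.mem_range.1 hu)
  by_cases h2 : u ∈ X
  · simp [h2, this.1 h2]
  · have h3 : u ∉ Y := fun h4 => h2 (this.2 h4)
    simp [h2, h3]

/-- a sequence satisfies the literals of `X` below `t` iff its type agrees with `X` -/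
theorem all_lits {n : ℕ} {x : ℕ → M} {X : Set ℕ} {t k : ℕ} :
    (∀ e ∈ lits X t k, Lit (Ty (n + 1) x) e) ↔
      ∀ u < t, sup u ≤ k → (u ∈ X ↔ Ty (n + 1) x u) := by
  constructor
  · intro h u hu hk
    by_cases hX : u ∈ X
    · have := h (2 * u + 1) (mem_lits.2 ⟨u, hu, Or.inl ⟨hk, Or.inl ⟨hX, rfl⟩⟩⟩)
      rw [Lit_odd] at this
      simp [hX, this]
    · have := h (2 * u) (mem_lits.2 ⟨u, hu, Or.inl ⟨hk, Or.inr ⟨hX, rfl⟩⟩⟩)
      rw [Lit_even] at this
      simp [hX, this]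
  · intro h e he
    obtain ⟨u, hu, ⟨hk, ⟨hX, rfl⟩ | ⟨hX, rfl⟩⟩ | ⟨hk, rfl⟩⟩ := mem_lits.1 he
    · rw [Lit_odd]; exact (h u hu hk).1 hX
    · rw [Lit_even]; exact fun h1 => hX ((h u hu hk).2 h1)
    · have : (1 : ℕ) = 2 * 0 + 1 := rfl
      rw [this, Lit_odd]
      exact Ty_zero_code x

theorem isT_iff {n k : ℕ} {x : ℕ → M} {X : Set ℕ} :
    IsT (n + 1) k x X ↔ ∀ t, ∀ e ∈ lits X t k, Lit (Ty (n + 1) x) e := by
  simp only [all_lits]
  constructor
  · intro h t u _ hk; exact h u hk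
  · intro h u hk; exact h (u + 1) u (Nat.lt_succ_self u) hk

theorem IsT.congr {n k : ℕ} {x y : ℕ → M} {X : Set ℕ} (h : IsT (n + 1) k x X)
    (hxy : ∀ i < k, x i = y i) : IsT (n + 1) k y X := by
  intro u hu
  rw [h u hu]
  exact Ty_congr fun i hi => hxy i (lt_of_lt_of_le hi hu)

theorem IsT.mono {n k k' : ℕ} {x : ℕ → M} {X : Set ℕ} (h : IsT n k x X) (hk : k' ≤ k) :
    IsT n k' x X := fun u hu => h u (hu.trans hk)

end

end Pool.Agent.KS6_47.SJ.JC
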