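import Pool.Agent.KS6_47.SJ.H227.ENJ.Defs
import Pool.Agent.KS6_47.SJ.H578.JD.Core

/-!
Common definitions: beta terms, types of sequences of elements, standard system, relative
computability.
-/

set_option autoImplicit false

open FirstOrder FirstOrder.Language Pool.Agent.KS6_47.SJ.H227.EN

namespace Pool.Agent.KS6_47.SJ.JC

open Pool.Agent.KS6_47.SJ.H578.JD Pool.Agent.KS6_47.SJ.H578.JD.Oracle Pool.Agent.KS6_47.SJ.H578.JD.Defs

/-! ### Relative computability -/

section comp
variable {α β : Type} [Primcodable α] [Primcodable β]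

/-- the total function `f` is computable relative to `A` (its graph is c.e. in `A`) -/
def CompIn (A : Set ℕ) (f : α → β) : Prop := REIn A fun p : α × β => f p.1 = p.2

/-- the predicate `P` is decidable relative to `A` -/
def DecIn (A : Set ℕ) (P : α → Prop) : Prop := REIn A P ∧ REIn A fun a => ¬ P a

end comp

/-- the `i`-th row of the enumeration `B` -/
def Rw (B : Set ℕ) (i : ℕ) : Set ℕ := {u | Nat.pair i u ∈ B}

/-! ### Lists coded by numbers -/

/-- the list coded by a number -/
def lst (c : ℕ) : List ℕ := Denumerable.ofNat (List ℕ) c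

/-- the code of a list -/
def cod (l : List ℕ) : ℕ := Encodable.encode l

/-- literals: `2 u + 1` says that `u` is true, `2 u` says that `u` is false -/
def Lit (P : ℕ → Prop) (e : ℕ) : Prop := P (e / 2) ↔ e % 2 = 1

/-! ### Term codes: `2 i` is the variable `i`, and `2 ⟨a, ⟨b, n⟩⟩ + 1` is the value at `n` of the beta
function with codes (the values of) `a`, `b`. -/

/-- code of a beta term -/
def bterm (a b n : ℕ) : ℕ := 2 * Nat.pair a (Nat.pair b n) + 1

theorem tc_lt1 {j : ℕ} (h : ¬ j % 2 = 0) : (j / 2).unpair.1 < j := by
  have := Nat.unpair_left_le (j / 2)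
  omega

theorem tc_lt2 {j : ℕ} (h : ¬ j % 2 = 0) : (j / 2).unpair.2.unpair.1 < j := by
  have h1 := Nat.unpair_left_le (j / 2).unpair.2
  have h2 := Nat.unpair_right_le (j / 2)
  omega

/-- substitution: the term code `j` with the variable `i` replaced by the term `w i` -/
def tau (w : ℕ → ℕ) (j : ℕ) : ℕ :=
  if h : j % 2 = 0 then w (j / 2)
  else bterm (tau w (j / 2).unpair.1) (tau w (j / 2).unpair.2.unpair.1) (j / 2).unpair.2.unpair.2
termination_by j
decreasing_by
  · exact tc_lt1 h
  · exact tc_lt2 h

/-- one more than the largest variable of a term -/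
def mv (j : ℕ) : ℕ :=
  if h : j % 2 = 0 then j / 2 + 1
  else max (mv (j / 2).unpair.1) (mv (j / 2).unpair.2.unpair.1)
termination_by j
decreasing_by
  · exact tc_lt1 h
  · exact tc_lt2 h

/-- one more than the largest variable in the list of constraints of the code `z` -/
def sup (z : ℕ) : ℕ := (lst z.unpair.1).foldr (fun f acc => max (mv f.unpair.2) acc) 0

/-- substitution in a code of a fact of positive level -/
def sb (w : ℕ → ℕ) (z : ℕ) : ℕ :=
  Nat.pair (cod ((lst z.unpair.1).map fun f => Nat.pair f.unpair.1 (tau w f.unpair.2))) z.unpair.2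

/-- constraints: the value at `i` is the value of the term `w i`, for all `i < m` -/
def con (w : ℕ → ℕ) (m : ℕ) : ℕ := cod ((List.range m).map fun i => Nat.pair i (w i))

/-- a fact `u` of level `n` about the first `s` variables, as a fact of level `n + 1` -/
def lft (s u : ℕ) : ℕ := Nat.pair (con (fun i => 2 * i) s) (cod [2 * u + 1])

open Classical in
/-- the literals given by the set `X` for the codes `u < t` with at most the variables below `k`
(`1` is a literal which is always true at positive levels) -/
noncomputable def lits (X : Set ℕ) (t k : ℕ) : List ℕ :=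
  (List.range t).map fun u => if sup u ≤ k then (if u ∈ X then 2 * u + 1 else 2 * u) else 1

/-! ### Types -/

section types
variable {M : Type} [CommSemiring M] [LinearOrder M]

open Classical in
/-- the value of the beta function -/
noncomputable def bt (a c : M) (i : ℕ) : M :=
  if h : ∃ v, Beta a c (i : M) v then h.choose else 0

/-- the value of a term code at a sequence -/
noncomputable def hat (x : ℕ → M) (j : ℕ) : M :=
  if h : j % 2 = 0 then x (j / 2)
  else bt (hat x (j / 2).unpair.1) (hat x (j / 2).unpair.2.unpair.1) (j / 2).unpair.2.unpair.2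
termination_by j
decreasing_by
  · exact tc_lt1 h
  · exact tc_lt2 h

/-- the sequence `y` satisfies the constraints (coded by) `c` over `x` -/
def Con (c : ℕ) (y x : ℕ → M) : Prop := ∀ f ∈ lst c, y f.unpair.1 = hat x f.unpair.2

/-- The types of sequences: level `0` is the atomic diagram; a code `z = ⟨c, l⟩` is true at level
`n + 1` if some sequence `y` satisfies the constraints `c` over `x` and the level `n` literals `l`. -/
def Ty [LA.Structure M] : ℕ → (ℕ → M) → ℕ → Prop
  | 0, x, p => Dg x p = true
  | n + 1, x, z => ∃ y : ℕ → M, Con z.unpair.1 y x ∧ ∀ e ∈ lst z.unpair.2, Lit (Ty n y) e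

/-- `X` gives the level `n` type of the first `k` entries of `x` (for `n ≥ 1`) -/
def IsT [LA.Structure M] (n k : ℕ) (x : ℕ → M) (X : Set ℕ) : Prop :=
  ∀ u, sup u ≤ k → (u ∈ X ↔ Ty n x u)

end types

/-- nonstandard models of Peano arithmetic, with the algebraic operations -/
structure NPA (M : Type) [CommSemiring M] [LinearOrder M] [LA.Structure M] : Prop where
  compat : Compat M
  pa : M ⊨ PA
  nonstd : ∃ x : M, ∀ n : ℕ, (n : M) < x

/-- the standard system: all sets `{n : p_n divides c}` -/
def SSp (M : Type) [CommSemiring M] : Set (Set ℕ) :=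
  {X | ∃ c : M, ∀ n : ℕ, n ∈ X ↔ ((Nat.nth Nat.Prime n : ℕ) : M) ∣ c}

/-! ### Definability calculus -/

section dd
variable {M : Type} [CommSemiring M] [LA.Structure M]

/-- merge a sequence of elements and a sequence of standard numbers -/
def mix (x : ℕ → M) (ν : ℕ → ℕ) : ℕ → M := fun i => if i % 2 = 0 then x (i / 2) else (ν (i / 2) : M)

/-- `Q` is a predicate of elements and standard numbers given by one formula -/
def DD (Q : (ℕ → M) → (ℕ → ℕ) → Prop) : Prop :=
  ∃ R : (ℕ → M) → Prop, Dfn R ∧ ∀ x ν, R (mix x ν) ↔ Q x ν

/-- `f` is a representable function of standard numbers -/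
def RF (M : Type) [CommSemiring M] [LA.Structure M] (f : (ℕ → ℕ) → ℕ) : Prop :=
  DD (M := M) fun x ν => x 0 = (f ν : M)

end dd

end Pool.Agent.KS6_47.SJ.JC
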