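import Pool.Agent.KS6_47.SJ.JC.StepN
import Pool.Agent.KS6_47.SJ.JC.P_PRIM

/-!
Step N: computability and assembly.
-/

set_option autoImplicit false

open FirstOrder FirstOrder.Language Pool.Agent.KS6_47.SJ.H227.EN

namespace Pool.Agent.KS6_47.SJ.JC.StepN

open Pool.Agent.KS6_47.SJ.H578.JD Pool.Agent.KS6_47.SJ.H578.JD.Oracle Pool.Agent.KS6_47.SJ.H578.JD.Defs
open Pool.Agent.KS6_47.SJ.H578.JD.RE

theorem prim_idc : Primrec idc := by
  have := prim_con (α := Unit) (w := fun _ i => 2 * i) (by unfold Primrec₂; fun_prop)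
  exact this.comp (g := fun m : ℕ => ((), m)) (by fun_prop)

theorem prim_Fst : Primrec fun p : ℕ × ℕ => Fst p.1 p.2 := by
  unfold Fst
  refine prim_cod.comp (pr_append (pr_map (by fun_prop) (by fun_prop)) (by fun_prop))

theorem prim_lfe : Primrec fun p : ℕ × ℕ => lfe p.1 p.2 := by
  unfold lfe
  have h : Primrec fun p : ℕ × ℕ => lft p.1 p.2 := prim_lft
  refine pr_add (pr_mul (by fun_prop) ?_) (by fun_prop)
  exact h.comp (g := fun p : ℕ × ℕ => (p.1, p.2 / 2)) (by fun_prop)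

theorem prim_hN : Primrec fun p : ℕ × (ℕ × ℕ) => hN p.1 p.2.1 p.2.2 := by
  unfold hN
  refine pr_natpair (by fun_prop) (prim_cod.comp (pr_append (prim_lst.comp (by fun_prop)) ?_))
  refine pr_map (prim_lst.comp (by fun_prop)) ?_
  exact prim_lfe.comp (g := fun p : (ℕ × (ℕ × ℕ)) × ℕ => (p.1.1.unpair.2, p.2)) (by fun_prop)

theorem prim_hX : Primrec fun p : ℕ × (ℕ × ℕ) => hX p.1 p.2.1 p.2.2 := by
  unfold hX
  exact pr_natpair (by fun_prop) (prim_cod.comp (pr_append (prim_lst.comp (by fun_prop))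
    (prim_lst.comp (by fun_prop))))

theorem prim_wz : Primrec₂ fun (a : (List ℕ × (ℕ × (ℕ × ℕ))) × (ℕ × ℕ)) (t : ℕ) =>
    wz a.1.1 a.1.2.1 a.1.2.2.1 a.1.2.2.2 a.2.1 a.2.2 t := by
  unfold wz Primrec₂
  refine pr_ite_lt (by fun_prop) (by fun_prop) (by fun_prop) (pr_ite_eq (by fun_prop) (by fun_prop)
    (by fun_prop) ?_)
  unfold bterm
  fun_prop

theorem prim_pm : Primrec fun p : List Ent × ℕ => pm p.1 p.2 := by
  unfold pm
  exact pr_ite_eq (by fun_prop) (by fun_prop) (by fun_prop) (by fun_prop)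

theorem prim_xs : Primrec fun p : List Ent × ℕ => xs p.1 p.2 := by
  unfold xs
  fun_prop

theorem prim_ys : Primrec fun p : List Ent × ℕ => ys p.1 p.2 := by
  unfold ys
  fun_prop

theorem prim_piN : Primrec fun p : List ℕ × (ℕ × (ℕ × ℕ)) => piN p.1 p.2.1 p.2.2 := by
  unfold piN
  refine pr_pair (by fun_prop) (pr_cons (pr_pair (pr_natpair ?_ (by fun_prop)) (by fun_prop))
    (by fun_prop))
  exact prim_Fst.comp (g := fun p : List ℕ × (ℕ × (ℕ × ℕ)) => (p.1.length, max p.2.2.1 p.1.length))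
    (by fun_prop)

theorem prim_piX (x0 : ℕ) : Primrec fun p : List Ent × (ℕ × ℕ) => piX x0 p.1 p.2 := by
  unfold piX lev
  refine pr_pair (by fun_prop) (pr_map (pr_cons (by fun_prop) (pr_map (by fun_prop)
    (by fun_prop))) ?_)
  exact pr_pair (prim_idc.comp (by fun_prop)) (by fun_prop)

/-- bound for names -/
def bd (Y : List ℕ) : ℕ := Y.foldr (fun a b => max (a + 1) b) 1

theorem prim_bd : Primrec bd := by
  unfold bd
  exact pr_foldr (f := fun Y : List ℕ => Y) (g := fun _ => 1) (h := fun _ a b => max (a + 1) b)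
    (by fun_prop) (by fun_prop) (by fun_prop)

theorem one_le_bd (Y : List ℕ) : 1 ≤ bd Y := by
  unfold bd
  induction Y with
  | nil => simp
  | cons a Y ih => rw [List.foldr_cons]; exact ih.trans (le_max_right _ _)

theorem lt_bd (Y : List ℕ) (i : ℕ) : Y.getD i 0 + 1 ≤ bd Y := by
  induction Y generalizing i with
  | nil => simp [bd]
  | cons a Y ih =>
    have h0 : bd (a :: Y) = max (a + 1) (bd Y) := rfl
    rw [h0]
    cases i with
    | zero => simp
    | succ i =>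
      have := ih i
      simp only [List.getD_cons_succ]
      omega

section
variable {M : Type} [CommSemiring M] [LinearOrder M] [LA.Structure M]
variable {B : Set ℕ} {n x0 : ℕ} {C : ℕ → M} {q : ℕ → ℕ}

/-- comparison of the index `x` with the index `a` at renamed codes -/
def Cmp (B : Set ℕ) (x m a : ℕ) (Y : List ℕ) : Prop :=
  ∀ u, sup u ≤ m → (u ∈ Rw B x ↔ sb (fun i => 2 * Y.getD i 0) u ∈ Rw B a)

theorem isT_names (hq : ∀ k, IsT (n + 2) k C (Rw B (q k))) (x m : ℕ) (Y : List ℕ) :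
    IsT (n + 2) m (nmY C Y) (Rw B x) ↔ Cmp B x m (q (bd Y)) Y := by
  unfold IsT Cmp nmY
  refine forall₂_congr fun u hu => ?_
  rw [hat_names C (fun i => Y.getD i 0), Ty_sb]
  rw [← hq (bd Y) _ (sup_sb_le fun i _ => by rw [mv_var]; exact lt_bd Y i)]

/-- soundness in terms of indices -/
def SndI (B : Set ℕ) (Y : List ℕ) (i l j1 j2 a : ℕ) : Prop :=
  ∀ p E : ℕ, Y.length ≤ p → Nat.pair (Fst Y.length p) E ∈ Rw B i →
    ∀ e ∈ lst E, (sb (wz Y l j1 j2 p (Nat.pair (Fst Y.length p) E)) (e / 2) ∈ Rw B a ↔ e % 2 = 1)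

/-- bound for the names in soundness -/
def bd2 (Y : List ℕ) (l j1 j2 : ℕ) : ℕ := bd Y + (l + 1) + (j1 + 1) + (j2 + 1)

theorem snd_iff (hq : ∀ k, IsT (n + 2) k C (Rw B (q k))) (Y : List ℕ) (i l j1 j2 : ℕ) :
    Snd B n C Y i l j1 j2 ↔ SndI B Y i l j1 j2 (q (bd2 Y l j1 j2)) := by
  unfold Snd SndI
  refine forall₂_congr fun p E => forall₂_congr fun _ _ => forall₂_congr fun e _ => ?_
  unfold Lit
  rw [Ty_sb]
  rw [← hq (bd2 Y l j1 j2) _ (sup_sb_le fun t _ => ?_)]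
  unfold wz bd2
  by_cases ht : t < Y.length
  · rw [if_pos ht, mv_var]; have := lt_bd Y t; omega
  · rw [if_neg ht]
    by_cases htp : t = p
    · rw [if_pos htp, mv_var]; omega
    · rw [if_neg htp, mv_bterm, mv_var, mv_var]; omega

theorem dec_Cmp : DecIn (jump B) fun p : (ℕ × (ℕ × ℕ)) × List ℕ =>
    Cmp B p.1.1 p.1.2.1 p.1.2.2 p.2 := by
  unfold Cmp
  refine DecIn.all_jump (S := fun (p : (ℕ × (ℕ × ℕ)) × List ℕ) u => sup u ≤ p.1.2.1 →
    (u ∈ Rw B p.1.1 ↔ sb (fun i => 2 * p.2.getD i 0) u ∈ Rw B p.1.2.2)) ?_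
  refine DecIn.imp (DecIn.le ?_ (by fun_prop)) (DecIn.iff (ci_row (by fun_prop) (by fun_prop))
    (ci_row (by fun_prop) ?_))
  · exact CompIn.comp_of prim_sup.to_comp (by fun_prop)
  · have h := prim_sb (α := List ℕ) (w := fun Y i => 2 * Y.getD i 0) (by unfold Primrec₂; fun_prop)
    exact CompIn.comp_of h.to_comp (g := fun x : ((ℕ × (ℕ × ℕ)) × List ℕ) × ℕ => (x.1.2, x.2))
      (by fun_prop)

theorem dec_SndI : DecIn (jump B) fun p : (List ℕ × (ℕ × (ℕ × ℕ))) × (ℕ × ℕ) =>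
    SndI B p.1.1 p.2.1 p.1.2.1 p.1.2.2.1 p.1.2.2.2 p.2.2 := by
  unfold SndI
  have h1 : DecIn (jump B) fun y : (List ℕ × (ℕ × (ℕ × ℕ))) × (ℕ × ℕ) => ∀ z : ℕ × ℕ,
      y.1.1.length ≤ z.1 → Nat.pair (Fst y.1.1.length z.1) z.2 ∈ Rw B y.2.1 →
      ∀ e ∈ lst z.2, (sb (wz y.1.1 y.1.2.1 y.1.2.2.1 y.1.2.2.2 z.1
        (Nat.pair (Fst y.1.1.length z.1) z.2)) (e / 2) ∈ Rw B y.2.2 ↔ e % 2 = 1) := by
    refine DecIn.all_jump (S := fun (y : (List ℕ × (ℕ × (ℕ × ℕ))) × (ℕ × ℕ)) (z : ℕ × ℕ) =>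
      y.1.1.length ≤ z.1 → Nat.pair (Fst y.1.1.length z.1) z.2 ∈ Rw B y.2.1 →
      ∀ e ∈ lst z.2, (sb (wz y.1.1 y.1.2.1 y.1.2.2.1 y.1.2.2.2 z.1
        (Nat.pair (Fst y.1.1.length z.1) z.2)) (e / 2) ∈ Rw B y.2.2 ↔ e % 2 = 1)) ?_
    have hF : Primrec fun x : ((List ℕ × (ℕ × (ℕ × ℕ))) × (ℕ × ℕ)) × (ℕ × ℕ) =>
        Nat.pair (Fst x.1.1.1.length x.2.1) x.2.2 := by
      refine pr_natpair ?_ (by fun_prop)
      exact prim_Fst.comp (g := fun x : ((List ℕ × (ℕ × (ℕ × ℕ))) × (ℕ × ℕ)) × (ℕ × ℕ) =>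
        (x.1.1.1.length, x.2.1)) (by fun_prop)
    refine DecIn.imp (DecIn.le (by fun_prop) (by fun_prop)) (DecIn.imp
      (ci_row (by fun_prop) (CompIn.of_comp hF.to_comp)) ?_)
    refine DecIn.all_mem (S := fun (x : ((List ℕ × (ℕ × (ℕ × ℕ))) × (ℕ × ℕ)) × (ℕ × ℕ)) e =>
      (sb (wz x.1.1.1 x.1.1.2.1 x.1.1.2.2.1 x.1.1.2.2.2 x.2.1
        (Nat.pair (Fst x.1.1.1.length x.2.1) x.2.2)) (e / 2) ∈ Rw B x.1.2.2 ↔ e % 2 = 1)) ?_
      (CompIn.of_comp (prim_lst.to_comp.comp (by fun_prop)))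
    refine DecIn.iff (ci_row (by fun_prop) ?_) (DecIn.eq ?_ (by fun_prop))
    · have h := prim_sb prim_wz
      have h2 : Primrec fun y : (((List ℕ × (ℕ × (ℕ × ℕ))) × (ℕ × ℕ)) × (ℕ × ℕ)) × ℕ =>
          ((y.1.1.1, (y.1.2.1, Nat.pair (Fst y.1.1.1.1.length y.1.2.1) y.1.2.2)), y.2 / 2) := by
        refine pr_pair (pr_pair (by fun_prop) (pr_pair (by fun_prop) ?_)) (by fun_prop)
        exact hF.comp (g := fun y : (((List ℕ × (ℕ × (ℕ × ℕ))) × (ℕ × ℕ)) × (ℕ × ℕ)) × ℕ => y.1)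
          (by fun_prop)
      exact CompIn.of_comp (h.comp h2).to_comp
    · have h2 : Primrec fun y : (((List ℕ × (ℕ × (ℕ × ℕ))) × (ℕ × ℕ)) × (ℕ × ℕ)) × ℕ =>
          y.2 % 2 := by fun_prop
      exact CompIn.of_comp h2.to_comp
  refine h1.of_eq fun y => ?_
  constructor
  · intro h p E; exact h (p, E)
  · intro h z; exact h z.1 z.2

/-- `G` in terms of indices -/
theorem G_iff (hq : ∀ k, IsT (n + 2) k C (Rw B (q k))) (χ : List Ent) (j : ℕ) :
    G B n C χ j ↔ ((Denumerable.ofNat Adv j).1.length = pm χ χ.length ∧ ∀ t < χ.length,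
      (ys χ t = (Denumerable.ofNat Adv j).1.take (pm χ t) ∧ pm χ t < pm χ (t + 1) ∧
        pm χ (t + 1) ≤ (Denumerable.ofNat Adv j).1.length ∧
        (Denumerable.ofNat Adv j).1.getD (pm χ (t + 1) - 1) 0 = t) ∧
      Cmp B (xs χ t) (pm χ (t + 1)) (q (bd (Denumerable.ofNat Adv j).1))
        (Denumerable.ofNat Adv j).1) ∧
      SndI B (Denumerable.ofNat Adv j).1 (Denumerable.ofNat Adv j).2.1 χ.length
        (Denumerable.ofNat Adv j).2.2.1 (Denumerable.ofNat Adv j).2.2.2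
        (q (bd2 (Denumerable.ofNat Adv j).1 χ.length (Denumerable.ofNat Adv j).2.2.1
          (Denumerable.ofNat Adv j).2.2.2)) := by
  unfold G TrY
  rw [snd_iff hq]
  simp only [isT_names hq]

theorem dec_G {A : Set ℕ} (hA : Red (jump B) A) (hqc : CompIn A q)
    (hq : ∀ k, IsT (n + 2) k C (Rw B (q k))) :
    DecIn A fun p : List Ent × ℕ => G B n C p.1 p.2 := by
  have hof : Primrec fun p : List Ent × ℕ => (Denumerable.ofNat Adv p.2 : Adv) :=
    (Primrec.ofNat Adv).comp Primrec.snd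
  have hof2 : CompIn A fun p : List Ent × ℕ => (p.1, (Denumerable.ofNat Adv p.2 : Adv)) :=
    CompIn.of_comp (Primrec.pair Primrec.fst hof).to_comp
  have hbd : CompIn A bd := CompIn.of_comp prim_bd.to_comp
  have hbd2 : CompIn A fun y : List Ent × Adv => q (bd2 y.2.1 y.1.length y.2.2.2.1 y.2.2.2.2) := by
    unfold bd2
    refine hqc.comp ?_
    fun_prop
  have key : DecIn A fun y : List Ent × Adv => (y.2.1.length = pm y.1 y.1.length ∧
      ∀ t < y.1.length, (ys y.1 t = y.2.1.take (pm y.1 t) ∧ pm y.1 t < pm y.1 (t + 1) ∧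
        pm y.1 (t + 1) ≤ y.2.1.length ∧ y.2.1.getD (pm y.1 (t + 1) - 1) 0 = t) ∧
      Cmp B (xs y.1 t) (pm y.1 (t + 1)) (q (bd y.2.1)) y.2.1) ∧
      SndI B y.2.1 y.2.2.1 y.1.length y.2.2.2.1 y.2.2.2.2
        (q (bd2 y.2.1 y.1.length y.2.2.2.1 y.2.2.2.2)) := by
    refine DecIn.and (DecIn.and (DecIn.eq (by fun_prop) ?_) ?_) ?_
    · have : Primrec fun y : List Ent × Adv => pm y.1 y.1.length :=
        prim_pm.comp (g := fun y : List Ent × Adv => (y.1, y.1.length)) (by fun_prop)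
      exact CompIn.of_comp this.to_comp
    · have hpm : Primrec fun y : (List Ent × Adv) × ℕ => pm y.1.1 y.2 :=
        prim_pm.comp (g := fun y : (List Ent × Adv) × ℕ => (y.1.1, y.2)) (by fun_prop)
      have hpm1 : Primrec fun y : (List Ent × Adv) × ℕ => pm y.1.1 (y.2 + 1) :=
        prim_pm.comp (g := fun y : (List Ent × Adv) × ℕ => (y.1.1, y.2 + 1)) (by fun_prop)
      have hxs : Primrec fun y : (List Ent × Adv) × ℕ => xs y.1.1 y.2 :=
        prim_xs.comp (g := fun y : (List Ent × Adv) × ℕ => (y.1.1, y.2)) (by fun_prop)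
      have hys : Primrec fun y : (List Ent × Adv) × ℕ => ys y.1.1 y.2 :=
        prim_ys.comp (g := fun y : (List Ent × Adv) × ℕ => (y.1.1, y.2)) (by fun_prop)
      refine DecIn.all_lt (S := fun (y : List Ent × Adv) t =>
        (ys y.1 t = y.2.1.take (pm y.1 t) ∧ pm y.1 t < pm y.1 (t + 1) ∧
        pm y.1 (t + 1) ≤ y.2.1.length ∧ y.2.1.getD (pm y.1 (t + 1) - 1) 0 = t) ∧
        Cmp B (xs y.1 t) (pm y.1 (t + 1)) (q (bd y.2.1)) y.2.1) ?_ (by fun_prop)
      refine DecIn.and (DecIn.and (DecIn.eq (CompIn.of_comp hys.to_comp) (CompIn.of_comp ?_))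
        (DecIn.and (DecIn.lt (CompIn.of_comp hpm.to_comp) (CompIn.of_comp hpm1.to_comp))
        (DecIn.and (DecIn.le (CompIn.of_comp hpm1.to_comp) (by fun_prop))
        (DecIn.eq (CompIn.of_comp ?_) (by fun_prop))))) ?_
      · exact (pr_take hpm (by fun_prop)).to_comp
      · exact (pr_getD 0 (f := fun y : (List Ent × Adv) × ℕ => y.1.2.1)
          (g := fun y : (List Ent × Adv) × ℕ => pm y.1.1 (y.2 + 1) - 1) (by fun_prop)
          (pr_sub hpm1 (by fun_prop))).to_comp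
      · refine DecIn.comp (f := fun y : (List Ent × Adv) × ℕ =>
          ((xs y.1.1 y.2, (pm y.1.1 (y.2 + 1), q (bd y.1.2.1))), y.1.2.1)) (dec_Cmp.mono hA) ?_
        refine CompIn.pair (CompIn.pair (CompIn.of_comp hxs.to_comp)
          (CompIn.pair (CompIn.of_comp hpm1.to_comp) ?_)) (by fun_prop)
        exact hqc.comp (hbd.comp (by fun_prop))
    · exact DecIn.comp (f := fun y : List Ent × Adv => ((y.2.1, (y.1.length, (y.2.2.2.1, y.2.2.2.2))),
          (y.2.2.1, q (bd2 y.2.1 y.1.length y.2.2.2.1 y.2.2.2.2)))) (dec_SndI.mono hA)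
          (CompIn.pair (by fun_prop) (CompIn.pair (by fun_prop) hbd2))
  refine (DecIn.comp key hof2).of_eq fun p => ?_
  rw [G_iff hq]

end

theorem prf_stepN : S_stepN := by
  intro M _ _ _ _ _ hM _ hP hFI _ B hB n ⟨C, q, hC, hqc, hq⟩
  have hBO : Red (jump B) (jump^[n + 1] B) := by
    have := red_jump_iter_le B (m := 1) (n := n + 1) (by omega)
    simpa using this
  have hJO : Red (jump B) (jump^[n + 2] B) := by
    have := red_jump_iter_le B (m := 1) (n := n + 2) (by omega)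
    simpa using this
  have h0 : IsT (n + 2) 0 C (Rw B (q 0)) := hq 0
  obtain ⟨fN, hfN, hfN1, hfN2⟩ := hP.decs B hB hN prim_hN
  obtain ⟨fX, hfX, hfX1, hfX2⟩ := hP.decs B hB hX prim_hX
  -- index of the type of the empty tuple
  obtain ⟨X0, hX0, hX0T⟩ := hP.types n 0 C
  obtain ⟨r0, rfl⟩ := (hB _).1 hX0
  let N : List Ent → ℕ → ℕ × ℕ → Option Ent := fun _ j σ =>
    (fN (piN (Denumerable.ofNat Adv j).1 (Denumerable.ofNat Adv j).2.1 σ)).map fun x =>
      ((Denumerable.ofNat Adv j).1, (max σ.1 (Denumerable.ofNat Adv j).1.length + 1, x))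
  let X : List Ent → ℕ × ℕ → Option (ℕ × ℕ) := fun χ σ =>
    (fX (piX (q 0) χ σ)).map fun r => (σ.1 + 1, r)
  have hNc : CompIn (jump^[n + 1] B) fun p : List Ent × (ℕ × (ℕ × ℕ)) => N p.1 p.2.1 p.2.2 := by
    have h1 : Primrec fun p : List Ent × (ℕ × (ℕ × ℕ)) => (Denumerable.ofNat Adv p.2.1 : Adv) :=
      (Primrec.ofNat Adv).comp (by fun_prop)
    have h2 : Primrec fun p : List Ent × (ℕ × (ℕ × ℕ)) => piN (Denumerable.ofNat Adv p.2.1).1
        (Denumerable.ofNat Adv p.2.1).2.1 p.2.2 :=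
      prim_piN.comp (g := fun p : List Ent × (ℕ × (ℕ × ℕ)) => ((Denumerable.ofNat Adv p.2.1).1,
        ((Denumerable.ofNat Adv p.2.1).2.1, p.2.2))) (by fun_prop)
    have h3 : CompIn (jump^[n + 1] B) fun p : List Ent × (ℕ × (ℕ × ℕ)) =>
        ((p, (Denumerable.ofNat Adv p.2.1 : Adv)), fN (piN (Denumerable.ofNat Adv p.2.1).1
        (Denumerable.ofNat Adv p.2.1).2.1 p.2.2)) :=
      CompIn.pair (CompIn.of_comp (Primrec.pair Primrec.id h1).to_comp)
        ((hfN.mono hBO).comp (CompIn.of_comp h2.to_comp))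
    have h4 : Computable fun y : ((List Ent × (ℕ × (ℕ × ℕ))) × Adv) × Option ℕ =>
        y.2.map fun x => (y.1.2.1, (max y.1.1.2.2.1 y.1.2.1.length + 1, x)) := by
      refine (Primrec.option_map (g := fun (y : ((List Ent × (ℕ × (ℕ × ℕ))) × Adv) × Option ℕ)
        (x : ℕ) => (y.1.2.1, (max y.1.1.2.2.1 y.1.2.1.length + 1, x))) (by fun_prop) ?_).to_comp
      unfold Primrec₂
      fun_prop
    exact CompIn.comp_of h4 h3
  have hXc : CompIn (jump^[n + 1] B) fun p : List Ent × (ℕ × ℕ) => X p.1 p.2 := by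
    have h3 : CompIn (jump^[n + 1] B) fun p : List Ent × (ℕ × ℕ) =>
        (p, fX (piX (q 0) p.1 p.2)) :=
      CompIn.pair (by fun_prop) ((hfX.mono hBO).comp (CompIn.of_comp (prim_piX (q 0)).to_comp))
    have h4 : Computable fun y : (List Ent × (ℕ × ℕ)) × Option ℕ =>
        y.2.map fun x => (y.1.2.1 + 1, x) := by
      refine (Primrec.option_map (g := fun (y : (List Ent × (ℕ × ℕ)) × Option ℕ)
        (x : ℕ) => (y.1.2.1 + 1, x)) (by fun_prop) ?_).to_comp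
      unfold Primrec₂
      fun_prop
    exact CompIn.comp_of h4 h3
  have hGd : DecIn (jump (jump^[n + 1] B)) fun p : List Ent × ℕ => G B n C p.1 p.2 := by
    rw [← Function.iterate_succ_apply' jump (n + 1) B]
    exact dec_G hJO hqc hq
  obtain ⟨σ, c, hσc, hσ0, hσ1, hc⟩ := hFI Ent (ℕ × ℕ) (jump^[n + 1] B) (G B n C) hGd N hNc X hXc
    (fun χ => ∃ Y, TrY B n C χ Y) (Cs B (q 0)) (0, r0)
    ⟨[], rfl, fun t ht => absurd ht (Nat.not_lt_zero t)⟩
    (by
      intro l hl t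
      have hl' : l = (0, q 0) := by simpa [lev] using hl
      subst hl'
      exact (mem_F1 h0 _).2 ⟨C, fun _ _ => rfl, isT_iff.1 hX0T t⟩)
    (by
      rintro χ j σ e - ⟨hT, hS⟩ hσ hN
      obtain ⟨x', hx', rfl⟩ := Option.map_eq_some_iff.1 hN
      exact cond2 hP hB hC hT hS hσ (hfN1 _ _ hx'))
    (by
      rintro χ ⟨Y, hT⟩
      obtain ⟨i, j1, j2, h1, h2⟩ := cond3 hP hB hC h0 hT
      refine ⟨Encodable.encode ((Y, (i, (j1, j2))) : Adv), ?_, fun σ hσ => ?_⟩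
      · unfold G
        rw [Denumerable.ofNat_encode]
        exact ⟨hT, h1⟩
      · have := hfN2 _ (h2 σ hσ)
        show (Option.map _ _).isSome
        rw [Denumerable.ofNat_encode]
        simpa using this)
    (by
      rintro χ σ ⟨Y, hT⟩ hσ
      have := hfX2 _ (cond4 hP hB h0 hT hσ)
      show (Option.map _ _).isSome
      simpa using this)
    (by
      rintro χ0 χ σ σ' ⟨Y, hT⟩ hpre _ hX
      obtain ⟨r, hr, rfl⟩ := Option.map_eq_some_iff.1 hX
      exact cond4' h0 hT hpre (hfX1 _ _ hr))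
  obtain ⟨g, hg, hgT⟩ := final hC h0 σ c (by rw [hσ0]) (fun s => by
    obtain ⟨-, χ, h⟩ := hσ1 s
    obtain ⟨r, hr, he⟩ := Option.map_eq_some_iff.1 h
    refine ⟨χ, ?_, ?_⟩
    · rw [← he]; exact hfX1 _ _ hr
    · rw [← he]) hc
  exact ⟨g, fun k => (σ k).2, hg, by fun_prop, hgT⟩

end Pool.Agent.KS6_47.SJ.JC.StepN
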