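import Pool.Agent.KS6_47.SJ.JC.P_STEPK
import Pool.Agent.KS6_47.SJ.JC.P_STEPN
import Pool.Agent.KS6_47.SJ.JC.P_STEP0

/-!
Step K relative to an arbitrary oracle `O`: it is enough that `O` computes the atomic diagram and the
level `n` facts of one enumeration of the model, and the enumeration `B` of the standard system.
-/

set_option autoImplicit false

open FirstOrder FirstOrder.Language Pool.Agent.KS6_47.SJ.H227.EN

namespace Pool.Agent.KS6_47.SJ.JC

open Pool.Agent.KS6_47.SJ.H578.JD Pool.Agent.KS6_47.SJ.H578.JD.Oracle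
open Pool.Agent.KS6_47.SJ.H578.JD.Defs

theorem stepK_gen (M : Type) [CommSemiring M] [LinearOrder M] [IsStrictOrderedRing M]
    [CanonicallyOrderedAdd M] [LA.Structure M] (hprim : S_prim) (hP : Pack M)
    (C : ℕ → M) (hC : Function.Surjective C) (O B : Set ℕ) (hE : Enum B (SSp M))
    (heq : DecIn O fun p : ℕ × ℕ => C p.1 = C p.2)
    (hnm : ∃ nm : ℕ → ℕ, CompIn O nm ∧ ∀ j, C (nm j) = hat C j)
    (n : ℕ) (hty : DecIn O fun u => Ty n C u) (hB : Red B O) :
    ∃ q : ℕ → ℕ, CompIn (jump O) q ∧ ∀ k, IsT (n + 1) k C (Rw B (q k)) := by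
  obtain ⟨nm, hnmO, hn⟩ := hnm
  have hW : DecIn O fun p : List ℕ × ℕ => TyjW n C nm p.1 p.2 :=
    TyjW_dec hprim hty heq hnmO
  -- the condition
  let S : ℕ × ℕ → ℕ × List ℕ → Prop := fun x y => sup y.1 ≤ x.1 →
    (y.1 ∈ Rw B x.2.unpair.1 →
      TyjW n C nm (stepK_wl nm x.2.unpair.2.unpair.1 x.2.unpair.2.unpair.2 y.1) y.1) ∧
    (y.1 ∉ Rw B x.2.unpair.1 → ¬ TyjW n C nm y.2 y.1)
  have hS : DecIn O fun x : (ℕ × ℕ) × (ℕ × List ℕ) => S x.1 x.2 := by
    have hsup : CompIn O fun x : (ℕ × ℕ) × (ℕ × List ℕ) => sup x.2.1 :=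
      CompIn.comp_of (f := sup) hprim.2.2.2.1.to_comp (by fun_prop)
    have hrow : DecIn O fun x : (ℕ × ℕ) × (ℕ × List ℕ) => x.2.1 ∈ Rw B x.1.2.unpair.1 :=
      (ci_row (A := B) (f := fun x : (ℕ × ℕ) × (ℕ × List ℕ) => x.1.2.unpair.1)
        (g := fun x => x.2.1) (by fun_prop) (by fun_prop)).mono hB
    refine DecIn.imp (DecIn.le hsup (by fun_prop)) (DecIn.and (DecIn.imp hrow ?_)
      (DecIn.imp hrow.not ?_))
    · have h1 : CompIn O fun x : (ℕ × ℕ) × (ℕ × List ℕ) =>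
          stepK_wl nm x.1.2.unpair.2.unpair.1 x.1.2.unpair.2.unpair.2 x.2.1 :=
        (stepK_wl_comp hnmO).comp (g := fun x : (ℕ × ℕ) × (ℕ × List ℕ) =>
          (x.1.2.unpair.2.unpair.1, (x.1.2.unpair.2.unpair.2, x.2.1))) (by fun_prop)
      exact hW.comp (f := fun x : (ℕ × ℕ) × (ℕ × List ℕ) =>
        (stepK_wl nm x.1.2.unpair.2.unpair.1 x.1.2.unpair.2.unpair.2 x.2.1, x.2.1))
        (CompIn.pair h1 (by fun_prop))
    · exact (hW.comp (f := fun x : (ℕ × ℕ) × (ℕ × List ℕ) => (x.2.2, x.2.1))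
        (by fun_prop)).not
  have hall : DecIn (jump O) fun x : ℕ × ℕ => ∀ y : ℕ × List ℕ, S x y := DecIn.all_jump hS
  -- existence
  have hex : ∀ k : ℕ, ∃ m : ℕ, ∀ y : ℕ × List ℕ, S (k, m) y := by
    intro k
    obtain ⟨X, hX, hXT⟩ := hP.types n k C
    obtain ⟨i, rfl⟩ := (hE X).1 hX
    obtain ⟨a, c, hac⟩ := hP.skol n k C
    obtain ⟨j1, hj1⟩ := hC a
    obtain ⟨j2, hj2⟩ := hC c
    refine ⟨Nat.pair i (Nat.pair j1 j2), ?_⟩
    rintro ⟨z, w⟩ hz
    simp only [Nat.unpair_pair] at hz ⊢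
    refine ⟨fun hzi => ?_, fun hzi hw => hzi ((hXT z hz).2 (TyjW_sound hn hw))⟩
    obtain ⟨h1, h2⟩ := hac z hz ((hXT z hz).1 hzi)
    refine TyjW_of hn h1 h2 _ fun t _ => ?_
    rw [hn, hat_bterm, hat_var, hat_var, hj1, hj2]
  obtain ⟨m, hm, hmS⟩ := CompIn.find (A := jump O) (P := fun k m => ∀ y : ℕ × List ℕ, S (k, m) y)
    hall hex
  refine ⟨fun k => (m k).unpair.1, ?_, fun k u hu => ?_⟩
  · exact ci_fst (ci_unpair hm)
  · have h1 := (hmS k).1
    constructor
    · intro hmem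
      exact TyjW_sound hn ((h1 (u, []) hu).1 hmem)
    · intro hty
      by_contra hmem
      obtain ⟨w, hw⟩ := TyjW_complete hC hn hty
      exact (h1 (u, w) hu).2 hmem hw

/-- the main construction, from the level `n` facts of one enumeration of the model which are
decidable in the `n`-th jump of `B` -/
theorem main_gen (hbt : S_bt) (hprim : S_prim) (hfi : S_fi) (hclits : S_clits) (hnames : S_names)
    (hinj : S_inj) (hcode : S_code)
    (M : Type) [CommSemiring M] [LinearOrder M] [IsStrictOrderedRing M] [CanonicallyOrderedAdd M]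
    [LA.Structure M] (hM : NPA M) (hP : Pack M) (C : ℕ → M) (hC : Function.Surjective C)
    (B : Set ℕ) (hB : Enum B (SSp M)) (n : ℕ)
    (hA : DecIn (jump^[n] B) fun p => Dg C p = true)
    (hty : DecIn (jump^[n] B) fun u => Ty n C u) :
    ∃ g : ℕ → M, Function.Bijective g ∧ (DecIn B fun p => Dg g p = true) ∧
      Red B {p | Dg g p = true} := by
  obtain ⟨heq, hnm⟩ := hnames M hM hbt C hC (jump^[n] B) hA
  obtain ⟨q, hq, hqT⟩ := stepK_gen M hprim hP C hC (jump^[n] B) B hB heq hnm n hty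
    (red_self_jump_iter B n)
  have key : ∀ m, m ≤ n → ∃ (C : ℕ → M) (q : ℕ → ℕ), Function.Surjective C ∧
      CompIn (jump^[n - m + 1] B) q ∧ ∀ k, IsT (n - m + 1) k C (Rw B (q k)) := by
    intro m
    induction m with
    | zero =>
      intro _
      refine ⟨C, q, hC, ?_, hqT⟩
      rw [Nat.sub_zero, Function.iterate_succ_apply']
      exact hq
    | succ m ih =>
      intro hm
      have e : n - m = n - (m + 1) + 1 := by omega
      have h3 := ih (by omega)
      rw [e] at h3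
      exact StepN.prf_stepN M hM hprim hP hfi hclits B hB (n - (m + 1)) h3
  have h3 := key n le_rfl
  rw [Nat.sub_self] at h3
  exact hcode M hM B (hinj M hM B (Step0.prf_step0 M hM hprim hP hfi hclits B hB h3))

end Pool.Agent.KS6_47.SJ.JC
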