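import Pool.Agent.KS6_47.SJ.JC.MixL

/-!
# CALC1: logical closure properties of DD
-/

set_option autoImplicit false

open FirstOrder FirstOrder.Language Pool.Agent.KS6_47.SJ.H227.EN

namespace Pool.Agent.KS6_47.SJ.JC

section
variable {M : Type} [CommSemiring M] [LinearOrder M] [LA.Structure M]

omit [LinearOrder M] in
theorem CALC1_not {Q : (ℕ → M) → (ℕ → ℕ) → Prop} (h : DD Q) : DD fun x ν => ¬ Q x ν := by
  obtain ⟨R, hR, hRQ⟩ := h
  exact ⟨fun x => ¬ R x, dfn_bool.2.1 R hR, fun x ν => not_congr (hRQ x ν)⟩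

omit [LinearOrder M] in
theorem CALC1_exM (Q : (ℕ → M) → (ℕ → ℕ) → M → Prop) (k : ℕ)
    (hQ : ∀ x ν y v, Q (Function.update x k v) ν y ↔ Q x ν y)
    (h : DD (fun x ν => Q x ν (x k))) : DD fun x ν => ∃ y, Q x ν y := by
  obtain ⟨R, hR, hRQ0⟩ := h
  have hRQ : ∀ x ν, R (mix x ν) ↔ Q x ν (x k) := hRQ0
  refine ⟨fun z => ∃ y, R (Function.update z (2 * k) y), mix_dfn_ex hR _, fun x ν => ?_⟩
  refine exists_congr fun y => ?_
  rw [mix_upd_even, hRQ, hQ, Function.update_self]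

theorem CALC1_exLt [IsStrictOrderedRing M] [CanonicallyOrderedAdd M] (hc : Compat M)
    (Q : (ℕ → M) → (ℕ → ℕ) → ℕ → Prop) (k j : ℕ) (hjk : j ≠ k)
    (hQ : ∀ x ν i v, Q x (Function.update ν k v) i ↔ Q x ν i)
    (h : DD (fun x ν => Q x ν (ν k))) : DD fun x ν => ∃ i < ν j, Q x ν i := by
  obtain ⟨R, hR, hRQ0⟩ := h
  have hRQ : ∀ x ν, R (mix x ν) ↔ Q x ν (ν k) := hRQ0
  obtain ⟨tv, -, -, -, -, tl, -⟩ := trm_ops hc
  obtain ⟨-, -, band, -⟩ := dfn_bool (M := M)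
  have hD : Dfn (fun z : ℕ → M => z (2 * k + 1) < z (2 * j + 1) ∧ R z) :=
    band _ _ (tl _ _ (tv _) (tv _)) hR
  refine ⟨_, mix_dfn_ex hD (2 * k + 1), fun x ν => ?_⟩
  constructor
  · rintro ⟨y, hy, hR'⟩
    rw [Function.update_self, Function.update_of_ne (by omega), mix_odd] at hy
    obtain ⟨i, _, rfl⟩ := std_below hc (ν j) y hy.le
    refine ⟨i, by exact_mod_cast hy, ?_⟩
    rw [mix_upd_odd, hRQ, hQ, Function.update_self] at hR'
    exact hR'
  · rintro ⟨i, hi, hQi⟩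
    refine ⟨(i : M), ?_, ?_⟩
    · rw [Function.update_self, Function.update_of_ne (by omega), mix_odd]
      exact_mod_cast hi
    · rw [mix_upd_odd, hRQ, hQ, Function.update_self]
      exact hQi

end

theorem prf_calc1 : S_calc1 := by
  intro M _ _ _ _ _ hM
  have hc := hM.compat
  obtain ⟨tv, -, -, -, te, -, -⟩ := trm_ops hc
  obtain ⟨bc, bn, ba, bo, bi, bf⟩ := dfn_bool (M := M)
  refine
    { const := fun P => ⟨fun _ => P, bc P, fun _ _ => Iff.rfl⟩
      not := fun h => CALC1_not h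
      and := ?_
      or := ?_
      imp := ?_
      iff := ?_
      ren := ?_
      exM := fun Q k hQ h => CALC1_exM Q k hQ h
      allM := ?_
      exLt := fun Q k j hjk hQ h => CALC1_exLt hc Q k j hjk hQ h
      allLt := ?_
      eq := ?_
      eqN := ?_ }
  · rintro Q Q' ⟨R, hR, hRQ⟩ ⟨R', hR', hRQ'⟩
    exact ⟨_, ba R R' hR hR', fun x ν => and_congr (hRQ x ν) (hRQ' x ν)⟩
  · rintro Q Q' ⟨R, hR, hRQ⟩ ⟨R', hR', hRQ'⟩
    exact ⟨_, bo R R' hR hR', fun x ν => or_congr (hRQ x ν) (hRQ' x ν)⟩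
  · rintro Q Q' ⟨R, hR, hRQ⟩ ⟨R', hR', hRQ'⟩
    exact ⟨_, bi R R' hR hR', fun x ν => imp_congr (hRQ x ν) (hRQ' x ν)⟩
  · rintro Q Q' ⟨R, hR, hRQ⟩ ⟨R', hR', hRQ'⟩
    exact ⟨_, bf R R' hR hR', fun x ν => iff_congr (hRQ x ν) (hRQ' x ν)⟩
  · rintro Q α β ⟨R, hR, hRQ⟩
    refine ⟨_, mix_dfn_proj hc hR
      (fun i => if i % 2 = 0 then 2 * α (i / 2) else 2 * β (i / 2) + 1), fun x ν => ?_⟩
    refine Iff.trans ?_ (hRQ (fun i => x (α i)) (fun i => ν (β i)))
    have : (fun i => mix x ν (if i % 2 = 0 then 2 * α (i / 2) else 2 * β (i / 2) + 1)) =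
        mix (fun i => x (α i)) (fun i => ν (β i)) := by
      funext i
      by_cases h : i % 2 = 0
      · rw [if_pos h, mix_even]
        unfold mix
        rw [if_pos h]
      · rw [if_neg h, mix_odd]
        unfold mix
        rw [if_neg h]
    rw [this]
  · intro Q k hQ h
    have h1 := CALC1_not (CALC1_exM (fun x ν y => ¬ Q x ν y) k
      (fun x ν y v => not_congr (hQ x ν y v)) (CALC1_not h))
    simp only [not_exists, not_not] at h1
    exact h1
  · intro Q k j hjk hQ h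
    have h1 := CALC1_not (CALC1_exLt hc (fun x ν i => ¬ Q x ν i) k j hjk
      (fun x ν i v => not_congr (hQ x ν i v)) (CALC1_not h))
    simp only [not_exists, not_and, not_not] at h1
    exact h1
  · intro i j
    refine ⟨fun z => z (2 * i) = z (2 * j), te _ _ (tv _) (tv _), fun x ν => ?_⟩
    show mix x ν (2 * i) = mix x ν (2 * j) ↔ _
    rw [mix_even, mix_even]
  · intro i j
    refine ⟨fun z => z (2 * i) = z (2 * j + 1), te _ _ (tv _) (tv _), fun x ν => ?_⟩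
    show mix x ν (2 * i) = mix x ν (2 * j + 1) ↔ _
    rw [mix_even, mix_odd]

end Pool.Agent.KS6_47.SJ.JC
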