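import Pool.Agent.KS6_47.SJ.JC.Stmts

set_option autoImplicit false

namespace Pool.Agent.KS6_47.SJ.JC

open Pool.Agent.KS6_47.SJ.H578.JD Pool.Agent.KS6_47.SJ.H578.JD.Oracle Pool.Agent.KS6_47.SJ.H578.JD.Defs

theorem prf_clits : S_clits := by
  intro hp B
  obtain ⟨_, _, _, hsup, _, _⟩ := hp
  have hs : Computable sup := hsup.to_comp
  have h1 : CompIn B fun x : (ℕ × (ℕ × ℕ)) × ℕ => sup x.2 :=
    CompIn.comp_of (g := fun x : (ℕ × (ℕ × ℕ)) × ℕ => x.2) hs (by fun_prop)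
  have h2 := CompIn.ite (A := B) (P := fun x : (ℕ × (ℕ × ℕ)) × ℕ => x.2 ∈ Rw B x.1.1)
    (f := fun x => 2 * x.2 + 1) (g := fun x => 2 * x.2)
    (ci_row (f := fun x : (ℕ × (ℕ × ℕ)) × ℕ => x.1.1) (g := fun x => x.2) (by fun_prop)
      (by fun_prop)) (by fun_prop) (by fun_prop)
  have h3 := CompIn.ite (A := B) (P := fun x : (ℕ × (ℕ × ℕ)) × ℕ => sup x.2 ≤ x.1.2.2)
    (g := fun _ => 1) (DecIn.le h1 (by fun_prop)) h2 (by fun_prop)
  have h4 := CompIn.list_map (l := fun p : ℕ × (ℕ × ℕ) => List.range p.2.1) h3 (by fun_prop)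
  refine h4.of_eq fun p => ?_
  unfold lits
  refine List.map_congr_left fun u _ => ?_
  by_cases hk : sup u ≤ p.2.2 <;> simp [hk]

end Pool.Agent.KS6_47.SJ.JC
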