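import Pool.Agent.KS6_47.SJ.JC.Stmts
import Pool.Agent.KS6_47.SJ.H227.ENJ.P_std_below

/-! Task COMPR: comprehension. -/

set_option autoImplicit false

open FirstOrder FirstOrder.Language Pool.Agent.KS6_47.SJ.H227.EN

namespace Pool.Agent.KS6_47.SJ.JC

open Pool.Agent.KS6_47.SJ.H578.JD Pool.Agent.KS6_47.SJ.H578.JD.Oracle Pool.Agent.KS6_47.SJ.H578.JD.Defs

/-- divisibility of standard numbers -/
theorem compr_dvd {M : Type} [CommSemiring M] [LinearOrder M] [IsStrictOrderedRing M]
    [CanonicallyOrderedAdd M] [LA.Structure M] (hM : NPA M) {a b : ℕ} (ha : 0 < a) :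
    (a : M) ∣ (b : M) ↔ a ∣ b := by
  constructor
  · rintro ⟨d, hd⟩
    have hle : d ≤ (b : M) := by
      rw [hd]
      have h1 : (1 : M) ≤ (a : M) := by exact_mod_cast ha
      calc d = 1 * d := (one_mul d).symm
        _ ≤ (a : M) * d := mul_le_mul_left h1 d
    obtain ⟨n, _, hn⟩ := std_below hM.compat b d hle
    rw [hn] at hd
    exact ⟨n, by exact_mod_cast hd⟩
  · rintro ⟨d, rfl⟩
    exact ⟨(d : M), by push_cast; rfl⟩

open Classical in
theorem prf_compr : S_compr := by
  intro M _ _ _ _ _ hM h1 h2 hos Q hQ x ν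
  have hDD : DD (M := M) fun x ν => (((Nat.nth Nat.Prime (ν 0) : ℕ) : M) ∣ x 0 ↔
      Q (fun i => x (i + 2)) (fun i => ν i)) :=
    h1.iff h2.dvd (h1.ren (fun i => i + 2) (fun i => i) hQ)
  obtain ⟨y, z, hyz⟩ := hos M hM _ hDD (fun i => x (i - 2)) ν (by
    intro N
    refine ⟨((∏ v ∈ (Finset.range N).filter (fun v => Q x (Function.update ν 0 v)),
      Nat.nth Nat.Prime v : ℕ) : M), 0, ?_⟩
    intro u hu
    have hx : (fun i : ℕ => Function.update (Function.update (fun i => x (i - 2)) 0
        ((∏ v ∈ (Finset.range N).filter (fun v => Q x (Function.update ν 0 v)),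
          Nat.nth Nat.Prime v : ℕ) : M)) 1 0 (i + 2)) = x := by
      funext i
      rw [Function.update_of_ne (by omega), Function.update_of_ne (by omega)]
      simp
    have h0 : (Function.update (Function.update (fun i => x (i - 2)) 0
        ((∏ v ∈ (Finset.range N).filter (fun v => Q x (Function.update ν 0 v)),
          Nat.nth Nat.Prime v : ℕ) : M)) 1 0 : ℕ → M) 0 =
        ((∏ v ∈ (Finset.range N).filter (fun v => Q x (Function.update ν 0 v)),
          Nat.nth Nat.Prime v : ℕ) : M) := by
      rw [Function.update_of_ne (by omega), Function.update_self]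
    rw [hx, h0, Function.update_self]
    have hp : ∀ v, (Nat.nth Nat.Prime v).Prime := fun v => Nat.prime_nth_prime v
    rw [compr_dvd hM (hp u).pos, (hp u).prime.dvd_finset_prod_iff]
    constructor
    · rintro ⟨v, hv, hdv⟩
      have he : Nat.nth Nat.Prime u = Nat.nth Nat.Prime v :=
        (Nat.prime_dvd_prime_iff_eq (hp u) (hp v)).1 hdv
      have huv : u = v := Nat.nth_injective Nat.infinite_setOf_prime he
      rw [huv]
      exact (Finset.mem_filter.1 hv).2
    · intro hq
      exact ⟨u, Finset.mem_filter.2 ⟨Finset.mem_range.2 hu, hq⟩, dvd_rfl⟩)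
  refine ⟨y, fun n => ?_⟩
  have h := hyz n
  have hx : (fun i : ℕ => Function.update (Function.update (fun i => x (i - 2)) 0 y) 1 z
      (i + 2)) = x := by
    funext i
    rw [Function.update_of_ne (by omega), Function.update_of_ne (by omega)]
    simp
  have h0 : (Function.update (Function.update (fun i => x (i - 2)) 0 y) 1 z : ℕ → M) 0 = y := by
    rw [Function.update_of_ne (by omega), Function.update_self]
  rw [hx, h0, Function.update_self] at h
  exact h.symm

end Pool.Agent.KS6_47.SJ.JC
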