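import Pool.Agent.KS6_47.SJ.JC.Stmts

/-! Task CON: constraints are DD. -/

set_option autoImplicit false

open FirstOrder FirstOrder.Language Pool.Agent.KS6_47.SJ.H227.EN

namespace Pool.Agent.KS6_47.SJ.JC

theorem con_primrec_lst : Primrec lst := Primrec.ofNat (List ℕ)

theorem con_mem_rel : ∃ g : ℕ → Bool, Primrec g ∧
    ∀ n, (n.unpair.1 ∈ lst n.unpair.2) ↔ g n = true := by
  refine ⟨fun n => decide ((lst n.unpair.2).idxOf n.unpair.1 <
    (lst n.unpair.2).length), ?_, fun n => ?_⟩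
  · have h1 : Primrec fun n : ℕ => n.unpair.1 := Primrec.fst.comp Primrec.unpair
    have h2 : Primrec fun n : ℕ => n.unpair.2 := Primrec.snd.comp Primrec.unpair
    have h3 : Primrec fun n : ℕ => lst n.unpair.2 := con_primrec_lst.comp h2
    have h4 : Primrec fun n : ℕ => (lst n.unpair.2).idxOf n.unpair.1 :=
      Primrec.list_idxOf.comp h1 h3
    exact Primrec.nat_lt.decide.comp h4 (Primrec.list_length.comp h3)
  · rw [decide_eq_true_iff, List.idxOf_lt_length_iff]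

section
variable {M : Type} [CommSemiring M] [LinearOrder M] [LA.Structure M]

theorem con_bt (h1 : Calc1 M) (h2 : Calc2 M) (i j k : ℕ) (f : (ℕ → ℕ) → ℕ) (hf : RF M f) :
    DD (M := M) fun x ν => x k = bt (x i) (x j) (f ν) := by
  have hr := h1.ren (fun m => if m = 0 then i else if m = 1 then j else k) (fun m => m) h2.btD
  exact h2.subst (fun x _ n => x k = bt (x i) (x j) n) 0 (fun _ _ _ _ => Iff.rfl) hr f hf

theorem con_hat (h1 : Calc1 M) (h2 : Calc2 M)
    (hh : DD (M := M) (fun x ν => x 2 = hat (bs (x 0) (x 1)) (ν 0)))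
    (i j k : ℕ) (f : (ℕ → ℕ) → ℕ) (hf : RF M f) :
    DD (M := M) fun x ν => x k = hat (bs (x i) (x j)) (f ν) := by
  have hr := h1.ren (fun m => if m = 0 then i else if m = 1 then j else k) (fun m => m) hh
  exact h2.subst (fun x _ n => x k = hat (bs (x i) (x j)) n) 0 (fun _ _ _ _ => Iff.rfl) hr f hf

theorem con_iff (c : ℕ) (y x : ℕ → M) (a b : M) (hy : y = bs a b) :
    Con c y x ↔ ∀ f < c, f ∈ lst c →
      ∃ v, v = hat x f.unpair.2 ∧ v = bt a b f.unpair.1 := by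
  subst hy
  constructor
  · intro h f _ hf
    exact ⟨_, rfl, (h f hf).symm⟩
  · intro h f hf
    obtain ⟨v, hv, hv'⟩ := h f (mem_lst_lt hf) hf
    rw [← hv, hv']
    rfl

end

theorem prf_CON : S_ddcon := by
  intro M _ _ _ _ _ h c1 c2 hh
  have r1 : RF M fun ν => ν 1 := c2.var 1
  have pL : Primrec fun p : ℕ => p.unpair.1 := Primrec.fst.comp Primrec.unpair
  have pR : Primrec fun p : ℕ => p.unpair.2 := Primrec.snd.comp Primrec.unpair
  have ra : RF M fun ν => (ν 1).unpair.1 := c2.prim _ pL _ r1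
  have rb : RF M fun ν => (ν 1).unpair.2 := c2.prim _ pR _ r1
  have p1 : DD (M := M) fun x ν => x 4 = hat (bs (x 2) (x 3)) (ν 1).unpair.2 ∧
      x 4 = bt (x 0) (x 1) (ν 1).unpair.1 :=
    c1.and (con_hat c1 c2 hh 2 3 4 _ rb) (con_bt c1 c2 0 1 4 _ ra)
  have p2 : DD (M := M) fun x ν => ∃ v, v = hat (bs (x 2) (x 3)) (ν 1).unpair.2 ∧
      v = bt (x 0) (x 1) (ν 1).unpair.1 := by
    refine c1.exM (fun x ν v => v = hat (bs (x 2) (x 3)) (ν 1).unpair.2 ∧
      v = bt (x 0) (x 1) (ν 1).unpair.1) 4 ?_ p1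
    intro x ν y v
    simp [Function.update]
  have p3 : DD (M := M) fun _ ν => ν 1 ∈ lst (ν 0) := by
    have h1 := c2.rel (fun m => m.unpair.1 ∈ lst m.unpair.2) con_mem_rel _
      (c2.prim2 Nat.pair Primrec₂.natPair _ _ (c2.var 1) (c2.var 0))
    simpa only [Nat.unpair_pair] using h1
  have p4 : DD (M := M) fun x ν => ∀ f < ν 0, f ∈ lst (ν 0) →
      ∃ v, v = hat (bs (x 2) (x 3)) f.unpair.2 ∧ v = bt (x 0) (x 1) f.unpair.1 := by
    refine c1.allLt (fun x ν f => f ∈ lst (ν 0) →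
      ∃ v, v = hat (bs (x 2) (x 3)) f.unpair.2 ∧ v = bt (x 0) (x 1) f.unpair.1) 1 0
      (by norm_num) ?_ (c1.imp p3 p2)
    intro x ν i v
    simp
  obtain ⟨R, hR, hR2⟩ := p4
  exact ⟨R, hR, fun x ν => (hR2 x ν).trans
    (con_iff (ν 0) (bs (x 0) (x 1)) (bs (x 2) (x 3)) (x 0) (x 1) rfl).symm⟩

end Pool.Agent.KS6_47.SJ.JC
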