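import Pool.Agent.KS6_47.SJ.JC.Stmts

/-! Task HAT: the values of terms are DD. -/

set_option autoImplicit false

open FirstOrder FirstOrder.Language Pool.Agent.KS6_47.SJ.H227.EN

namespace Pool.Agent.KS6_47.SJ.JC

section
variable {M : Type} [CommSemiring M] [LinearOrder M] [LA.Structure M]

theorem HAT_bt (h1 : Calc1 M) (h2 : Calc2 M) (i j k : ℕ) (f : (ℕ → ℕ) → ℕ) (hf : RF M f) :
    DD (M := M) fun x ν => x k = bt (x i) (x j) (f ν) := by
  have hr := h1.ren (fun m => if m = 0 then i else if m = 1 then j else k) (fun m => m) h2.btD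
  exact h2.subst (fun x _ n => x k = bt (x i) (x j) n) 0 (fun _ _ _ _ => Iff.rfl) hr f hf

/-- the local condition at `p` -/
def HAT_cond (a c a' c' : M) (p : ℕ) : Prop :=
  (p % 2 = 0 → ∃ u, u = bt a' c' p ∧ u = bt a c (p / 2)) ∧
  (¬ p % 2 = 0 → ∃ u, u = bt a' c' (p / 2).unpair.1 ∧
    ∃ v, v = bt a' c' (p / 2).unpair.2.unpair.1 ∧
    ∃ w, w = bt u v (p / 2).unpair.2.unpair.2 ∧ w = bt a' c' p)

theorem HAT_condD (h1 : Calc1 M) (h2 : Calc2 M) :
    DD (M := M) fun x ν => HAT_cond (x 0) (x 1) (x 3) (x 4) (ν 1) := by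
  have r1 : RF M fun ν => ν 1 := h2.var 1
  have rh : RF M fun ν => ν 1 / 2 := h2.prim (fun p => p / 2)
    (Primrec.nat_div.comp Primrec.id (Primrec.const 2)) _ r1
  have pL : Primrec fun p : ℕ => p.unpair.1 := Primrec.fst.comp Primrec.unpair
  have pR : Primrec fun p : ℕ => p.unpair.2 := Primrec.snd.comp Primrec.unpair
  have ri : RF M fun ν => (ν 1 / 2).unpair.1 := h2.prim _ pL _ rh
  have rr : RF M fun ν => (ν 1 / 2).unpair.2 := h2.prim _ pR _ rh
  have rj : RF M fun ν => (ν 1 / 2).unpair.2.unpair.1 := h2.prim _ pL _ rr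
  have rn : RF M fun ν => (ν 1 / 2).unpair.2.unpair.2 := h2.prim _ pR _ rr
  have hev : DD (M := M) fun _ ν => ν 1 % 2 = 0 := by
    refine h2.rel (fun p => p % 2 = 0) ⟨fun p => decide (p % 2 = 0), ?_, fun n => by simp⟩ _ r1
    exact (Primrec.eq.decide.comp (Primrec.nat_mod.comp Primrec.id (Primrec.const 2))
      (Primrec.const 0))
  unfold HAT_cond
  refine h1.and (h1.imp hev ?_) (h1.imp (h1.not hev) ?_)
  · refine h1.exM (fun x ν u => u = bt (x 3) (x 4) (ν 1) ∧ u = bt (x 0) (x 1) (ν 1 / 2)) 5 ?_ ?_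
    · intro x ν y v
      simp [Function.update]
    · exact h1.and (HAT_bt h1 h2 3 4 5 _ r1) (HAT_bt h1 h2 0 1 5 _ rh)
  · refine h1.exM (fun x ν u => u = bt (x 3) (x 4) (ν 1 / 2).unpair.1 ∧
      ∃ v, v = bt (x 3) (x 4) (ν 1 / 2).unpair.2.unpair.1 ∧
      ∃ w, w = bt u v (ν 1 / 2).unpair.2.unpair.2 ∧ w = bt (x 3) (x 4) (ν 1)) 5 ?_ ?_
    · intro x ν y v
      simp [Function.update]
    refine h1.and (HAT_bt h1 h2 3 4 5 _ ri) ?_
    refine h1.exM (fun x ν v => v = bt (x 3) (x 4) (ν 1 / 2).unpair.2.unpair.1 ∧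
      ∃ w, w = bt (x 5) v (ν 1 / 2).unpair.2.unpair.2 ∧ w = bt (x 3) (x 4) (ν 1)) 6 ?_ ?_
    · intro x ν y v
      simp [Function.update]
    refine h1.and (HAT_bt h1 h2 3 4 6 _ rj) ?_
    refine h1.exM (fun x ν w => w = bt (x 5) (x 6) (ν 1 / 2).unpair.2.unpair.2 ∧
      w = bt (x 3) (x 4) (ν 1)) 7 ?_ ?_
    · intro x ν y v
      simp [Function.update]
    exact h1.and (HAT_bt h1 h2 5 6 7 _ rn) (HAT_bt h1 h2 3 4 7 _ r1)

theorem HAT_iff (h2 : Calc2 M) (a c z : M) (m : ℕ) :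
    z = hat (bs a c) m ↔
      ∃ a' c', (∀ p < m + 1, HAT_cond a c a' c' p) ∧ z = bt a' c' m := by
  constructor
  · intro hz
    obtain ⟨a', c', hc⟩ := h2.code (m + 1) (fun i => hat (bs a c) i)
    refine ⟨a', c', fun p hp => ⟨fun he => ?_, fun ho => ?_⟩, ?_⟩
    · refine ⟨_, rfl, ?_⟩
      rw [hc p hp]
      have : p = 2 * (p / 2) := by omega
      conv_lhs => rw [this]
      rw [hat_var]
      rfl
    · refine ⟨_, rfl, _, rfl, _, rfl, ?_⟩
      rw [hc p hp, hc _ ((tc_lt1 ho).trans hp), hc _ ((tc_lt2 ho).trans hp)]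
      conv_rhs => rw [exists_bterm ho]
      rw [hat_bterm]
    · rw [hc m (Nat.lt_succ_self m)]
      exact hz
  · rintro ⟨a', c', hc, hz⟩
    have key : ∀ p, p < m + 1 → bt a' c' p = hat (bs a c) p := by
      intro p
      induction p using Nat.strong_induction_on with
      | _ p ih =>
        intro hp
        by_cases he : p % 2 = 0
        · obtain ⟨u, hu1, hu2⟩ := (hc p hp).1 he
          rw [← hu1, hu2]
          have : p = 2 * (p / 2) := by omega
          conv_rhs => rw [this]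
          rw [hat_var]
          rfl
        · obtain ⟨u, hu, v, hv, w, hw1, hw2⟩ := (hc p hp).2 he
          rw [ih _ (tc_lt1 he) ((tc_lt1 he).trans hp)] at hu
          rw [ih _ (tc_lt2 he) ((tc_lt2 he).trans hp)] at hv
          rw [← hw2, hw1, hu, hv]
          conv_rhs => rw [exists_bterm he]
          rw [hat_bterm]
    rw [hz, key m (Nat.lt_succ_self m)]

end

theorem prf_ddhat : S_ddhat := by
  intro M _ _ _ _ _ _ h1 h2
  have hall0 : DD (M := M) fun x ν => ∀ p < ν 2, HAT_cond (x 0) (x 1) (x 3) (x 4) p :=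
    h1.allLt (fun x _ p => HAT_cond (x 0) (x 1) (x 3) (x 4) p) 1 2 (by decide)
      (fun _ _ _ _ => Iff.rfl) (HAT_condD h1 h2)
  have hall : DD (M := M) fun x ν => ∀ p < ν 0 + 1, HAT_cond (x 0) (x 1) (x 3) (x 4) p :=
    h2.subst (fun x _ N => ∀ p < N, HAT_cond (x 0) (x 1) (x 3) (x 4) p) 2
      (fun _ _ _ _ => Iff.rfl) hall0 (fun ν => ν 0 + 1)
      (h2.prim (fun n => n + 1) Primrec.succ _ (h2.var 0))
  have e1 : DD (M := M) fun x ν => ∃ a' c', (∀ p < ν 0 + 1, HAT_cond (x 0) (x 1) a' c' p) ∧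
      x 2 = bt a' c' (ν 0) := by
    refine h1.exM (fun x ν a' => ∃ c', (∀ p < ν 0 + 1, HAT_cond (x 0) (x 1) a' c' p) ∧
      x 2 = bt a' c' (ν 0)) 3 ?_ ?_
    · intro x ν y v
      simp [Function.update]
    refine h1.exM (fun x ν c' => (∀ p < ν 0 + 1, HAT_cond (x 0) (x 1) (x 3) c' p) ∧
      x 2 = bt (x 3) c' (ν 0)) 4 ?_ ?_
    · intro x ν y v
      simp [Function.update]
    exact h1.and hall (HAT_bt h1 h2 3 4 2 _ (h2.var 0))
  have e2 : (fun (x : ℕ → M) (ν : ℕ → ℕ) => x 2 = hat (bs (x 0) (x 1)) (ν 0)) =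
      fun x ν => ∃ a' c', (∀ p < ν 0 + 1, HAT_cond (x 0) (x 1) a' c' p) ∧
        x 2 = bt a' c' (ν 0) := by
    funext x ν
    exact propext (HAT_iff h2 _ _ _ _)
  rw [e2]
  exact e1

end Pool.Agent.KS6_47.SJ.JC
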