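import Pool.Agent.KS6_47.SJ.JC.Stmts

/-!
The limit lemma.
-/

set_option autoImplicit false

namespace Pool.Agent.KS6_47.SJ.JC

open Pool.Agent.KS6_47.SJ.H578.JD Pool.Agent.KS6_47.SJ.H578.JD.Oracle Pool.Agent.KS6_47.SJ.H578.JD.Defs

section
variable {α β γ : Type} [Primcodable α] [Primcodable β] [Primcodable γ]

/-- quantification over the element with a given code -/
theorem limit_dec {A : Set ℕ} {V : α → β → Prop} (hV : DecIn A fun x : α × β => V x.1 x.2)
    {f : α → ℕ} (hf : Computable f) :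
    DecIn A fun a => ∃ x : β, (Encodable.decode (f a) : Option β) = some x ∧ V a x := by
  constructor
  · refine REIn.ex (S := fun (a : α) (x : β) =>
      (Encodable.decode (f a) : Option β) = some x ∧ V a x) (REIn.and ?_ hV.1)
    exact REIn.of_re (RE.eq (by fun_prop) (by fun_prop))
  · have h1 : REIn A fun a => (Encodable.decode (f a) : Option β) = none ∨
        ∃ x : β, (Encodable.decode (f a) : Option β) = some x ∧ ¬ V a x := by
      refine REIn.or (REIn.of_re (RE.eq (by fun_prop) (by fun_prop))) ?_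
      refine REIn.ex (S := fun (a : α) (x : β) =>
        (Encodable.decode (f a) : Option β) = some x ∧ ¬ V a x) (REIn.and ?_ hV.2)
      exact REIn.of_re (RE.eq (by fun_prop) (by fun_prop))
    refine h1.of_eq fun a => ?_
    cases h : (Encodable.decode (f a) : Option β) with
    | none => simp [h]
    | some x => simp [h]

/-- stages of a predicate enumerable in `A` -/
theorem limit_stage {A : Set ℕ} {S : β → Prop} (hS : REIn A S) :
    ∃ T : β × ℕ → Prop, DecIn A T ∧ (∀ b, S b ↔ ∃ s, T (b, s)) ∧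
      ∀ b s t, s ≤ t → T (b, s) → T (b, t) := by
  obtain ⟨R, hR, h⟩ := hS
  obtain ⟨q, hq, h1⟩ := RE.re_iff.1 hR
  have hq' : Computable fun x : (β × Info) × ℕ => q x.1 x.2 := hq
  let V : β → Info × ℕ → Prop := fun b x => q (b, x.1) x.2 = true ∧ Ok A x.1
  have hV : DecIn A fun x : β × (Info × ℕ) => V x.1 x.2 := by
    refine DecIn.and ?_ (DecIn.and ?_ ?_)
    · refine DecIn.eq (CompIn.of_comp ?_) (by fun_prop)
      exact hq'.comp (f := fun x : (β × Info) × ℕ => q x.1 x.2)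
        (g := fun x : β × (Info × ℕ) => ((x.1, x.2.1), x.2.2)) (by fun_prop)
    · exact DecIn.all_mem (S := fun (_ : β × (Info × ℕ)) (y : ℕ) => y ∈ A)
        (DecIn.mem (f := fun x : (β × (Info × ℕ)) × ℕ => x.2) (by fun_prop))
        (l := fun x => x.2.1.1) (CompIn.of_comp (by fun_prop))
    · exact DecIn.all_mem (S := fun (_ : β × (Info × ℕ)) (y : ℕ) => y ∉ A)
        (DecIn.mem (f := fun x : (β × (Info × ℕ)) × ℕ => x.2) (by fun_prop)).not
        (l := fun x => x.2.1.2) (CompIn.of_comp (by fun_prop))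
  refine ⟨fun p => ∃ m < p.2, ∃ x : Info × ℕ,
    (Encodable.decode m : Option (Info × ℕ)) = some x ∧ V p.1 x, ?_, ?_, ?_⟩
  · refine DecIn.ex_lt (S := fun (p : β × ℕ) (m : ℕ) => ∃ x : Info × ℕ,
      (Encodable.decode m : Option (Info × ℕ)) = some x ∧ V p.1 x) ?_ (by fun_prop)
    refine limit_dec (V := fun (y : (β × ℕ) × ℕ) (x : Info × ℕ) => V y.1.1 x) ?_
      (f := fun y : (β × ℕ) × ℕ => y.2) (by fun_prop)
    exact hV.comp (f := fun y : ((β × ℕ) × ℕ) × (Info × ℕ) => (y.1.1.1, y.2)) (by fun_prop)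
  · intro b
    rw [h b]
    constructor
    · rintro ⟨c, hc, hok⟩
      obtain ⟨k, hk⟩ := (h1 (b, c)).1 hc
      exact ⟨Encodable.encode (c, k) + 1, Encodable.encode (c, k), Nat.lt_succ_self _, (c, k),
        Encodable.encodek _, hk, hok⟩
    · rintro ⟨s, m, -, x, -, hk, hok⟩
      exact ⟨x.1, (h1 (b, x.1)).2 ⟨x.2, hk⟩, hok⟩
  · rintro b s t hst ⟨m, hm, hx⟩
    exact ⟨m, lt_of_lt_of_le hm hst, hx⟩

end

theorem prf_limit : S_limit := by
  classical
  intro α _ A P hP
  obtain ⟨T, hT, hT1, hT2⟩ := limit_stage (A := A) (S := (· ∈ jump A)) mem_jump_re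
  obtain ⟨R1, hR1, h1⟩ := hP.1
  obtain ⟨R0, hR0, h0⟩ := hP.2
  obtain ⟨q1, hq1, e1⟩ := RE.re_iff.1 hR1
  obtain ⟨q0, hq0, e0⟩ := RE.re_iff.1 hR0
  have hq1' : Computable fun x : (α × Info) × ℕ => q1 x.1 x.2 := hq1
  have hq0' : Computable fun x : (α × Info) × ℕ => q0 x.1 x.2 := hq0
  -- the check of a certificate
  let q : α × (Bool × (Info × ℕ)) → Bool := fun x =>
    bif x.2.1 then q1 (x.1, x.2.2.1) x.2.2.2 else q0 (x.1, x.2.2.1) x.2.2.2
  have hq : Computable q := by
    refine Computable.cond (by fun_prop) ?_ ?_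
    · exact hq1'.comp (f := fun x : (α × Info) × ℕ => q1 x.1 x.2)
        (g := fun x : α × (Bool × (Info × ℕ)) => ((x.1, x.2.2.1), x.2.2.2)) (by fun_prop)
    · exact hq0'.comp (f := fun x : (α × Info) × ℕ => q0 x.1 x.2)
        (g := fun x : α × (Bool × (Info × ℕ)) => ((x.1, x.2.2.1), x.2.2.2)) (by fun_prop)
  let V : α × ℕ → Bool × (Info × ℕ) → Prop := fun p x =>
    q (p.1, x) = true ∧ (∀ y ∈ x.2.1.1, T (y, p.2)) ∧ ∀ y ∈ x.2.1.2, ¬ T (y, p.2)
  have hV : DecIn A fun x : (α × ℕ) × (Bool × (Info × ℕ)) => V x.1 x.2 := by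
    refine DecIn.and ?_ (DecIn.and ?_ ?_)
    · refine DecIn.eq (CompIn.of_comp ?_) (by fun_prop)
      exact hq.comp (g := fun x : (α × ℕ) × (Bool × (Info × ℕ)) => (x.1.1, x.2)) (by fun_prop)
    · exact DecIn.all_mem (S := fun (x : (α × ℕ) × (Bool × (Info × ℕ))) (y : ℕ) => T (y, x.1.2))
        (hT.comp (f := fun x : ((α × ℕ) × (Bool × (Info × ℕ))) × ℕ => (x.2, x.1.1.2))
          (CompIn.of_comp (by fun_prop)))
        (l := fun x => x.2.2.1.1) (CompIn.of_comp (by fun_prop))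
    · exact DecIn.all_mem (S := fun (x : (α × ℕ) × (Bool × (Info × ℕ))) (y : ℕ) => ¬ T (y, x.1.2))
        (hT.comp (f := fun x : ((α × ℕ) × (Bool × (Info × ℕ))) × ℕ => (x.2, x.1.1.2))
          (CompIn.of_comp (by fun_prop))).not
        (l := fun x => x.2.2.1.2) (CompIn.of_comp (by fun_prop))
  let val : (α × ℕ) → ℕ → Prop := fun p m => ∃ x : Bool × (Info × ℕ),
    (Encodable.decode m : Option (Bool × (Info × ℕ))) = some x ∧ V p x
  have hval : DecIn A fun x : (α × ℕ) × ℕ => val x.1 x.2 := by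
    refine limit_dec (V := fun (y : (α × ℕ) × ℕ) (x : Bool × (Info × ℕ)) => V y.1 x) ?_
      (f := fun y : (α × ℕ) × ℕ => y.2) (by fun_prop)
    exact hV.comp (f := fun y : ((α × ℕ) × ℕ) × (Bool × (Info × ℕ)) => (y.1.1, y.2))
      (CompIn.of_comp (by fun_prop))
  let side : ℕ → Prop := fun m => ∃ x : Bool × (Info × ℕ),
    (Encodable.decode m : Option (Bool × (Info × ℕ))) = some x ∧ x.1 = true
  have hside : DecIn A side := by
    refine limit_dec (V := fun (_ : ℕ) (x : Bool × (Info × ℕ)) => x.1 = true) ?_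
      (f := fun y : ℕ => y) (by fun_prop)
    exact DecIn.eq (by fun_prop) (by fun_prop)
  let Bd : α × ℕ → Prop := fun p =>
    ∃ m < p.2, (val p m ∧ side m) ∧ ∀ m' < m, ¬ val p m'
  have hBd : DecIn A Bd := by
    refine DecIn.ex_lt (S := fun (p : α × ℕ) (m : ℕ) => (val p m ∧ side m) ∧
      ∀ m' < m, ¬ val p m') ?_ (by fun_prop)
    refine DecIn.and (DecIn.and hval (hside.comp (f := fun x : (α × ℕ) × ℕ => x.2)
      (by fun_prop))) ?_
    refine DecIn.all_lt (S := fun (x : (α × ℕ) × ℕ) (m' : ℕ) => ¬ val x.1 m') ?_ (by fun_prop)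
    exact (hval.comp (f := fun x : ((α × ℕ) × ℕ) × ℕ => (x.1.1, x.2)) (by fun_prop)).not
  have hite := CompIn.ite (f := fun _ => true) (g := fun _ => false) hBd (by fun_prop)
    (by fun_prop)
  refine ⟨_, hite, ?_⟩
  intro a
  -- correct certificates
  let cor : ℕ → Prop := fun m => ∃ x : Bool × (Info × ℕ),
    (Encodable.decode m : Option (Bool × (Info × ℕ))) = some x ∧ q (a, x) = true ∧
      Ok (jump A) x.2.1
  have hqt : ∀ c k, q (a, (true, (c, k))) = q1 (a, c) k := fun _ _ => rfl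
  have hqf : ∀ c k, q (a, (false, (c, k))) = q0 (a, c) k := fun _ _ => rfl
  have hcor_side : ∀ m, cor m → (side m ↔ P a) := by
    rintro m ⟨⟨β, c, k⟩, hx, hq2, hok⟩
    have hs : side m ↔ β = true := by
      constructor
      · rintro ⟨x, hx', hb⟩
        rw [hx] at hx'
        cases hx'
        exact hb
      · intro hb
        exact ⟨_, hx, hb⟩
    rw [hs]
    cases β with
    | true =>
      simp only [true_iff]
      exact (h1 a).2 ⟨c, (e1 (a, c)).2 ⟨k, hq2⟩, hok⟩
    | false =>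
      simp only [Bool.false_eq_true, false_iff]
      exact (h0 a).2 ⟨c, (e0 (a, c)).2 ⟨k, hq2⟩, hok⟩
  have hcor_ex : ∃ m, cor m := by
    by_cases hPa : P a
    · obtain ⟨c, hc, hok⟩ := (h1 a).1 hPa
      obtain ⟨k, hk⟩ := (e1 (a, c)).1 hc
      exact ⟨Encodable.encode (true, (c, k)), (true, (c, k)), Encodable.encodek _, hk, hok⟩
    · obtain ⟨c, hc, hok⟩ := (h0 a).1 hPa
      obtain ⟨k, hk⟩ := (e0 (a, c)).1 hc
      exact ⟨Encodable.encode (false, (c, k)), (false, (c, k)), Encodable.encodek _, hk, hok⟩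
  -- stages after which a finite list of elements of the jump has appeared
  have hlist : ∀ l : List ℕ, (∀ y ∈ l, y ∈ jump A) → ∃ s0, ∀ s ≥ s0, ∀ y ∈ l, T (y, s) := by
    intro l
    induction l with
    | nil => intro _; exact ⟨0, fun s _ y hy => by simp at hy⟩
    | cons z l ih =>
      intro hl
      obtain ⟨s1, hs1⟩ := ih fun y hy => hl y (List.mem_cons_of_mem _ hy)
      obtain ⟨s2, hs2⟩ := (hT1 z).1 (hl z List.mem_cons_self)
      refine ⟨max s1 s2, fun s hs y hy => ?_⟩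
      rcases List.mem_cons.1 hy with rfl | hy
      · exact hT2 _ _ _ (le_trans (le_max_right _ _) hs) hs2
      · exact hs1 s (le_trans (le_max_left _ _) hs) y hy
  have hcor_val : ∀ m, cor m → ∃ s0, ∀ s ≥ s0, val (a, s) m := by
    rintro m ⟨x, hx, hq2, hok⟩
    obtain ⟨s0, hs0⟩ := hlist x.2.1.1 hok.1
    refine ⟨s0, fun s hs => ⟨x, hx, hq2, hs0 s hs, fun y hy hTy => ?_⟩⟩
    exact hok.2 y hy ((hT1 y).2 ⟨s, hTy⟩)
  have hncor_val : ∀ m, ¬ cor m → ∃ s0, ∀ s ≥ s0, ¬ val (a, s) m := by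
    intro m hm
    by_cases hx : ∃ x : Bool × (Info × ℕ),
        (Encodable.decode m : Option (Bool × (Info × ℕ))) = some x
    · obtain ⟨x, hx⟩ := hx
      by_cases hq2 : q (a, x) = true
      · have hok : ¬ Ok (jump A) x.2.1 := fun hok => hm ⟨x, hx, hq2, hok⟩
        by_cases hp : ∀ y ∈ x.2.1.1, y ∈ jump A
        · have hn : ¬ ∀ y ∈ x.2.1.2, y ∉ jump A := fun hn => hok ⟨hp, hn⟩
          push Not at hn
          obtain ⟨y, hy, hyA⟩ := hn
          obtain ⟨s0, hs0⟩ := (hT1 y).1 hyA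
          refine ⟨s0, fun s hs => ?_⟩
          rintro ⟨x', hx', -, -, hneg⟩
          rw [hx] at hx'
          cases hx'
          exact hneg y hy (hT2 _ _ _ hs hs0)
        · push Not at hp
          obtain ⟨y, hy, hyA⟩ := hp
          refine ⟨0, fun s _ => ?_⟩
          rintro ⟨x', hx', -, hpos, -⟩
          rw [hx] at hx'
          cases hx'
          exact hyA ((hT1 y).2 ⟨s, hpos y hy⟩)
      · refine ⟨0, fun s _ => ?_⟩
        rintro ⟨x', hx', hq3, -⟩
        rw [hx] at hx'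
        cases hx'
        exact hq2 hq3
    · refine ⟨0, fun s _ => ?_⟩
      rintro ⟨x', hx', -⟩
      exact hx ⟨x', hx'⟩
  -- the least correct certificate
  set m0 := Nat.find hcor_ex with hm0
  have hm0c : cor m0 := Nat.find_spec hcor_ex
  have hm0l : ∀ m < m0, ¬ cor m := fun m hm => Nat.find_min hcor_ex hm
  obtain ⟨s1, hs1⟩ := hcor_val m0 hm0c
  have hs2 : ∃ s2, ∀ s ≥ s2, ∀ m < m0, ¬ val (a, s) m := by
    have h3 : ∀ m, ∃ s0, m < m0 → ∀ s ≥ s0, ¬ val (a, s) m := by
      intro m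
      by_cases hm : m < m0
      · obtain ⟨s0, hs0⟩ := hncor_val m (hm0l m hm)
        exact ⟨s0, fun _ => hs0⟩
      · exact ⟨0, fun h => absurd h hm⟩
    choose F hF using h3
    refine ⟨(Finset.range m0).sup F, fun s hs m hm => hF m hm s ?_⟩
    exact le_trans (Finset.le_sup (f := F) (Finset.mem_range.2 hm)) hs
  obtain ⟨s2, hs2⟩ := hs2
  refine ⟨max (max s1 s2) (m0 + 1), fun s hs => ?_⟩
  have hsa : s1 ≤ s := le_trans (le_trans (le_max_left _ _) (le_max_left _ _)) hs
  have hsb : s2 ≤ s := le_trans (le_trans (le_max_right _ _) (le_max_left _ _)) hs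
  have hsc : m0 < s := lt_of_lt_of_le (Nat.lt_succ_self _) (le_trans (le_max_right _ _) hs)
  have hB : Bd (a, s) ↔ P a := by
    rw [← hcor_side m0 hm0c]
    constructor
    · rintro ⟨m, hm, ⟨hv, hsd⟩, hmin⟩
      have h4 : ¬ m < m0 := fun h5 => hs2 s hsb m h5 hv
      have h5 : ¬ m0 < m := fun h6 => hmin m0 h6 (hs1 s hsa)
      have h6 : m = m0 := by omega
      rw [← h6]
      exact hsd
    · intro hsd
      exact ⟨m0, hsc, ⟨hs1 s hsa, hsd⟩, fun m' hm' => hs2 s hsb m' hm'⟩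
  by_cases hb : Bd (a, s)
  · simp only [hb, if_true, true_iff]
    exact hB.1 hb
  · simp only [hb, if_false, Bool.false_eq_true, false_iff]
    exact fun h => hb (hB.2 h)

end Pool.Agent.KS6_47.SJ.JC
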