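import Pool.Agent.KS6_47.SJ.JC.Stmts
import Pool.Agent.KS6_47.SJ.H227.EN.Alg
import Pool.Agent.KS6_47.SJ.H227.ENJ.P_std_below

/-!
The algebraic operations of a nonstandard model of PA.
-/

set_option autoImplicit false

open FirstOrder FirstOrder.Language Pool.Agent.KS6_47.SJ.H227.EN

namespace Pool.Agent.KS6_47.SJ.JC

theorem npa_num {M : Type} [CommSemiring M] [LinearOrder M] [LA.Structure M] (hc : Compat M)
    {α : Type} (v : α → M) (n : ℕ) : (num n : LA.Term α).realize v = (n : M) := by
  induction n with
  | zero => rw [num, ea_t0, hc.zero, Nat.cast_zero]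
  | succ n ih => rw [num, ea_tadd, ih, ea_t1, hc.add, hc.one, Nat.cast_succ]

theorem npa_vec2 {M : Type} (x : Fin 2 → M) : x = ![x 0, x 1] := by
  funext i
  fin_cases i <;> rfl

theorem npa_equiv {M : Type} [CommSemiring M] [LinearOrder M] [IsStrictOrderedRing M]
    [LA.Structure M] (hc : Compat M) (hs : Function.Surjective (fun n : ℕ => (n : M))) :
    Nonempty (@FirstOrder.Language.Equiv LA M ℕ _ stdStr) := by
  letI : LA.Structure ℕ := stdStr
  have hinj : Function.Injective (fun n : ℕ => (n : M)) := Nat.cast_injective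
  let e : M ≃ ℕ := (_root_.Equiv.ofBijective _ ⟨hinj, hs⟩).symm
  have he : ∀ n : ℕ, e (n : M) = n := fun n =>
    (_root_.Equiv.ofBijective _ ⟨hinj, hs⟩).symm_apply_apply n
  have he' : ∀ x : M, ((e x : ℕ) : M) = x := fun x =>
    (_root_.Equiv.ofBijective _ ⟨hinj, hs⟩).apply_symm_apply x
  refine ⟨{ toEquiv := e, map_fun' := ?_, map_rel' := ?_ }⟩
  · intro n f x
    show e (Structure.funMap f x) = Structure.funMap f (e ∘ x)
    cases f with
    | zero =>
      have hx : x = ![] := Subsingleton.elim _ _
      have h1 : (Structure.funMap (L := LA) AF.zero x : M) = 0 := by rw [hx]; exact hc.zero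
      rw [h1]
      have := he 0
      rw [Nat.cast_zero] at this
      rw [this]
      rfl
    | one =>
      have hx : x = ![] := Subsingleton.elim _ _
      have h1 : (Structure.funMap (L := LA) AF.one x : M) = 1 := by rw [hx]; exact hc.one
      rw [h1]
      have := he 1
      rw [Nat.cast_one] at this
      rw [this]
      rfl
    | add =>
      have h1 : (Structure.funMap (L := LA) AF.add x : M) = x 0 + x 1 := by
        conv_lhs => rw [npa_vec2 x]
        exact hc.add _ _
      rw [h1]
      have h2 : e (x 0 + x 1) = e (x 0) + e (x 1) := by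
        rw [← he (e (x 0) + e (x 1)), Nat.cast_add, he', he']
      rw [h2]
      rfl
    | mul =>
      have h1 : (Structure.funMap (L := LA) AF.mul x : M) = x 0 * x 1 := by
        conv_lhs => rw [npa_vec2 x]
        exact hc.mul _ _
      rw [h1]
      have h2 : e (x 0 * x 1) = e (x 0) * e (x 1) := by
        rw [← he (e (x 0) * e (x 1)), Nat.cast_mul, he', he']
      rw [h2]
      rfl
  · intro n r x
    show Structure.RelMap r (e ∘ x) ↔ Structure.RelMap r x
    cases r with
    | lt =>
      have h1 : Structure.RelMap (L := LA) AR.lt x ↔ x 0 < x 1 := by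
        conv_lhs => rw [npa_vec2 x]
        exact hc.lt _ _
      rw [h1]
      show e (x 0) < e (x 1) ↔ x 0 < x 1
      rw [← Nat.cast_lt (α := M), he', he']

theorem prf_npa : S_npa := by
  intro M _ hPA hne
  haveI : Nonempty M := ⟨Structure.funMap (L := LA) AF.zero ![]⟩
  have hm : M ⊨ PAminus := Theory.Model.mono hPA (by
    intro φ hφ
    exact Or.inl hφ)
  obtain ⟨i1, i2, i3, i4, hc⟩ := exists_alg M hm
  refine ⟨i1, i2, i3, i4, ⟨hc, hPA, ?_⟩, ?_⟩
  · by_contra hcon
    push Not at hcon
    refine hne (npa_equiv hc fun x => ?_)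
    obtain ⟨n, hn⟩ := hcon x
    obtain ⟨m, -, hm⟩ := std_below hc n x hn
    exact ⟨m, hm.symm⟩
  · ext X
    simp only [SS, SSp, Set.mem_ofPred_eq]
    refine exists_congr fun c => forall_congr' fun n => ?_
    have h1 : (∃ d : M, Structure.funMap (L := LA) AF.mul
        ![(num (Nat.nth Nat.Prime n) : LA.Term Empty).realize (default : Empty → M), d] = c) ↔
        ((Nat.nth Nat.Prime n : ℕ) : M) ∣ c := by
      rw [dvd_iff_exists_eq_mul_right]
      refine exists_congr fun d => ?_
      rw [npa_num hc, hc.mul, eq_comm]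
    rw [h1]

end Pool.Agent.KS6_47.SJ.JC
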