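import Pool.Agent.KS6_47.SJ.JC.MixL

/-!
# OS: saturation for uniformly definable sequences of conditions on two elements
-/

set_option autoImplicit false

open FirstOrder FirstOrder.Language Pool.Agent.KS6_47.SJ.H227.EN

namespace Pool.Agent.KS6_47.SJ.JC

theorem OS_dfn_all {M : Type} [LA.Structure M] {R : (ℕ → M) → Prop} (h : Dfn R) (k : ℕ) :
    Dfn (fun z : ℕ → M => ∀ y, R (Function.update z k y)) := by
  refine dfn_all (fun z y => R (Function.update z k y)) k (fun x y v => ?_) ?_
  · rw [Function.update_idem]
  · simp only [Function.update_eq_self]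
    exact h

theorem OS_key {M : Type} [CommSemiring M] (x : ℕ → M) (ν : ℕ → ℕ) (N y z u : M) :
    (fun i => Function.update (Function.update (Function.update (Function.update
      (fun i => if i = 0 then (0 : M) else mix x ν (i - 1)) 0 N) 1 y) 3 z) 2 u (i + 1)) =
      Function.update (Function.update (Function.update (mix x ν) 0 y) 2 z) 1 u := by
  funext i
  by_cases h1 : i = 1
  · subst h1
    simp
  · rw [Function.update_of_ne (by omega), Function.update_of_ne h1]
    by_cases h2 : i = 2
    · subst h2
      simp
    · rw [Function.update_of_ne (by omega), Function.update_of_ne h2]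
      by_cases h3 : i = 0
      · subst h3
        simp
      · rw [Function.update_of_ne (by omega), Function.update_of_ne (by omega),
          Function.update_of_ne h3, if_neg (by omega)]
        rfl

theorem OS_mix {M : Type} [CommSemiring M] (x : ℕ → M) (ν : ℕ → ℕ) (y z : M) (m : ℕ) :
    Function.update (Function.update (Function.update (mix x ν) 0 y) 2 z) 1 (m : M) =
      mix (Function.update (Function.update x 0 y) 1 z) (Function.update ν 0 m) := by
  have h1 := mix_upd_even x ν 0 y
  rw [mul_zero] at h1
  rw [h1]
  have h2 := mix_upd_even (Function.update x 0 y) ν 1 z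
  rw [mul_one] at h2
  rw [h2]
  have h3 := mix_upd_odd (Function.update (Function.update x 0 y) 1 z) ν 0 m
  rw [mul_zero, zero_add] at h3
  rw [h3]

theorem prf_os (hover : S_over) : S_os := by
  intro M _ _ _ _ _ hM Q hQ x ν h
  have hc := hM.compat
  obtain ⟨R, hR, hRQ⟩ := hQ
  obtain ⟨tv, -, -, -, -, tl, -⟩ := trm_ops hc
  obtain ⟨-, -, -, -, bi, -⟩ := dfn_bool (M := M)
  have hR' := mix_dfn_proj hc hR (fun i => i + 1)
  have hB : Dfn (fun w : ℕ → M => w 2 < w 0 → R (fun i => w (i + 1))) :=
    bi _ _ (tl _ _ (tv 2) (tv 0)) hR'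
  have hE := mix_dfn_ex (mix_dfn_ex (OS_dfn_all hB 2) 3) 1
  set w0 : ℕ → M := fun i => if i = 0 then (0 : M) else mix x ν (i - 1) with hw0
  have hval : ∀ N y z u : M, Function.update (Function.update (Function.update
      (Function.update w0 0 N) 1 y) 3 z) 2 u 2 = u ∧ Function.update (Function.update
      (Function.update (Function.update w0 0 N) 1 y) 3 z) 2 u 0 = N := by
    intro N y z u
    constructor
    · rw [Function.update_self]
    · rw [Function.update_of_ne (by norm_num), Function.update_of_ne (by norm_num),
        Function.update_of_ne (by norm_num), Function.update_self]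
  obtain ⟨N, hN, y, z, hyz⟩ := hover M hM _ hE w0 0 (fun n => by
    obtain ⟨y, z, hyz⟩ := h n
    refine ⟨y, z, fun u => ?_⟩
    rw [(hval (n : M) y z u).1, (hval (n : M) y z u).2]
    intro hu
    obtain ⟨m, _, rfl⟩ := std_below hc n u hu.le
    have hmn : m < n := by exact_mod_cast hu
    rw [OS_key, OS_mix, hRQ]
    exact hyz m hmn)
  refine ⟨y, z, fun m => ?_⟩
  have h1 := hyz (m : M)
  rw [(hval N y z (m : M)).1, (hval N y z (m : M)).2] at h1
  have h2 := h1 (hN m)
  rw [OS_key, OS_mix, hRQ] at h2
  exact h2

end Pool.Agent.KS6_47.SJ.JC
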