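import Pool.Agent.KS6_47.SJ.JC.Stmts

/-!
Task SAT: saturation.
-/

set_option autoImplicit false

open FirstOrder FirstOrder.Language Pool.Agent.KS6_47.SJ.H227.EN

namespace Pool.Agent.KS6_47.SJ.JC

open Pool.Agent.KS6_47.SJ.H578.JD Pool.Agent.KS6_47.SJ.H578.JD.Oracle Pool.Agent.KS6_47.SJ.H578.JD.Defs

/-- the conditions used for the saturation -/
def SAT_Q {M : Type} [CommSemiring M] [LinearOrder M] [LA.Structure M] (n k : ℕ)
    (x : ℕ → M) (ν : ℕ → ℕ) : Prop :=
  Con (ν 1) (bs (x 0) (x 1)) (bs (x 2) (x 3)) ∧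
    (sup (ν 0) ≤ k → (((Nat.nth Nat.Prime (ν 0) : ℕ) : M) ∣ x 4 ↔
      Ty (n + 1) (bs (x 0) (x 1)) (ν 0)))

theorem SAT_dd {M : Type} [CommSemiring M] [LinearOrder M] [LA.Structure M]
    (C1 : Calc1 M) (C2 : Calc2 M) (hs : Primrec sup)
    (hcon : DD (M := M) (fun x ν => Con (ν 0) (bs (x 0) (x 1)) (bs (x 2) (x 3))))
    (hty : ∀ n, DD (M := M) fun x ν => Ty n (bs (x 0) (x 1)) (ν 0)) (n k : ℕ) :
    DD (M := M) (SAT_Q n k) := by
  have h1 : DD (M := M) fun x ν => Con (ν 1) (bs (x 0) (x 1)) (bs (x 2) (x 3)) :=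
    C1.ren (fun i => i) (fun _ => 1) hcon
  have h2 : DD (M := M) fun x ν => ((Nat.nth Nat.Prime (ν 0) : ℕ) : M) ∣ x 4 :=
    C1.ren (fun _ => 4) (fun i => i) C2.dvd
  have h3 : DD (M := M) fun (_ : ℕ → M) ν => sup (ν 0) ≤ k := by
    refine C2.rel (fun u => sup u ≤ k) ⟨fun u => decide (sup u ≤ k), ?_, fun u => ?_⟩
      (fun ν => ν 0) (C2.var 0)
    · exact PrimrecPred.decide (PrimrecRel.comp Primrec.nat_le hs (Primrec.const k))
    · simp
  exact C1.and h1 (C1.imp h3 (C1.iff h2 (hty (n + 1))))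

/-- codes of the terms in the constraints only use the first `c + 1` variables -/
theorem SAT_Con {M : Type} [CommSemiring M] [LinearOrder M] {c : ℕ} {y x x' : ℕ → M}
    (h : ∀ i < c + 1, x i = x' i) : Con c y x ↔ Con c y x' := by
  refine Con_congr fun f hf i hi => h i ?_
  have h1 := mem_lst_lt hf
  have h2 := mv_le f.unpair.2
  have h3 := Nat.unpair_right_le f
  omega

theorem SAT_Con_left {M : Type} [CommSemiring M] [LinearOrder M] {c : ℕ} {y y' x : ℕ → M}
    (h : ∀ i < c + 1, y i = y' i) : Con c y x ↔ Con c y' x := by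
  refine Con_congr_left fun f hf => h _ ?_
  have h1 := mem_lst_lt hf
  have h3 := Nat.unpair_left_le f
  omega

theorem prf_sat_of (hp : S_prim) : S_sat := by
  intro M _ _ _ _ _ hM C1 C2 os hcon hty n k c x X hX hfin
  obtain ⟨e, he⟩ := hX
  obtain ⟨a', c', hx⟩ := C2.code (c + 1) x
  have hbx : ∀ i < c + 1, bs a' c' i = x i := hx
  -- the parameters
  set x0 : ℕ → M := fun i => if i = 2 then a' else if i = 3 then c' else e with hx0
  set ν0 : ℕ → ℕ := fun _ => c with hν0
  have hev : ∀ (y z : M) (u : ℕ), SAT_Q n k (Function.update (Function.update x0 0 y) 1 z)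
      (Function.update ν0 0 u) ↔ (Con c (bs y z) x ∧
        (sup u ≤ k → (u ∈ X ↔ Ty (n + 1) (bs y z) u))) := by
    intro y z u
    have e0 : (Function.update (Function.update x0 0 y) 1 z) 0 = y := by simp [Function.update]
    have e1 : (Function.update (Function.update x0 0 y) 1 z) 1 = z := by simp [Function.update]
    have e2 : (Function.update (Function.update x0 0 y) 1 z) 2 = a' := by
      simp [Function.update, hx0]
    have e3 : (Function.update (Function.update x0 0 y) 1 z) 3 = c' := by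
      simp [Function.update, hx0]
    have e4 : (Function.update (Function.update x0 0 y) 1 z) 4 = e := by
      simp [Function.update, hx0]
    have f0 : (Function.update ν0 0 u) 0 = u := by simp
    have f1 : (Function.update ν0 0 u) 1 = c := by simp [hν0]
    unfold SAT_Q
    rw [e0, e1, e2, e3, e4, f0, f1, ← he u, SAT_Con hbx]
  obtain ⟨y, z, hyz⟩ := os M hM (SAT_Q n k) (SAT_dd C1 C2 hp.2.2.2.1 hcon hty n k) x0 ν0 (by
    intro N
    obtain ⟨y, hy1, hy2⟩ := hfin N
    rw [all_lits] at hy2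
    obtain ⟨a, b, hab⟩ := C2.code (max (c + 1) k) y
    have hb : ∀ i < max (c + 1) k, bs a b i = y i := hab
    refine ⟨a, b, fun u hu => (hev a b u).2 ⟨?_, fun hk => ?_⟩⟩
    · exact (SAT_Con_left fun i hi => hb i (lt_max_of_lt_left hi)).2 hy1
    · rw [hy2 u hu hk]
      exact (Ty_congr fun i hi => hb i (lt_max_of_lt_right (lt_of_lt_of_le hi hk))).symm)
  refine ⟨bs y z, ((hev y z 0).1 (hyz 0)).1, fun u hu => ((hev y z u).1 (hyz u)).2 hu⟩

end Pool.Agent.KS6_47.SJ.JC
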