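import Pool.Agent.KS6_47.SJ.JC.Stmts

/-! Task SKOL: codes of witnesses. -/

set_option autoImplicit false

open FirstOrder FirstOrder.Language Pool.Agent.KS6_47.SJ.H227.EN

namespace Pool.Agent.KS6_47.SJ.JC

section
variable {M : Type} [CommSemiring M] [LinearOrder M] [LA.Structure M]

theorem SKOL_bt (h1 : Calc1 M) (h2 : Calc2 M) (i j k : ℕ) (f : (ℕ → ℕ) → ℕ) (hf : RF M f) :
    DD (M := M) fun x ν => x k = bt (x i) (x j) (f ν) := by
  have hr := h1.ren (fun m => if m = 0 then i else if m = 1 then j else k) (fun m => m) h2.btD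
  exact h2.subst (fun x _ n => x k = bt (x i) (x j) n) 0 (fun _ _ _ _ => Iff.rfl) hr f hf

/-- the condition at the code `z` -/
def SKOL_Q (n : ℕ) (a c r s : M) (z : ℕ) : Prop :=
  Ty (n + 1) (bs r s) z → ∃ a' c' : M, (∀ i < z + 1, ∃ u, u = bt a' c' i ∧
    u = bt a c (Nat.pair z i)) ∧ Con z.unpair.1 (bs a' c') (bs r s) ∧
    ∀ e < z, e ∈ lst z.unpair.2 → Lit (Ty n (bs a' c')) e

theorem SKOL_mem_primrec : Primrec fun m : ℕ => decide (m.unpair.2 ∈ lst m.unpair.1.unpair.2) := by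
  have h1 : Primrec fun m : ℕ => lst m.unpair.1.unpair.2 :=
    (Primrec.ofNat (List ℕ)).comp
      ((Primrec.snd.comp Primrec.unpair).comp (Primrec.fst.comp Primrec.unpair))
  have h2 : Primrec fun m : ℕ => m.unpair.2 := Primrec.snd.comp Primrec.unpair
  have h3 : Primrec fun m : ℕ => (lst m.unpair.1.unpair.2).idxOf m.unpair.2 :=
    Primrec.list_idxOf.comp h2 h1
  have h4 : Primrec fun m : ℕ => decide ((lst m.unpair.1.unpair.2).idxOf m.unpair.2 <
      (lst m.unpair.1.unpair.2).length) :=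
    Primrec.nat_lt.decide.comp h3 (Primrec.list_length.comp h1)
  refine h4.of_eq fun m => ?_
  rw [decide_eq_decide]
  exact List.idxOf_lt_length_iff

theorem SKOL_QD (h1 : Calc1 M) (h2 : Calc2 M)
    (hC : DD (M := M) (fun x ν => Con (ν 0) (bs (x 0) (x 1)) (bs (x 2) (x 3))))
    (hT : ∀ n, DD (M := M) fun x ν => Ty n (bs (x 0) (x 1)) (ν 0)) (n : ℕ) :
    DD (M := M) fun x ν => SKOL_Q n (x 0) (x 1) (x 2) (x 3) (ν 0) := by
  have r0 : RF M fun ν => ν 0 := h2.var 0
  have r1 : RF M fun ν => ν 1 := h2.var 1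
  have pL : Primrec fun p : ℕ => p.unpair.1 := Primrec.fst.comp Primrec.unpair
  unfold SKOL_Q
  have t1 : DD (M := M) fun x ν => Ty (n + 1) (bs (x 2) (x 3)) (ν 0) :=
    h1.ren (fun m => if m = 0 then 2 else 3) (fun m => m) (hT (n + 1))
  refine h1.imp t1 ?_
  refine h1.exM (fun x ν a' => ∃ c' : M, (∀ i < ν 0 + 1, ∃ u, u = bt a' c' i ∧
    u = bt (x 0) (x 1) (Nat.pair (ν 0) i)) ∧ Con (ν 0).unpair.1 (bs a' c') (bs (x 2) (x 3)) ∧
    ∀ e < ν 0, e ∈ lst (ν 0).unpair.2 → Lit (Ty n (bs a' c')) e) 4 ?_ ?_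
  · intro x ν y v
    simp [Function.update]
  refine h1.exM (fun x ν c' => (∀ i < ν 0 + 1, ∃ u, u = bt (x 4) c' i ∧
    u = bt (x 0) (x 1) (Nat.pair (ν 0) i)) ∧ Con (ν 0).unpair.1 (bs (x 4) c') (bs (x 2) (x 3)) ∧
    ∀ e < ν 0, e ∈ lst (ν 0).unpair.2 → Lit (Ty n (bs (x 4) c')) e) 5 ?_ ?_
  · intro x ν y v
    simp [Function.update]
  refine h1.and ?_ (h1.and ?_ ?_)
  · refine h2.subst (fun x ν N => ∀ i < N, ∃ u, u = bt (x 4) (x 5) i ∧
      u = bt (x 0) (x 1) (Nat.pair (ν 0) i)) 2 ?_ ?_ (fun ν => ν 0 + 1)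
      (h2.prim (fun n => n + 1) Primrec.succ _ r0)
    · intro x ν i v
      simp [Function.update]
    refine h1.allLt (fun x ν i => ∃ u, u = bt (x 4) (x 5) i ∧
      u = bt (x 0) (x 1) (Nat.pair (ν 0) i)) 1 2 (by decide) ?_ ?_
    · intro x ν i v
      simp [Function.update]
    refine h1.exM (fun x ν u => u = bt (x 4) (x 5) (ν 1) ∧
      u = bt (x 0) (x 1) (Nat.pair (ν 0) (ν 1))) 6 ?_ ?_
    · intro x ν y v
      simp [Function.update]
    exact h1.and (SKOL_bt h1 h2 4 5 6 _ r1)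
      (SKOL_bt h1 h2 0 1 6 _ (h2.prim2 _ Primrec₂.natPair _ _ r0 r1))
  · have c1 : DD (M := M) fun x ν => Con (ν 0) (bs (x 4) (x 5)) (bs (x 2) (x 3)) :=
      h1.ren (fun m => if m = 0 then 4 else if m = 1 then 5 else if m = 2 then 2 else 3)
        (fun m => m) hC
    exact h2.subst (fun x _ m => Con m (bs (x 4) (x 5)) (bs (x 2) (x 3))) 0
      (fun _ _ _ _ => Iff.rfl) c1 (fun ν => (ν 0).unpair.1) (h2.prim _ pL _ r0)
  · refine h1.allLt (fun x ν e => e ∈ lst (ν 0).unpair.2 → Lit (Ty n (bs (x 4) (x 5))) e) 1 0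
      (by decide) ?_ ?_
    · intro x ν i v
      simp [Function.update]
    refine h1.imp ?_ ?_
    · have h := h2.rel (fun m => m.unpair.2 ∈ lst m.unpair.1.unpair.2)
        ⟨_, SKOL_mem_primrec, fun m => by simp⟩ (fun ν => Nat.pair (ν 0) (ν 1))
        (h2.prim2 _ Primrec₂.natPair _ _ r0 r1)
      simpa only [Nat.unpair_pair] using h
    · unfold Lit
      refine h1.iff ?_ ?_
      · have c1 : DD (M := M) fun x ν => Ty n (bs (x 4) (x 5)) (ν 0) :=
          h1.ren (fun m => if m = 0 then 4 else 5) (fun m => m) (hT n)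
        exact h2.subst (fun x _ m => Ty n (bs (x 4) (x 5)) m) 0
          (fun _ _ _ _ => Iff.rfl) c1 (fun ν => ν 1 / 2)
          (h2.prim _ (Primrec.nat_div.comp Primrec.id (Primrec.const 2)) _ r1)
      · refine h2.rel (fun p => p % 2 = 1) ⟨fun p => decide (p % 2 = 1), ?_, fun n => by simp⟩ _ r1
        exact (Primrec.eq.decide.comp (Primrec.nat_mod.comp Primrec.id (Primrec.const 2))
          (Primrec.const 1))

/-- transfer of a witness -/
theorem SKOL_transfer {n : ℕ} {y y' X : ℕ → M} {z : ℕ} (h : ∀ i < z + 1, y i = y' i) :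
    (Con z.unpair.1 y X ↔ Con z.unpair.1 y' X) ∧
    ((∀ e ∈ lst z.unpair.2, Lit (Ty n y) e) ↔ ∀ e ∈ lst z.unpair.2, Lit (Ty n y') e) := by
  constructor
  · refine Con_congr_left fun f hf => h _ ?_
    have h1 := mem_lst_lt hf
    have h2 := Nat.unpair_left_le z
    have h3 := Nat.unpair_left_le f
    omega
  · refine forall₂_congr fun e he => Lit_congr (Ty_congr_le fun i hi => h i ?_)
    have h1 := mem_lst_lt he
    have h2 := Nat.unpair_right_le z
    omega

end

theorem prf_skol : S_skol := by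
  intro M _ _ _ _ _ hN h1 h2 hos hC hT n k x
  obtain ⟨r, s, hrs⟩ := h2.code k x
  have hrs' : ∀ i < k, bs r s i = x i := hrs
  obtain ⟨a, c, hac⟩ := hos M hN _ (SKOL_QD h1 h2 hC hT n)
    (Function.update (Function.update (fun _ => 0) 2 r) 3 s) (fun _ => 0) (by
      intro N
      classical
      have hch : ∀ z : ℕ, ∃ y : ℕ → M, Ty (n + 1) (bs r s) z →
          Con z.unpair.1 y (bs r s) ∧ ∀ e ∈ lst z.unpair.2, Lit (Ty n y) e := by
        intro z
        by_cases h : Ty (n + 1) (bs r s) z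
        · obtain ⟨y, hy⟩ := h
          exact ⟨y, fun _ => hy⟩
        · exact ⟨fun _ => 0, fun h' => absurd h' h⟩
      choose Y hY using hch
      obtain ⟨y, w, hyw⟩ := h2.code ((N + 1) ^ 2) (fun m => Y m.unpair.1 m.unpair.2)
      refine ⟨y, w, fun u hu => ?_⟩
      simp only [Function.update, SKOL_Q]
      norm_num
      intro hty
      obtain ⟨hy1, hy2⟩ := hY u hty
      obtain ⟨a', c', hac'⟩ := h2.code (u + 1) (Y u)
      have hag : ∀ i < u + 1, bs a' c' i = Y u i := hac'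
      refine ⟨a', c', fun i hi => ?_, ((SKOL_transfer (n := n) hag).1).2 hy1, fun e _ he => ?_⟩
      · rw [hac' i (Nat.lt_succ_of_le hi), hyw]
        · simp
        · have h3 := Nat.pair_lt_max_add_one_sq u i
          have h4 : (max u i + 1) ^ 2 ≤ (N + 1) ^ 2 := by
            refine Nat.pow_le_pow_left ?_ 2
            have : max u i ≤ u := max_le le_rfl hi
            omega
          exact lt_of_lt_of_le h3 h4
      · exact (((SKOL_transfer (X := bs r s) (n := n) hag).2).2 hy2) e he)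
  refine ⟨a, c, fun z hz hTy => ?_⟩
  have hq := hac z
  simp only [Function.update, SKOL_Q] at hq
  norm_num at hq
  have hTy' : Ty (n + 1) (bs r s) z := (Ty_congr fun i hi => hrs' i (lt_of_lt_of_le hi hz)).2 hTy
  obtain ⟨a', c', g1, g2, g3⟩ := hq hTy'
  have hag : ∀ i < z + 1, bs a' c' i = (fun i => bt a c (Nat.pair z i)) i :=
    fun i hi => g1 i (Nat.lt_succ_iff.1 hi)
  obtain ⟨e1, e2⟩ := SKOL_transfer (n := n) (X := bs r s) hag
  refine ⟨?_, e2.1 fun e he => g3 e ?_ he⟩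
  · rw [← Con_congr (x := bs r s)]
    · exact e1.1 g2
    · intro f hf i hi
      exact hrs' i (lt_of_lt_of_le hi ((mv_le_sup hf).trans hz))
  · have h3 := mem_lst_lt he
    have h4 := Nat.unpair_right_le z
    omega

end Pool.Agent.KS6_47.SJ.JC
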