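import Pool.Agent.KS6_47.SJ.JC.Stmts

/-! Task TYPES: types are in the standard system. -/

set_option autoImplicit false

open FirstOrder FirstOrder.Language Pool.Agent.KS6_47.SJ.H227.EN

namespace Pool.Agent.KS6_47.SJ.JC

open Pool.Agent.KS6_47.SJ.H578.JD Pool.Agent.KS6_47.SJ.H578.JD.Oracle Pool.Agent.KS6_47.SJ.H578.JD.Defs

theorem prf_types : S_types := by
  intro M _ _ _ _ _ hM hcompr h1 h2 hos hdd n k x
  obtain ⟨a, c, hac⟩ := h2.code k x
  have hX := hcompr M hM h1 h2 hos (fun x ν => Ty (n + 1) (bs (x 0) (x 1)) (ν 0)) (hdd (n + 1))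
    (fun i => if i = 0 then a else c) (fun _ => 0)
  refine ⟨_, hX, ?_⟩
  intro u hu
  have e1 : (fun i : ℕ => if i = 0 then a else c) 0 = a := by simp
  have e2 : (fun i : ℕ => if i = 0 then a else c) 1 = c := by simp
  simp only [Set.mem_setOf_eq, Function.update_self]
  refine Ty_congr fun i hi => ?_
  simp only [if_true, one_ne_zero, if_false]
  exact hac i (lt_of_lt_of_le hi hu)

end Pool.Agent.KS6_47.SJ.JC
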