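import Pool.Agent.KS6_47.SJ.JC.Stmts

/-!
Step N: from level `n + 2` to level `n + 1`.
-/

set_option autoImplicit false

open FirstOrder FirstOrder.Language Pool.Agent.KS6_47.SJ.H227.EN

namespace Pool.Agent.KS6_47.SJ.JC.StepN

open Pool.Agent.KS6_47.SJ.H578.JD Pool.Agent.KS6_47.SJ.H578.JD.Oracle Pool.Agent.KS6_47.SJ.H578.JD.Defs
open Pool.Agent.KS6_47.SJ.H578.JD.RE

/-- entries: names of the previous tuple, number of positions, index of the type -/
abbrev Ent := List ℕ × (ℕ × ℕ)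

/-- advice: names, index of the set of facts, names of the code of witnesses -/
abbrev Adv := List ℕ × (ℕ × (ℕ × ℕ))

/-- number of positions before the entry `t` -/
def pm (χ : List Ent) (t : ℕ) : ℕ := if t = 0 then 0 else (χ.getD (t - 1) ([], (0, 0))).2.1

/-- index in the entry `t` -/
def xs (χ : List Ent) (t : ℕ) : ℕ := (χ.getD t ([], (0, 0))).2.2

/-- names in the entry `t` -/
def ys (χ : List Ent) (t : ℕ) : List ℕ := (χ.getD t ([], (0, 0))).1

/-- the list of levels -/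
def lev (x0 : ℕ) (χ : List Ent) : List (ℕ × ℕ) := (0, x0) :: χ.map fun e => (e.2.1, e.2.2)

/-- identity constraints -/
def idc (m : ℕ) : ℕ := con (fun i => 2 * i) m

/-- constraints for a new element at position `p` -/
def Fst (m p : ℕ) : ℕ := cod ((List.range m).map (fun i => Nat.pair i (2 * i)) ++ [Nat.pair p (2 * m)])

/-- the terms for the witness of `z` -/
def wz (Y : List ℕ) (l j1 j2 p z : ℕ) (t : ℕ) : ℕ :=
  if t < Y.length then 2 * Y.getD t 0 else if t = p then 2 * l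
  else bterm (2 * j1) (2 * j2) (Nat.pair z t)

/-- lifting of literals -/
def lfe (s e : ℕ) : ℕ := 2 * lft s (e / 2) + e % 2

/-- the first function for classes -/
def hN (f a b : ℕ) : ℕ := Nat.pair f.unpair.1 (cod (lst a ++ (lst b).map (lfe f.unpair.2)))

/-- the second function for classes -/
def hX (f a b : ℕ) : ℕ := Nat.pair f (cod (lst a ++ lst b))

/-- parameters of the first class -/
def piN (Y : List ℕ) (i : ℕ) (σ : ℕ × ℕ) : (ℕ × ℕ × ℕ) × List (ℕ × ℕ) :=
  ((max σ.1 Y.length + 1, σ.1, σ.2), [(Nat.pair (Fst Y.length (max σ.1 Y.length)) σ.1, i)])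

/-- parameters of the second class -/
def piX (x0 : ℕ) (χ : List Ent) (σ : ℕ × ℕ) : (ℕ × ℕ × ℕ) × List (ℕ × ℕ) :=
  ((σ.1 + 1, σ.1, σ.2), (lev x0 χ).map fun l => (idc l.1, l.2))

theorem pm_zero (χ : List Ent) : pm χ 0 = 0 := rfl

theorem pm_succ (χ : List Ent) (t : ℕ) : pm χ (t + 1) = (χ.getD t ([], (0, 0))).2.1 := by
  unfold pm
  simp

theorem getD_append_left (χ : List Ent) (e : Ent) {t : ℕ} (h : t < χ.length) (d : Ent) :
    (χ ++ [e]).getD t d = χ.getD t d := by
  rw [List.getD_eq_getElem?_getD, List.getD_eq_getElem?_getD, List.getElem?_append_left h]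

theorem getD_append_self (χ : List Ent) (e : Ent) (d : Ent) :
    (χ ++ [e]).getD χ.length d = e := by
  rw [List.getD_eq_getElem?_getD]
  simp

theorem pm_append_left (χ : List Ent) (e : Ent) {t : ℕ} (h : t ≤ χ.length) :
    pm (χ ++ [e]) t = pm χ t := by
  cases t with
  | zero => rfl
  | succ t => rw [pm_succ, pm_succ, getD_append_left χ e h]

theorem pm_append_self (χ : List Ent) (e : Ent) : pm (χ ++ [e]) (χ.length + 1) = e.2.1 := by
  rw [pm_succ, getD_append_self]

section sem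
variable {M : Type} [CommSemiring M] [LinearOrder M] [LA.Structure M]
variable (B : Set ℕ) (n x0 : ℕ) (C : ℕ → M)

/-- the tuple with the names `Y` -/
def nmY (Y : List ℕ) : ℕ → M := fun i => C (Y.getD i 0)

/-- truth of a chain, witnessed by the names `Y` -/
def TrY (χ : List Ent) (Y : List ℕ) : Prop :=
  Y.length = pm χ χ.length ∧ ∀ t < χ.length,
    (ys χ t = Y.take (pm χ t) ∧ pm χ t < pm χ (t + 1) ∧ pm χ (t + 1) ≤ Y.length ∧
      Y.getD (pm χ (t + 1) - 1) 0 = t) ∧
    IsT (n + 2) (pm χ (t + 1)) (nmY C Y) (Rw B (xs χ t))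

/-- soundness of the index `i` -/
def Snd (Y : List ℕ) (i l j1 j2 : ℕ) : Prop :=
  ∀ p E : ℕ, Y.length ≤ p → Nat.pair (Fst Y.length p) E ∈ Rw B i →
    ∀ e ∈ lst E, Lit (Ty (n + 2) (fun t => hat C (wz Y l j1 j2 p (Nat.pair (Fst Y.length p) E) t))) e

/-- good advice -/
def G (χ : List Ent) (j : ℕ) : Prop :=
  TrY B n C χ (Denumerable.ofNat Adv j).1 ∧
  Snd B n C (Denumerable.ofNat Adv j).1 (Denumerable.ofNat Adv j).2.1 χ.length
    (Denumerable.ofNat Adv j).2.2.1 (Denumerable.ofNat Adv j).2.2.2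

/-- consistency -/
def Cs (χ : List Ent) (σ : ℕ × ℕ) : Prop :=
  ∀ l ∈ lev x0 χ, ∀ t, Nat.pair (idc l.1) (cod (lits (Rw B σ.2) t σ.1)) ∈ Rw B l.2

variable {B n x0 C}

theorem mem_F1 {m a : ℕ} {x : ℕ → M} (h : IsT (n + 2) m x (Rw B a)) (E : List ℕ) :
    Nat.pair (idc m) (cod E) ∈ Rw B a ↔
      ∃ y : ℕ → M, (∀ i < m, y i = x i) ∧ ∀ e ∈ E, Lit (Ty (n + 1) y) e := by
  have h1 : sup (Nat.pair (idc m) (cod E)) ≤ m := sup_con_le fun i hi => by rw [mv_var]; omega
  rw [h _ h1, Ty_succ_iff]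
  refine exists_congr fun y => and_congr_left fun _ => ?_
  exact Con_id

theorem real_F2 (hP : Pack M) (hB : Enum B (SSp M)) {m a s r : ℕ} {x : ℕ → M}
    (h : IsT (n + 2) m x (Rw B a))
    (h2 : ∀ t, Nat.pair (idc m) (cod (lits (Rw B r) t s)) ∈ Rw B a) :
    ∃ y : ℕ → M, (∀ i < m, y i = x i) ∧ IsT (n + 1) s y (Rw B r) := by
  have h3 : Rw B r ∈ SSp M := (hB _).2 ⟨r, rfl⟩
  obtain ⟨y, hy, hy2⟩ := hP.sat n s (idc m) x _ h3 fun t => by
    obtain ⟨y, hy, hy2⟩ := (mem_F1 h _).1 (h2 t)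
    exact ⟨y, Con_id.2 hy, hy2⟩
  exact ⟨y, Con_id.1 hy, hy2⟩

theorem Con_Fst {m p : ℕ} {y x : ℕ → M} : Con (Fst m p) y x ↔ (∀ i < m, y i = x i) ∧ y p = x m := by
  unfold Con Fst
  rw [lst_cod]
  simp only [List.mem_append, List.mem_map, List.mem_range, List.mem_singleton]
  constructor
  · intro h
    constructor
    · intro i hi
      have := h (Nat.pair i (2 * i)) (Or.inl ⟨i, hi, rfl⟩)
      rwa [Nat.unpair_pair, hat_var] at this
    · have := h (Nat.pair p (2 * m)) (Or.inr rfl)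
      rwa [Nat.unpair_pair, hat_var] at this
  · rintro ⟨h1, h2⟩ f (⟨i, hi, rfl⟩ | rfl)
    · rw [Nat.unpair_pair, hat_var]; exact h1 i hi
    · rw [Nat.unpair_pair, hat_var]; exact h2

theorem sup_Fst (m p E : ℕ) : sup (Nat.pair (Fst m p) E) ≤ m + 1 := by
  rw [sup_le, Nat.unpair_pair]
  unfold Fst
  rw [lst_cod]
  intro f hf
  simp only [List.mem_append, List.mem_map, List.mem_range, List.mem_singleton] at hf
  rcases hf with ⟨i, hi, rfl⟩ | rfl
  · rw [Nat.unpair_pair, mv_var]; omega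
  · rw [Nat.unpair_pair, mv_var]

/-- truth of lifted literals -/
theorem Lit_lfe {s e : ℕ} {y : ℕ → M} (h : sup (e / 2) ≤ s) :
    Lit (Ty (n + 2) y) (lfe s e) ↔ Lit (Ty (n + 1) y) e := by
  unfold Lit lfe
  have h1 : (2 * lft s (e / 2) + e % 2) / 2 = lft s (e / 2) := by omega
  have h2 : (2 * lft s (e / 2) + e % 2) % 2 = e % 2 := by omega
  rw [h1, h2, ← Ty_lft y h]

theorem sup_of_mem_lits {X : Set ℕ} {t s e : ℕ} (h : e ∈ lits X t s) : sup (e / 2) ≤ s := by
  obtain ⟨u, hu, ⟨hk, ⟨hX, rfl⟩ | ⟨hX, rfl⟩⟩ | ⟨hk, rfl⟩⟩ := mem_lits.1 h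
  · have : (2 * u + 1) / 2 = u := by omega
    rwa [this]
  · have : (2 * u) / 2 = u := by omega
    rwa [this]
  · have : 1 / 2 = 0 := rfl
    rw [this, sup_zero]; exact Nat.zero_le _

theorem all_lfe {X : Set ℕ} {t s : ℕ} {y : ℕ → M} :
    (∀ e ∈ (lits X t s).map (lfe s), Lit (Ty (n + 2) y) e) ↔
      ∀ e ∈ lits X t s, Lit (Ty (n + 1) y) e := by
  simp only [List.mem_map, forall_exists_index, and_imp, forall_apply_eq_imp_iff₂]
  exact forall₂_congr fun e he => Lit_lfe (sup_of_mem_lits he)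

theorem lev_append (χ : List Ent) (e : Ent) : lev x0 (χ ++ [e]) = lev x0 χ ++ [(e.2.1, e.2.2)] := by
  unfold lev
  simp

/-- all levels of a true chain are true for the same tuple -/
theorem lev_true (h0 : IsT (n + 2) 0 C (Rw B x0)) {χ : List Ent} {Y : List ℕ}
    (h : TrY B n C χ Y) : ∀ l ∈ lev x0 χ, l.1 ≤ Y.length ∧ IsT (n + 2) l.1 (nmY C Y) (Rw B l.2) := by
  intro l hl
  unfold lev at hl
  rcases List.mem_cons.1 hl with rfl | hl
  · exact ⟨Nat.zero_le _, h0.congr fun i hi => absurd hi (Nat.not_lt_zero i)⟩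
  · obtain ⟨e, he, rfl⟩ := List.mem_map.1 hl
    obtain ⟨t, ht, rfl⟩ := List.getElem_of_mem he
    have h1 : χ.getD t ([], (0, 0)) = χ[t] := by
      rw [List.getD_eq_getElem?_getD, List.getElem?_eq_getElem ht]; rfl
    obtain ⟨⟨-, -, h3, -⟩, h4⟩ := h.2 t ht
    rw [pm_succ, h1] at h3 h4
    unfold xs at h4
    rw [h1] at h4
    exact ⟨h3, h4⟩

/-- the last level -/
theorem lev_last (x0 : ℕ) {χ : List Ent} {Y : List ℕ} (h : TrY B n C χ Y) :
    ∃ a, (Y.length, a) ∈ lev x0 χ := by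
  rw [h.1]
  rcases List.eq_nil_or_concat χ with rfl | ⟨χ', e, rfl⟩
  · exact ⟨x0, by simp [lev, pm]⟩
  · refine ⟨e.2.2, ?_⟩
    rw [List.concat_eq_append, lev_append]
    have : pm (χ' ++ [e]) (χ' ++ [e]).length = e.2.1 := by
      rw [List.length_append]; exact pm_append_self χ' e
    rw [this]
    simp

/-- names of a finite tuple -/
theorem exists_names (hC : Function.Surjective C) (y : ℕ → M) (Y : List ℕ) (p l : ℕ)
    (hp : Y.length ≤ p) (h1 : ∀ i < Y.length, y i = nmY C Y i) (h2 : y p = C l) :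
    ∃ Y' : List ℕ, Y'.length = p + 1 ∧ Y = Y'.take Y.length ∧ Y'.getD p 0 = l ∧
      ∀ i < p + 1, nmY C Y' i = y i := by
  choose f hf using hC
  let F : ℕ → ℕ := fun i => if i < Y.length then Y.getD i 0 else if i = p then l else f (y i)
  have hg : ∀ i < p + 1, ((List.range (p + 1)).map F).getD i 0 = F i := by
    intro i hi
    rw [List.getD_eq_getElem?_getD, List.getElem?_map, List.getElem?_range hi]
    rfl
  refine ⟨(List.range (p + 1)).map F, by simp, ?_, ?_, ?_⟩
  · refine List.ext_getElem? fun i => ?_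
    by_cases hi : i < Y.length
    · rw [List.getElem?_take_of_lt hi, List.getElem?_map, List.getElem?_range (by omega),
        List.getElem?_eq_getElem hi]
      simp only [Option.map_some, F, hi, if_true]
      rw [List.getD_eq_getElem?_getD, List.getElem?_eq_getElem hi]
      rfl
    · rw [List.getElem?_eq_none (by omega), List.getElem?_eq_none]
      simp
      omega
  · rw [hg p (Nat.lt_succ_self p)]
    simp only [F]
    rw [if_neg (by omega)]
    simp
  · intro i hi
    unfold nmY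
    rw [hg i hi]
    simp only [F]
    by_cases hi2 : i < Y.length
    · rw [if_pos hi2, h1 i hi2]; rfl
    · rw [if_neg hi2]
      by_cases hi3 : i = p
      · rw [if_pos hi3, hi3, h2]
      · rw [if_neg hi3, hf]

/-- extension of a true chain -/
theorem TrY_append {χ : List Ent} {Y Y' : List ℕ} {p x' : ℕ} (h : TrY B n C χ Y)
    (hp : Y.length ≤ p) (h1 : Y'.length = p + 1) (h2 : Y = Y'.take Y.length)
    (h3 : Y'.getD p 0 = χ.length) (h4 : IsT (n + 2) (p + 1) (nmY C Y') (Rw B x')) :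
    TrY B n C (χ ++ [(Y, (p + 1, x'))]) Y' := by
  have hget : ∀ i < Y.length, Y.getD i 0 = Y'.getD i 0 := by
    intro i hi
    have : Y[i]? = Y'[i]? := by
      conv_lhs => rw [h2]
      exact List.getElem?_take_of_lt hi
    rw [List.getD_eq_getElem?_getD, List.getD_eq_getElem?_getD, this]
  have hlen : (χ ++ [(Y, (p + 1, x'))]).length = χ.length + 1 := by simp
  refine ⟨?_, fun t ht => ?_⟩
  · rw [hlen, pm_append_self, h1]
  · rw [hlen] at ht
    rcases Nat.lt_succ_iff_lt_or_eq.1 ht with ht | rfl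
    · obtain ⟨⟨a1, a2, a3, a4⟩, a5⟩ := h.2 t ht
      have e1 : pm (χ ++ [(Y, (p + 1, x'))]) t = pm χ t := pm_append_left χ _ (by omega)
      have e2 : pm (χ ++ [(Y, (p + 1, x'))]) (t + 1) = pm χ (t + 1) := pm_append_left χ _ (by omega)
      have e3 : ys (χ ++ [(Y, (p + 1, x'))]) t = ys χ t := by
        unfold ys; rw [getD_append_left χ _ ht]
      have e4 : xs (χ ++ [(Y, (p + 1, x'))]) t = xs χ t := by
        unfold xs; rw [getD_append_left χ _ ht]
      rw [e1, e2, e3, e4]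
      refine ⟨⟨?_, a2, by omega, ?_⟩, a5.congr fun i hi => ?_⟩
      · rw [a1]
        conv_lhs => rw [h2]
        rw [List.take_take, min_eq_left (by omega)]
      · rw [← hget _ (by omega)]; exact a4
      · unfold nmY
        rw [hget i (by omega)]
    · have e1 : pm (χ ++ [(Y, (p + 1, x'))]) χ.length = Y.length := by
        rw [pm_append_left χ _ le_rfl, h.1]
      have e2 : pm (χ ++ [(Y, (p + 1, x'))]) (χ.length + 1) = p + 1 := pm_append_self χ _
      have e3 : ys (χ ++ [(Y, (p + 1, x'))]) χ.length = Y := by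
        unfold ys; rw [getD_append_self χ]
      have e4 : xs (χ ++ [(Y, (p + 1, x'))]) χ.length = x' := by
        unfold xs; rw [getD_append_self χ]
      rw [e1, e2, e3, e4]
      exact ⟨⟨h2, by omega, by omega, by simpa using h3⟩, h4⟩

/-- the base sequence for the advice -/
def cseq (C : ℕ → M) (Y : List ℕ) (l : ℕ) : ℕ → M := fun i => if i < Y.length then nmY C Y i else C l

theorem Cls_hN {Y : List ℕ} {i : ℕ} {σ : ℕ × ℕ} {X : Set ℕ} :
    Cls B hN (piN Y i σ) X ↔ ∀ t, Nat.pair (Fst Y.length (max σ.1 Y.length))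
      (cod (lits X t (max σ.1 Y.length + 1) ++ (lits (Rw B σ.2) t σ.1).map (lfe σ.1))) ∈ Rw B i := by
  unfold Cls piN hN
  simp only [List.mem_singleton, forall_eq, Nat.unpair_pair, lst_cod]

theorem Cls_hX {χ : List Ent} {σ : ℕ × ℕ} {X : Set ℕ} :
    Cls B hX (piX x0 χ σ) X ↔ ∀ l ∈ lev x0 χ, ∀ t, Nat.pair (idc l.1)
      (cod (lits X t (σ.1 + 1) ++ lits (Rw B σ.2) t σ.1)) ∈ Rw B l.2 := by
  unfold Cls piX hX
  simp only [List.mem_map, forall_exists_index, and_imp, forall_apply_eq_imp_iff₂, lst_cod]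
  constructor
  · intro h l hl t; exact h t l hl
  · intro h t l hl; exact h l hl t

/-- condition (2) -/
theorem cond2 (hP : Pack M) (hB : Enum B (SSp M)) (hC : Function.Surjective C) {χ : List Ent} {Y : List ℕ} {i j1 j2 x' : ℕ} {σ : ℕ × ℕ}
    (hT : TrY B n C χ Y) (hS : Snd B n C Y i χ.length j1 j2) (hσ : Cs B x0 χ σ)
    (hx : Cls B hN (piN Y i σ) (Rw B x')) :
    (∃ Y', TrY B n C (χ ++ [(Y, (max σ.1 Y.length + 1, x'))]) Y') ∧
      Cs B x0 (χ ++ [(Y, (max σ.1 Y.length + 1, x'))]) σ := by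
  obtain ⟨s, r⟩ := σ
  simp only at hx ⊢
  set p := max s Y.length with hp
  have hpY : Y.length ≤ p := le_max_right _ _
  have hps : s ≤ p := le_max_left _ _
  rw [Cls_hN] at hx
  simp only at hx
  rw [← hp] at hx
  -- realisations of finite parts
  have key : ∀ t, ∃ y : ℕ → M, Con (Fst Y.length p) y (cseq C Y χ.length) ∧
      (∀ e ∈ lits (Rw B x') t (p + 1), Lit (Ty (n + 2) y) e) ∧
      ∀ e ∈ lits (Rw B r) t s, Lit (Ty (n + 1) y) e := by
    intro t
    have h1 := hS p _ hpY (hx t)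
    rw [lst_cod] at h1
    refine ⟨_, ?_, fun e he => h1 e (List.mem_append_left _ he), ?_⟩
    · rw [Con_Fst]
      refine ⟨fun i hi => ?_, ?_⟩
      · show hat C (wz _ _ _ _ _ _ _) = _
        unfold wz cseq nmY
        rw [if_pos hi, if_pos hi, hat_var]
      · show hat C (wz _ _ _ _ _ _ _) = _
        unfold wz cseq
        rw [if_neg (by omega), if_pos rfl, if_neg (lt_irrefl _), hat_var]
    · rw [← all_lfe]
      exact fun e he => h1 e (List.mem_append_right _ he)
  have hX : Rw B x' ∈ SSp M := (hB _).2 ⟨x', rfl⟩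
  obtain ⟨y, hy1, hy2⟩ := hP.sat (n + 1) (p + 1) (Fst Y.length p) (cseq C Y χ.length) _ hX
    fun t => by
      obtain ⟨y, h1, h2, -⟩ := key t
      exact ⟨y, h1, h2⟩
  have hyr : IsT (n + 1) s y (Rw B r) := by
    intro u hu
    obtain ⟨y', -, h2, h3⟩ := key (max u (lft s u) + 1)
    rw [all_lits] at h2 h3
    have h4 : sup (lft s u) ≤ p + 1 := (sup_lft_le s u).trans (by omega)
    rw [h3 u (by have := le_max_left u (lft s u); omega) hu, Ty_lft y' hu,
      ← h2 (lft s u) (by have := le_max_right u (lft s u); omega) h4, hy2 _ h4, ← Ty_lft y hu]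
  rw [Con_Fst] at hy1
  obtain ⟨Y', e1, e2, e3, e4⟩ := exists_names hC y Y p χ.length hpY
    (fun i hi => by rw [hy1.1 i hi]; unfold cseq; rw [if_pos hi])
    (by rw [hy1.2]; unfold cseq; rw [if_neg (lt_irrefl _)])
  refine ⟨⟨Y', TrY_append hT hpY e1 e2 e3 (hy2.congr fun i hi => (e4 i hi).symm)⟩, ?_⟩
  intro l hl t
  rw [lev_append] at hl
  rcases List.mem_append.1 hl with hl | hl
  · exact hσ l hl t
  · rw [List.mem_singleton] at hl
    subst hl
    exact (mem_F1 hy2 _).2 ⟨y, fun _ _ => rfl, isT_iff.1 hyr t⟩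

/-- condition (3) -/
theorem cond3 (hP : Pack M) (hB : Enum B (SSp M)) (hC : Function.Surjective C)
    (h0 : IsT (n + 2) 0 C (Rw B x0)) {χ : List Ent} {Y : List ℕ} (hT : TrY B n C χ Y) :
    ∃ i j1 j2, Snd B n C Y i χ.length j1 j2 ∧ ∀ σ, Cs B x0 χ σ →
      ∃ X ∈ SSp M, Cls B hN (piN Y i σ) X := by
  obtain ⟨X, hX, hXT⟩ := hP.types (n + 2) (Y.length + 1) (cseq C Y χ.length)
  obtain ⟨i, rfl⟩ := (hB _).1 hX
  obtain ⟨a, c, hac⟩ := hP.skol (n + 2) (Y.length + 1) (cseq C Y χ.length)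
  obtain ⟨j1, rfl⟩ := hC a
  obtain ⟨j2, rfl⟩ := hC c
  refine ⟨i, j1, j2, ?_, ?_⟩
  · intro p E hp hz e he
    set z := Nat.pair (Fst Y.length p) E with hzd
    have hsup : sup z ≤ Y.length + 1 := sup_Fst _ _ _
    obtain ⟨h1, h2⟩ := hac z hsup ((hXT z hsup).1 hz)
    have hfun : (fun t => hat C (wz Y χ.length j1 j2 p z t)) =
        fun t => bt (C j1) (C j2) (Nat.pair z t) := by
      rw [hzd, Nat.unpair_pair, Con_Fst] at h1
      funext t
      unfold wz
      by_cases ht : t < Y.length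
      · rw [if_pos ht, hat_var]
        have := h1.1 t ht
        rw [← hzd] at this
        rw [this]
        unfold cseq nmY
        rw [if_pos ht]
      · rw [if_neg ht]
        by_cases htp : t = p
        · rw [if_pos htp, hat_var, htp]
          have := h1.2
          rw [← hzd] at this
          rw [this]
          unfold cseq
          rw [if_neg (lt_irrefl _)]
        · rw [if_neg htp, hat_bterm, hat_var, hat_var]
    rw [hfun]
    refine h2 e ?_
    rw [hzd, Nat.unpair_pair]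
    exact he
  · rintro ⟨s, r⟩ hσ
    obtain ⟨a, ha⟩ := lev_last x0 hT
    obtain ⟨y, hy1, hy2⟩ := real_F2 hP hB (lev_true h0 hT _ ha).2 (hσ _ ha)
    simp only at hy1 hy2
    set p := max s Y.length with hp
    let y' : ℕ → M := Function.update y p (C χ.length)
    have hy1' : ∀ i < Y.length, y' i = nmY C Y i := by
      intro i hi
      have : i ≠ p := by have := le_max_right s Y.length; omega
      show Function.update y p _ i = _
      rw [Function.update_of_ne this]; exact hy1 i hi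
    have hyp : y' p = C χ.length := Function.update_self _ _ _
    have hy2' : IsT (n + 1) s y' (Rw B r) := hy2.congr fun i hi => by
      have : i ≠ p := by have := le_max_left s Y.length; omega
      show _ = Function.update y p _ i
      rw [Function.update_of_ne this]
    obtain ⟨X, hX1, hX2⟩ := hP.types (n + 1) (p + 1) y'
    refine ⟨X, hX1, Cls_hN.2 fun t => ?_⟩
    simp only
    rw [← hp, hXT _ (sup_Fst _ _ _), Ty_succ_iff]
    refine ⟨y', Con_Fst.2 ⟨fun i hi => ?_, ?_⟩, fun e he => ?_⟩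
    · rw [hy1' i hi]; unfold cseq; rw [if_pos hi]
    · rw [hyp]; unfold cseq; rw [if_neg (lt_irrefl _)]
    · rcases List.mem_append.1 he with he | he
      · exact isT_iff.1 hX2 t e he
      · exact all_lfe.2 (isT_iff.1 hy2' t) e he

/-- condition (4) -/
theorem cond4 (hP : Pack M) (hB : Enum B (SSp M))
    (h0 : IsT (n + 2) 0 C (Rw B x0)) {χ : List Ent} {Y : List ℕ} (hT : TrY B n C χ Y)
    {σ : ℕ × ℕ} (hσ : Cs B x0 χ σ) : ∃ X ∈ SSp M, Cls B hX (piX x0 χ σ) X := by
  obtain ⟨s, r⟩ := σ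
  obtain ⟨a, ha⟩ := lev_last x0 hT
  obtain ⟨y, hy1, hy2⟩ := real_F2 hP hB (lev_true h0 hT _ ha).2 (hσ _ ha)
  simp only at hy1 hy2
  obtain ⟨X, hX1, hX2⟩ := hP.types n (s + 1) y
  refine ⟨X, hX1, Cls_hX.2 fun l hl t => ?_⟩
  obtain ⟨h1, h2⟩ := lev_true h0 hT l hl
  rw [mem_F1 h2]
  refine ⟨y, fun i hi => hy1 i (by omega), fun e he => ?_⟩
  rcases List.mem_append.1 he with he | he
  · exact isT_iff.1 hX2 t e he
  · exact isT_iff.1 hy2 t e he

/-- condition (4') -/
theorem cond4' (h0 : IsT (n + 2) 0 C (Rw B x0)) {χ0 χ : List Ent} {Y : List ℕ}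
    (hT : TrY B n C χ0 Y) (hpre : χ0 <+: χ) {σ : ℕ × ℕ} {r' : ℕ}
    (hX : Cls B hX (piX x0 χ σ) (Rw B r')) : Cs B x0 χ0 (σ.1 + 1, r') := by
  intro l hl t
  have hl' : l ∈ lev x0 χ := by
    obtain ⟨ρ, rfl⟩ := hpre
    unfold lev at hl ⊢
    rcases List.mem_cons.1 hl with rfl | hl
    · exact List.mem_cons_self
    · rw [List.map_append]
      exact List.mem_cons_of_mem _ (List.mem_append_left _ hl)
  obtain ⟨h1, h2⟩ := lev_true h0 hT l hl
  obtain ⟨y, hy1, hy2⟩ := (mem_F1 h2 _).1 (Cls_hX.1 hX l hl' t)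
  exact (mem_F1 h2 _).2 ⟨y, hy1, fun e he => hy2 e (List.mem_append_left _ he)⟩

/-- the final enumeration -/
theorem final (hC : Function.Surjective C) (h0 : IsT (n + 2) 0 C (Rw B x0))
    (σ : ℕ → ℕ × ℕ) (c : ℕ → Ent) (hσ0 : (σ 0).1 = 0)
    (hσ : ∀ s, ∃ χ, Cls B hX (piX x0 χ (σ s)) (Rw B (σ (s + 1)).2) ∧ (σ (s + 1)).1 = (σ s).1 + 1)
    (hc : ∀ N, (∃ Y, TrY B n C ((List.range N).map c) Y) ∧
      ∃ s1, ∀ s ≥ s1, Cs B x0 ((List.range N).map c) (σ s)) :
    ∃ g : ℕ → M, Function.Surjective g ∧ ∀ k, IsT (n + 1) k g (Rw B (σ k).2) := by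
  -- the first component
  have hfst : ∀ s, (σ s).1 = s := by
    intro s
    induction s with
    | zero => exact hσ0
    | succ s ih => obtain ⟨χ, -, h⟩ := hσ s; rw [h, ih]
  have hget : ∀ N t, t < N → ((List.range N).map c).getD t ([], (0, 0)) = c t := by
    intro N t ht
    rw [List.getD_eq_getElem?_getD, List.getElem?_map, List.getElem?_range ht]
    rfl
  let P : ℕ → ℕ := fun t => if t = 0 then 0 else (c (t - 1)).2.1
  have hpm : ∀ N t, t ≤ N → pm ((List.range N).map c) t = P t := by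
    intro N t ht
    cases t with
    | zero => rfl
    | succ t =>
      rw [pm_succ, hget N t (by omega)]
      simp [P]
  choose Y hY using fun N => (hc N).1
  have hlen : ∀ N, ((List.range N).map c).length = N := fun N => by simp
  have hYl : ∀ N, (Y N).length = P N := by
    intro N
    have := (hY N).1
    rwa [hlen, hpm N N le_rfl] at this
  have hfacts : ∀ N t, t < N → ((c t).1 = (Y N).take (P t) ∧ P t < P (t + 1) ∧
      P (t + 1) ≤ (Y N).length ∧ (Y N).getD (P (t + 1) - 1) 0 = t) ∧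
      IsT (n + 2) (P (t + 1)) (nmY C (Y N)) (Rw B (c t).2.2) := by
    intro N t ht
    have := (hY N).2 t (by rw [hlen]; exact ht)
    rw [hpm N t (by omega), hpm N (t + 1) (by omega)] at this
    unfold ys xs at this
    rw [hget N t ht] at this
    exact this
  have hPlt : ∀ t, P t < P (t + 1) := fun t => (hfacts (t + 1) t (by omega)).1.2.1
  have hPmono : StrictMono P := strictMono_nat_of_lt_succ hPlt
  have hPge : ∀ t, t ≤ P t := fun t => hPmono.id_le t
  let g : ℕ → M := fun i => C ((c (i + 1)).1.getD i 0)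
  have hgY : ∀ N t, t < N → ∀ i < P t, nmY C (Y N) i = C ((c t).1.getD i 0) := by
    intro N t ht i hi
    obtain ⟨⟨h1, -⟩, -⟩ := hfacts N t ht
    unfold nmY
    congr 1
    rw [h1, List.getD_eq_getElem?_getD, List.getD_eq_getElem?_getD, List.getElem?_take_of_lt hi]
  have hgc : ∀ t, ∀ i < P t, C ((c t).1.getD i 0) = g i := by
    intro t i hi
    have h1 := hgY (max t (i + 1) + 1) t (by omega) i hi
    have h2 := hgY (max t (i + 1) + 1) (i + 1) (by omega) i (by
      have := hPge (i + 1); omega)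
    rw [← h1, h2]
  have hT : ∀ t, IsT (n + 2) (P (t + 1)) g (Rw B (c t).2.2) := by
    intro t
    refine (hfacts (t + 2) t (by omega)).2.congr fun i hi => ?_
    rw [hgY (t + 2) (t + 1) (by omega) i hi]
    exact hgc (t + 1) i hi
  refine ⟨g, ?_, ?_⟩
  · intro v
    obtain ⟨t, rfl⟩ := hC v
    have h1 := hPlt t
    refine ⟨P (t + 1) - 1, ?_⟩
    rw [← hgc (t + 1) (P (t + 1) - 1) (by omega), ← hgY (t + 2) (t + 1) (by omega) _ (by omega)]
    unfold nmY
    rw [(hfacts (t + 2) t (by omega)).1.2.2.2]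
  · intro k u hu
    -- coherence of the commitments
    have hcoh : ∀ s ≥ k, (u ∈ Rw B (σ s).2 ↔ u ∈ Rw B (σ k).2) := by
      intro s hs
      induction s, hs using Nat.le_induction with
      | base => rfl
      | succ s hs ih =>
        rw [← ih]
        obtain ⟨χ, h1, h2⟩ := hσ s
        rw [Cls_hX] at h1
        have h3 := h1 (0, x0) (by unfold lev; exact List.mem_cons_self) (u + 1)
        obtain ⟨y, -, h4⟩ := (mem_F1 h0 _).1 h3
        have h5 := all_lits.1 (fun e he => h4 e (List.mem_append_left _ he)) u (by omega)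
          (by rw [hfst]; omega)
        have h6 := all_lits.1 (fun e he => h4 e (List.mem_append_right _ he)) u (by omega)
          (by rw [hfst]; omega)
        rw [h5, h6]
    obtain ⟨s1, hs1⟩ := (hc (k + 1)).2
    rw [← hcoh (max s1 k) (le_max_right _ _)]
    have h1 := hs1 (max s1 k) (le_max_left _ _) (P (k + 1), (c k).2.2) (by
      unfold lev
      refine List.mem_cons_of_mem _ (List.mem_map.2 ⟨c k, List.mem_map.2 ⟨k, by simp, rfl⟩, ?_⟩)
      simp [P]) (u + 1)
    obtain ⟨y, h2, h3⟩ := (mem_F1 (hT k) _).1 h1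
    have hk : sup u ≤ (σ (max s1 k)).1 := by rw [hfst]; exact hu.trans (le_max_right _ _)
    rw [all_lits.1 h3 u (by omega) hk]
    refine Ty_congr fun i hi => h2 i ?_
    have := hPge (k + 1)
    omega

end sem

end Pool.Agent.KS6_47.SJ.JC.StepN
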