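import Pool.Agent.KS6_47.SJ.JC.Basic

/-!
Statements of the independent tasks, as propositions.
-/

set_option autoImplicit false

open FirstOrder FirstOrder.Language Pool.Agent.KS6_47.SJ.H227.EN

namespace Pool.Agent.KS6_47.SJ.JC

open Pool.Agent.KS6_47.SJ.H578.JD Pool.Agent.KS6_47.SJ.H578.JD.Oracle Pool.Agent.KS6_47.SJ.H578.JD.Defs

/-! ### Part A: models of PA -/

/-- the sequence coded by `(a, c)` -/
noncomputable def bs {M : Type} [CommSemiring M] [LinearOrder M] (a c : M) : ℕ → M :=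
  fun i => bt a c i

/-- A1. Induction for definable predicates (with parameters). -/
def S_ind : Prop :=
  ∀ (M : Type) [CommSemiring M] [LinearOrder M] [IsStrictOrderedRing M] [CanonicallyOrderedAdd M]
    [LA.Structure M], NPA M → ∀ R : (ℕ → M) → Prop, Dfn R → ∀ (x : ℕ → M) (k : ℕ),
    R (Function.update x k 0) →
    (∀ y, R (Function.update x k y) → R (Function.update x k (y + 1))) →
    ∀ y, R (Function.update x k y)

/-- A2. Overspill. -/
def S_over : Prop :=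
  ∀ (M : Type) [CommSemiring M] [LinearOrder M] [IsStrictOrderedRing M] [CanonicallyOrderedAdd M]
    [LA.Structure M], NPA M → ∀ R : (ℕ → M) → Prop, Dfn R → ∀ (x : ℕ → M) (k : ℕ),
    (∀ n : ℕ, R (Function.update x k (n : M))) →
    ∃ N : M, (∀ n : ℕ, (n : M) < N) ∧ R (Function.update x k N)

/-- A3. The beta function. -/
def S_bt : Prop :=
  ∀ (M : Type) [CommSemiring M] [LinearOrder M] [IsStrictOrderedRing M] [CanonicallyOrderedAdd M]
    [LA.Structure M], NPA M → ∀ (a c : M) (i : ℕ) (v : M), Beta a c (i : M) v ↔ v = bt a c i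

/-- A4a. The logical part of the definability calculus. -/
structure Calc1 (M : Type) [CommSemiring M] [LinearOrder M] [LA.Structure M] : Prop where
  const : ∀ P : Prop, DD (M := M) fun _ _ => P
  not : ∀ {Q : (ℕ → M) → (ℕ → ℕ) → Prop}, DD Q → DD fun x ν => ¬ Q x ν
  and : ∀ {Q Q' : (ℕ → M) → (ℕ → ℕ) → Prop}, DD Q → DD Q' → DD fun x ν => Q x ν ∧ Q' x ν
  or : ∀ {Q Q' : (ℕ → M) → (ℕ → ℕ) → Prop}, DD Q → DD Q' → DD fun x ν => Q x ν ∨ Q' x ν
  imp : ∀ {Q Q' : (ℕ → M) → (ℕ → ℕ) → Prop}, DD Q → DD Q' → DD fun x ν => Q x ν → Q' x ν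
  iff : ∀ {Q Q' : (ℕ → M) → (ℕ → ℕ) → Prop}, DD Q → DD Q' → DD fun x ν => (Q x ν ↔ Q' x ν)
  ren : ∀ {Q : (ℕ → M) → (ℕ → ℕ) → Prop} (α β : ℕ → ℕ), DD Q →
    DD fun x ν => Q (fun i => x (α i)) (fun i => ν (β i))
  exM : ∀ (Q : (ℕ → M) → (ℕ → ℕ) → M → Prop) (k : ℕ),
    (∀ x ν y v, Q (Function.update x k v) ν y ↔ Q x ν y) →
    DD (fun x ν => Q x ν (x k)) → DD fun x ν => ∃ y, Q x ν y
  allM : ∀ (Q : (ℕ → M) → (ℕ → ℕ) → M → Prop) (k : ℕ),
    (∀ x ν y v, Q (Function.update x k v) ν y ↔ Q x ν y) →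
    DD (fun x ν => Q x ν (x k)) → DD fun x ν => ∀ y, Q x ν y
  exLt : ∀ (Q : (ℕ → M) → (ℕ → ℕ) → ℕ → Prop) (k j : ℕ), j ≠ k →
    (∀ x ν i v, Q x (Function.update ν k v) i ↔ Q x ν i) →
    DD (fun x ν => Q x ν (ν k)) → DD fun x ν => ∃ i < ν j, Q x ν i
  allLt : ∀ (Q : (ℕ → M) → (ℕ → ℕ) → ℕ → Prop) (k j : ℕ), j ≠ k →
    (∀ x ν i v, Q x (Function.update ν k v) i ↔ Q x ν i) →
    DD (fun x ν => Q x ν (ν k)) → DD fun x ν => ∀ i < ν j, Q x ν i
  eq : ∀ i j, DD (M := M) fun x _ => x i = x j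
  eqN : ∀ i j, DD (M := M) fun x ν => x i = (ν j : M)

def S_calc1 : Prop :=
  ∀ (M : Type) [CommSemiring M] [LinearOrder M] [IsStrictOrderedRing M] [CanonicallyOrderedAdd M]
    [LA.Structure M], NPA M → Calc1 M

/-- A4b. Representable functions of standard numbers. -/
structure Calc2 (M : Type) [CommSemiring M] [LinearOrder M] [LA.Structure M] : Prop where
  var : ∀ i, RF M fun ν => ν i
  const : ∀ n, RF M fun _ => n
  prim : ∀ g : ℕ → ℕ, Primrec g → ∀ f, RF M f → RF M fun ν => g (f ν)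
  prim2 : ∀ g : ℕ → ℕ → ℕ, Primrec₂ g → ∀ f f', RF M f → RF M f' → RF M fun ν => g (f ν) (f' ν)
  eqN : ∀ i f, RF M f → DD (M := M) fun x ν => x i = (f ν : M)
  subst : ∀ (Q : (ℕ → M) → (ℕ → ℕ) → ℕ → Prop) (k : ℕ),
    (∀ x ν i v, Q x (Function.update ν k v) i ↔ Q x ν i) →
    DD (fun x ν => Q x ν (ν k)) → ∀ f, RF M f → DD fun x ν => Q x ν (f ν)
  rel : ∀ P : ℕ → Prop, (∃ g : ℕ → Bool, Primrec g ∧ ∀ n, P n ↔ g n = true) →
    ∀ f, RF M f → DD (M := M) fun _ ν => P (f ν)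
  btD : DD (M := M) fun x ν => x 2 = JC.bt (x 0) (x 1) (ν 0)
  dvd : DD (M := M) fun x ν => ((Nat.nth Nat.Prime (ν 0) : ℕ) : M) ∣ x 0
  beta : ∀ (a c : M) (i : ℕ) (v : M), Beta a c (i : M) v ↔ v = JC.bt a c i
  code : ∀ (k : ℕ) (x : ℕ → M), ∃ a c : M, ∀ i < k, JC.bt a c i = x i

def S_calc2 : Prop :=
  ∀ (M : Type) [CommSemiring M] [LinearOrder M] [IsStrictOrderedRing M] [CanonicallyOrderedAdd M]
    [LA.Structure M], NPA M → S_bt → Calc1 M → Calc2 M

/-- A5. Saturation for uniformly definable sequences of conditions on two elements. -/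
def S_os : Prop :=
  ∀ (M : Type) [CommSemiring M] [LinearOrder M] [IsStrictOrderedRing M] [CanonicallyOrderedAdd M]
    [LA.Structure M], NPA M → ∀ Q : (ℕ → M) → (ℕ → ℕ) → Prop, DD Q → ∀ (x : ℕ → M) (ν : ℕ → ℕ),
    (∀ N : ℕ, ∃ y z : M, ∀ u < N,
      Q (Function.update (Function.update x 0 y) 1 z) (Function.update ν 0 u)) →
    ∃ y z : M, ∀ u : ℕ,
      Q (Function.update (Function.update x 0 y) 1 z) (Function.update ν 0 u)

/-- A6. The values of terms are definable. -/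
def S_ddhat : Prop :=
  ∀ (M : Type) [CommSemiring M] [LinearOrder M] [IsStrictOrderedRing M] [CanonicallyOrderedAdd M]
    [LA.Structure M], NPA M → Calc1 M → Calc2 M →
    DD (M := M) fun x ν => x 2 = hat (bs (x 0) (x 1)) (ν 0)

/-- A7a. Constraints are definable. -/
def S_ddcon : Prop :=
  ∀ (M : Type) [CommSemiring M] [LinearOrder M] [IsStrictOrderedRing M] [CanonicallyOrderedAdd M]
    [LA.Structure M], NPA M → Calc1 M → Calc2 M →
    DD (M := M) (fun x ν => x 2 = hat (bs (x 0) (x 1)) (ν 0)) →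
    DD (M := M) fun x ν => Con (ν 0) (bs (x 0) (x 1)) (bs (x 2) (x 3))

/-- A7b. The types are definable. -/
def S_ddty : Prop :=
  ∀ (M : Type) [CommSemiring M] [LinearOrder M] [IsStrictOrderedRing M] [CanonicallyOrderedAdd M]
    [LA.Structure M], NPA M → Calc1 M → Calc2 M →
    DD (M := M) (fun x ν => Con (ν 0) (bs (x 0) (x 1)) (bs (x 2) (x 3))) →
    ∀ n, DD (M := M) fun x ν => Ty n (bs (x 0) (x 1)) (ν 0)

/-- A9. Comprehension: the trace of a definable predicate is in the standard system. -/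
def S_compr : Prop :=
  ∀ (M : Type) [CommSemiring M] [LinearOrder M] [IsStrictOrderedRing M] [CanonicallyOrderedAdd M]
    [LA.Structure M], NPA M → Calc1 M → Calc2 M → S_os → ∀ Q : (ℕ → M) → (ℕ → ℕ) → Prop, DD Q →
    ∀ (x : ℕ → M) (ν : ℕ → ℕ), {u | Q x (Function.update ν 0 u)} ∈ SSp M

/-- A10. The types are in the standard system. -/
def S_types : Prop :=
  ∀ (M : Type) [CommSemiring M] [LinearOrder M] [IsStrictOrderedRing M] [CanonicallyOrderedAdd M]
    [LA.Structure M], NPA M → S_compr → Calc1 M → Calc2 M → S_os →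
    (∀ n, DD (M := M) fun x ν => Ty n (bs (x 0) (x 1)) (ν 0)) →
    ∀ (n k : ℕ) (x : ℕ → M), ∃ X ∈ SSp M, IsT (n + 1) k x X

/-- A11. Saturation: a type in the standard system which is finitely satisfiable is realised. -/
def S_sat : Prop :=
  ∀ (M : Type) [CommSemiring M] [LinearOrder M] [IsStrictOrderedRing M] [CanonicallyOrderedAdd M]
    [LA.Structure M], NPA M → Calc1 M → Calc2 M → S_os →
    DD (M := M) (fun x ν => Con (ν 0) (bs (x 0) (x 1)) (bs (x 2) (x 3))) →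
    (∀ n, DD (M := M) fun x ν => Ty n (bs (x 0) (x 1)) (ν 0)) →
    ∀ (n k c : ℕ) (x : ℕ → M) (X : Set ℕ), X ∈ SSp M →
      (∀ t, ∃ y, Con c y x ∧ ∀ e ∈ lits X t k, Lit (Ty (n + 1) y) e) →
      ∃ y, Con c y x ∧ IsT (n + 1) k y X

/-- A12. Codes of witnesses. -/
def S_skol : Prop :=
  ∀ (M : Type) [CommSemiring M] [LinearOrder M] [IsStrictOrderedRing M] [CanonicallyOrderedAdd M]
    [LA.Structure M], NPA M → Calc1 M → Calc2 M → S_os →
    DD (M := M) (fun x ν => Con (ν 0) (bs (x 0) (x 1)) (bs (x 2) (x 3))) →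
    (∀ n, DD (M := M) fun x ν => Ty n (bs (x 0) (x 1)) (ν 0)) →
    ∀ (n k : ℕ) (x : ℕ → M), ∃ a c : M, ∀ z, sup z ≤ k → Ty (n + 1) x z →
      Con z.unpair.1 (fun i => bt a c (Nat.pair z i)) x ∧
      ∀ e ∈ lst z.unpair.2, Lit (Ty n (fun i => bt a c (Nat.pair z i))) e

/-- the set coded by an element -/
def Xc {M : Type} [CommSemiring M] (c : M) : Set ℕ :=
  {u | ((Nat.nth Nat.Prime u : ℕ) : M) ∣ c}

/-- A13a. Definability of primitive recursive functions of initial segments of coded sets. -/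
def S_ddlits : Prop :=
  ∀ (M : Type) [CommSemiring M] [LinearOrder M] [IsStrictOrderedRing M] [CanonicallyOrderedAdd M]
    [LA.Structure M], NPA M → Calc1 M → Calc2 M →
    ∀ (k s : ℕ) (g : ℕ → ℕ → ℕ), Primrec₂ g →
      DD (M := M) fun x ν => g (cod (lits (Xc (x 0)) (ν 0) k)) (cod (lits (Xc (x 2)) (ν 0) s)) ∈
        Xc (x 3)

/-- A13b. Closed classes with parameters in the standard system have members in it. -/
def S_wkl : Prop :=
  ∀ (M : Type) [CommSemiring M] [LinearOrder M] [IsStrictOrderedRing M] [CanonicallyOrderedAdd M]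
    [LA.Structure M], NPA M → Calc1 M → Calc2 M → S_os → S_ddlits →
    ∀ (k s len : ℕ) (A : ℕ → Set ℕ), (∀ l < len, A l ∈ SSp M) → ∀ Y ∈ SSp M,
    ∀ h : ℕ → ℕ → ℕ → ℕ, (∀ l, Primrec₂ (h l)) →
    (∀ N, ∃ X : Set ℕ, ∀ t ≤ N, ∀ l < len, h l (cod (lits X t k)) (cod (lits Y t s)) ∈ A l) →
    ∃ X ∈ SSp M, ∀ t, ∀ l < len, h l (cod (lits X t k)) (cod (lits Y t s)) ∈ A l

/-! ### Part B: computability of the codings -/

def S_prim : Prop :=
  Primrec lst ∧ Primrec cod ∧ Primrec mv ∧ Primrec sup ∧ Primrec₂ lft ∧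
  (∀ (α : Type) [Primcodable α] (w : α → ℕ → ℕ), Primrec₂ w →
    Primrec₂ (fun a j => tau (w a) j) ∧ Primrec₂ (fun a z => sb (w a) z) ∧
    Primrec₂ fun a m => con (w a) m)

/-! ### Part C: computability theory -/

/-- C1. The limit lemma: approximations of predicates decidable in the jump. -/
def S_limit : Prop :=
  ∀ (α : Type) [Primcodable α] (A : Set ℕ) (P : α → Prop), DecIn (jump A) P →
    ∃ b : α × ℕ → Bool, CompIn A b ∧ ∀ a, ∃ s0, ∀ s ≥ s0, (b (a, s) = true ↔ P a)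

/-- C2. Finite injury. `G` says which advice is good for a chain, `N` computes the next entry of the
chain from the advice, `X` extends the commitments in a way compatible with the chain, `Tr` says
that the chain is true and `Cs` that the chain is consistent with the commitment. -/
def S_fi : Prop :=
  ∀ (E S : Type) [Primcodable E] [Primcodable S] (O : Set ℕ)
    (G : List E → ℕ → Prop) (_ : DecIn (jump O) fun p : List E × ℕ => G p.1 p.2)
    (N : List E → ℕ → S → Option E) (_ : CompIn O fun p : List E × (ℕ × S) => N p.1 p.2.1 p.2.2)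
    (X : List E → S → Option S) (_ : CompIn O fun p : List E × S => X p.1 p.2)
    (Tr : List E → Prop) (Cs : List E → S → Prop) (s0 : S)
    (_ : Tr []) (_ : Cs [] s0)
    (_ : ∀ χ j σ e, Tr χ → G χ j → Cs χ σ → N χ j σ = some e → Tr (χ ++ [e]) ∧ Cs (χ ++ [e]) σ)
    (_ : ∀ χ, Tr χ → ∃ j, G χ j ∧ ∀ σ, Cs χ σ → (N χ j σ).isSome)
    (_ : ∀ χ σ, Tr χ → Cs χ σ → (X χ σ).isSome)
    (_ : ∀ χ0 χ σ σ', Tr χ0 → χ0 <+: χ → Cs χ0 σ → X χ σ = some σ' → Cs χ0 σ'),
    ∃ (σ : ℕ → S) (c : ℕ → E), CompIn O σ ∧ σ 0 = s0 ∧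
      (∀ s, Cs [] (σ s) ∧ ∃ χ, X χ (σ s) = some (σ (s + 1))) ∧
      ∀ n, Tr ((List.range n).map c) ∧ ∃ s1, ∀ s ≥ s1, Cs ((List.range n).map c) (σ s)

/-- the closed class of all `X` such that certain computed numbers are in rows of `B`;
`π = ((k, s, r), list)` -/
def Cls (B : Set ℕ) (h : ℕ → ℕ → ℕ → ℕ) (π : (ℕ × ℕ × ℕ) × List (ℕ × ℕ)) (X : Set ℕ) : Prop :=
  ∀ t, ∀ l ∈ π.2, h l.1 (cod (lits X t π.1.1)) (cod (lits (Rw B π.1.2.2) t π.1.2.1)) ∈ Rw B l.2

/-- `B` is an enumeration of the family `S` -/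
def Enum (B : Set ℕ) (S : Set (Set ℕ)) : Prop := ∀ X, X ∈ S ↔ ∃ i, X = Rw B i

/-- C3. Members of closed classes with parameters in the standard system can be found with the jump of
the enumeration. -/
def S_decs : Prop :=
  ∀ (M : Type) [CommSemiring M]
    (_ : ∀ (k s len : ℕ) (A : ℕ → Set ℕ), (∀ l < len, A l ∈ SSp M) → ∀ Y ∈ SSp M,
      ∀ h : ℕ → ℕ → ℕ → ℕ, (∀ l, Primrec₂ (h l)) →
      (∀ N, ∃ X : Set ℕ, ∀ t ≤ N, ∀ l < len, h l (cod (lits X t k)) (cod (lits Y t s)) ∈ A l) →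
      ∃ X ∈ SSp M, ∀ t, ∀ l < len, h l (cod (lits X t k)) (cod (lits Y t s)) ∈ A l),
    S_prim → ∀ B, Enum B (SSp M) → ∀ h : ℕ → ℕ → ℕ → ℕ,
    Primrec (fun p : ℕ × (ℕ × ℕ) => h p.1 p.2.1 p.2.2) →
    ∃ f : ((ℕ × ℕ × ℕ) × List (ℕ × ℕ)) → Option ℕ, CompIn (jump B) f ∧
      (∀ π x, f π = some x → Cls B h π (Rw B x)) ∧
      ∀ π, (∃ X ∈ SSp M, Cls B h π X) → (f π).isSome

/-- C4. Computability of literals. -/
def S_clits : Prop :=
  S_prim → ∀ B : Set ℕ, CompIn B fun p : ℕ × (ℕ × ℕ) => lits (Rw B p.1) p.2.1 p.2.2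

/-! ### Part D: the steps -/

/-- the facts about the model used in the constructions -/
structure Pack (M : Type) [CommSemiring M] [LinearOrder M] [LA.Structure M] : Prop where
  types : ∀ (n k : ℕ) (x : ℕ → M), ∃ X ∈ SSp M, IsT (n + 1) k x X
  sat : ∀ (n k c : ℕ) (x : ℕ → M) (X : Set ℕ), X ∈ SSp M →
    (∀ t, ∃ y, Con c y x ∧ ∀ e ∈ lits X t k, Lit (Ty (n + 1) y) e) →
    ∃ y, Con c y x ∧ IsT (n + 1) k y X
  skol : ∀ (n k : ℕ) (x : ℕ → M), ∃ a c : M, ∀ z, sup z ≤ k → Ty (n + 1) x z →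
    Con z.unpair.1 (fun i => bt a c (Nat.pair z i)) x ∧
    ∀ e ∈ lst z.unpair.2, Lit (Ty n (fun i => bt a c (Nat.pair z i))) e
  decs : ∀ B, Enum B (SSp M) → ∀ h : ℕ → ℕ → ℕ → ℕ,
    Primrec (fun p : ℕ × (ℕ × ℕ) => h p.1 p.2.1 p.2.2) →
    ∃ f : ((ℕ × ℕ × ℕ) × List (ℕ × ℕ)) → Option ℕ, CompIn (jump B) f ∧
      (∀ π x, f π = some x → Cls B h π (Rw B x)) ∧
      ∀ π, (∃ X ∈ SSp M, Cls B h π X) → (f π).isSome

/-- D1. Names for the values of terms, and decidability of equality. -/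
def S_names : Prop :=
  ∀ (M : Type) [CommSemiring M] [LinearOrder M] [IsStrictOrderedRing M] [CanonicallyOrderedAdd M]
    [LA.Structure M], NPA M → S_bt → ∀ C : ℕ → M, Function.Surjective C → ∀ A : Set ℕ,
    DecIn A (fun p => Dg C p = true) →
    (DecIn A fun p : ℕ × ℕ => C p.1 = C p.2) ∧
    ∃ nm : ℕ → ℕ, CompIn A nm ∧ ∀ j, C (nm j) = hat C j

/-- D2. The level `n` type of an enumeration is computable in the `n`-th jump. -/
def S_tyjump : Prop :=
  ∀ (M : Type) [CommSemiring M] [LinearOrder M] [IsStrictOrderedRing M] [CanonicallyOrderedAdd M]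
    [LA.Structure M], NPA M → S_prim → ∀ C : ℕ → M, Function.Surjective C → ∀ A : Set ℕ,
    DecIn A (fun p => Dg C p = true) → (DecIn A fun p : ℕ × ℕ => C p.1 = C p.2) →
    (∃ nm : ℕ → ℕ, CompIn A nm ∧ ∀ j, C (nm j) = hat C j) →
    ∀ n, DecIn (jump^[n] A) fun u => Ty n C u

/-- D3. Step K: indices of the types of level `n + 1` can be found with `n + 1` jumps. -/
def S_stepK : Prop :=
  ∀ (M : Type) [CommSemiring M] [LinearOrder M] [IsStrictOrderedRing M] [CanonicallyOrderedAdd M]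
    [LA.Structure M], NPA M → S_prim → Pack M → ∀ C : ℕ → M, Function.Surjective C → ∀ A B : Set ℕ,
    Enum B (SSp M) →
    DecIn A (fun p => Dg C p = true) → (DecIn A fun p : ℕ × ℕ => C p.1 = C p.2) →
    (∃ nm : ℕ → ℕ, CompIn A nm ∧ ∀ j, C (nm j) = hat C j) →
    ∀ n, DecIn (jump^[n] A) (fun u => Ty n C u) → Red B (jump^[n] A) →
    ∃ q : ℕ → ℕ, CompIn (jump^[n + 1] A) q ∧ ∀ k, IsT (n + 1) k C (Rw B (q k))

/-- D4. Step N: from level `n + 2` to level `n + 1`. -/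
def S_stepN : Prop :=
  ∀ (M : Type) [CommSemiring M] [LinearOrder M] [IsStrictOrderedRing M] [CanonicallyOrderedAdd M]
    [LA.Structure M], NPA M → S_prim → Pack M → S_fi → S_clits → ∀ B : Set ℕ, Enum B (SSp M) → ∀ n,
    (∃ (C : ℕ → M) (q : ℕ → ℕ), Function.Surjective C ∧ CompIn (jump^[n + 2] B) q ∧
      ∀ k, IsT (n + 2) k C (Rw B (q k))) →
    ∃ (C : ℕ → M) (q : ℕ → ℕ), Function.Surjective C ∧ CompIn (jump^[n + 1] B) q ∧
      ∀ k, IsT (n + 1) k C (Rw B (q k))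

/-- D5. Step 0: from level `1` to a copy. -/
def S_step0 : Prop :=
  ∀ (M : Type) [CommSemiring M] [LinearOrder M] [IsStrictOrderedRing M] [CanonicallyOrderedAdd M]
    [LA.Structure M], NPA M → S_prim → Pack M → S_fi → S_clits → ∀ B : Set ℕ, Enum B (SSp M) →
    (∃ (C : ℕ → M) (q : ℕ → ℕ), Function.Surjective C ∧ CompIn (jump B) q ∧
      ∀ k, IsT 1 k C (Rw B (q k))) →
    ∃ g : ℕ → M, Function.Surjective g ∧ DecIn B fun p => Dg g p = true

/-! ### Part E: the copy -/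

/-- E1. Removing repetitions. -/
def S_inj : Prop :=
  ∀ (M : Type) [CommSemiring M] [LinearOrder M] [IsStrictOrderedRing M] [CanonicallyOrderedAdd M]
    [LA.Structure M], NPA M → ∀ B : Set ℕ,
    (∃ g : ℕ → M, Function.Surjective g ∧ DecIn B fun p => Dg g p = true) →
    ∃ g : ℕ → M, Function.Bijective g ∧ DecIn B fun p => Dg g p = true

/-- E2. Coding the oracle into the order of pairs of neighbours. -/
def S_code : Prop :=
  ∀ (M : Type) [CommSemiring M] [LinearOrder M] [IsStrictOrderedRing M] [CanonicallyOrderedAdd M]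
    [LA.Structure M], NPA M → ∀ B : Set ℕ,
    (∃ g : ℕ → M, Function.Bijective g ∧ DecIn B fun p => Dg g p = true) →
    ∃ g : ℕ → M, Function.Bijective g ∧ (DecIn B fun p => Dg g p = true) ∧
      Red B {p | Dg g p = true}

/-- E3. The structure with universe `ℕ` given by a bijection. -/
def S_str : Prop :=
  ∀ (M : Type) [LA.Structure M] (g : ℕ → M), Function.Bijective g →
    ∃ A : LA.Structure ℕ, Nonempty (@FirstOrder.Language.Equiv LA ℕ M A _) ∧ diag A = Dg g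

/-- The standard system of a structure of the language of arithmetic: all the sets
`{n : p_n divides c}`. -/
def SS (M : Type) [LA.Structure M] : Set (Set ℕ) :=
  {X | ∃ c : M, ∀ n : ℕ, n ∈ X ↔ ∃ d : M, Structure.funMap (L := LA) AF.mul
    ![(num (Nat.nth Nat.Prime n) : LA.Term Empty).realize (default : Empty → M), d] = c}

/-- E4. The algebraic operations of a nonstandard model of PA. -/
def S_npa : Prop :=
  ∀ (M : Type) [LA.Structure M], M ⊨ PA → ¬ Nonempty (@FirstOrder.Language.Equiv LA M ℕ _ stdStr) →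
    ∃ (_ : CommSemiring M) (_ : LinearOrder M) (_ : IsStrictOrderedRing M)
      (_ : CanonicallyOrderedAdd M), NPA M ∧ SS M = SSp M

end Pool.Agent.KS6_47.SJ.JC
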